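import Pool.Agent.Helper72.BPA.M_ST

set_option autoImplicit false

namespace Pool.Agent.Helper72.BPA

open Finset MeasureTheory Pool.Agent.Helper87.BP Pool.Agent.Helper42.BPX

variable {n : ℕ} {a b m : ℝ}

/-! ## probabilities of pairs -/

lemma pe_nonneg (h : GG n a b m) (σ : Fin n → Bool) (e : Sym2 (Fin n)) : 0 ≤ pe a b σ e := by
  induction e with | _ i j =>
  rw [pe_mk]
  have hn : (0 : ℝ) ≤ n := Nat.cast_nonneg n
  split_ifs
  · exact div_nonneg h.a0 hn
  · exact div_nonneg h.b0 hn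

lemma pe_le (h : GG n a b m) (σ : Fin n → Bool) (e : Sym2 (Fin n)) : pe a b σ e ≤ m / n := by
  induction e with | _ i j =>
  rw [pe_mk]
  have hn : (0 : ℝ) ≤ n := Nat.cast_nonneg n
  split_ifs
  · exact div_le_div_of_nonneg_right h.am hn
  · exact div_le_div_of_nonneg_right h.bm hn

lemma q_le_one (h : GG n a b m) : m / n ≤ 1 := by
  have hn : (0 : ℝ) < n := by exact_mod_cast h.pos
  rw [div_le_one hn]; exact h.mn

lemma pe_le_one (h : GG n a b m) (σ : Fin n → Bool) (e : Sym2 (Fin n)) : pe a b σ e ≤ 1 :=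
  (pe_le h σ e).trans (q_le_one h)

lemma n_mul_q (h : GG n a b m) : (n : ℝ) * (m / n) = m := by
  have hn : (0 : ℝ) < n := by exact_mod_cast h.pos
  field_simp

/-! ## averages -/

lemma avg_mono (h : GG n a b m) {F G : (Fin n → Bool) → Finset (Sym2 (Fin n)) → ℝ}
    (hFG : ∀ σ, ∀ A ⊆ prs n, F σ A ≤ G σ A) : avg a b F ≤ avg a b G := by
  unfold avg
  refine div_le_div_of_nonneg_right (Finset.sum_le_sum fun σ _ => ?_) (by positivity)
  exact EE_mono (fun e _ => pe_nonneg h σ e) (fun e _ => pe_le_one h σ e) (hFG σ)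

lemma avg_congr {F G : (Fin n → Bool) → Finset (Sym2 (Fin n)) → ℝ}
    (hFG : ∀ σ, ∀ A ⊆ prs n, F σ A = G σ A) : avg a b F = avg a b G := by
  unfold avg
  congr 1
  exact Finset.sum_congr rfl fun σ _ => EE_congr (hFG σ)

lemma avg_add (F G : (Fin n → Bool) → Finset (Sym2 (Fin n)) → ℝ) :
    avg a b (fun σ A => F σ A + G σ A) = avg a b F + avg a b G := by
  unfold avg
  rw [← add_div, ← Finset.sum_add_distrib]
  congr 1
  exact Finset.sum_congr rfl fun σ _ => EE_add _ _ _ _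

lemma avg_sub (F G : (Fin n → Bool) → Finset (Sym2 (Fin n)) → ℝ) :
    avg a b (fun σ A => F σ A - G σ A) = avg a b F - avg a b G := by
  unfold avg
  rw [← sub_div, ← Finset.sum_sub_distrib]
  congr 1
  exact Finset.sum_congr rfl fun σ _ => EE_sub _ _ _ _

lemma avg_mul (c : ℝ) (F : (Fin n → Bool) → Finset (Sym2 (Fin n)) → ℝ) :
    avg a b (fun σ A => c * F σ A) = c * avg a b F := by
  unfold avg
  rw [← mul_div_assoc, Finset.mul_sum]
  congr 1
  exact Finset.sum_congr rfl fun σ _ => EE_mul _ _ _ _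

lemma avg_const (a b : ℝ) (c : ℝ) : avg (n := n) a b (fun _ _ => c) = c := by
  unfold avg
  rw [Finset.sum_congr rfl (fun σ _ => EE_const _ _ c), Finset.sum_const, nsmul_eq_mul]
  simp

lemma avg_sum {κ : Type*} (K : Finset κ)
    (F : κ → (Fin n → Bool) → Finset (Sym2 (Fin n)) → ℝ) :
    avg a b (fun σ A => ∑ k ∈ K, F k σ A) = ∑ k ∈ K, avg a b (F k) := by
  unfold avg
  rw [← Finset.sum_div]
  congr 1
  rw [Finset.sum_comm]
  exact Finset.sum_congr rfl fun σ _ => EE_sum _ _ _ _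

lemma avg_nonneg (h : GG n a b m) {F : (Fin n → Bool) → Finset (Sym2 (Fin n)) → ℝ}
    (hF : ∀ σ, ∀ A ⊆ prs n, 0 ≤ F σ A) : 0 ≤ avg a b F := by
  have := avg_mono h (F := fun _ _ => 0) (G := F) hF
  rwa [avg_const] at this

lemma avg_le_const (h : GG n a b m) {F : (Fin n → Bool) → Finset (Sym2 (Fin n)) → ℝ} {c : ℝ}
    (hF : ∀ σ, ∀ A ⊆ prs n, F σ A ≤ c) : avg a b F ≤ c := by
  have := avg_mono h (F := F) (G := fun _ _ => c) hF
  rwa [avg_const] at this

/-- bound for the average from a bound for each label -/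
lemma avg_le_of_EE {F : (Fin n → Bool) → Finset (Sym2 (Fin n)) → ℝ} {c : ℝ}
    (hF : ∀ σ, EE (pe a b σ) (prs n) (F σ) ≤ c) : avg a b F ≤ c := by
  unfold avg
  rw [div_le_iff₀ (by positivity)]
  calc ∑ σ, EE (pe a b σ) (prs n) (F σ) ≤ ∑ _σ : Fin n → Bool, c :=
        Finset.sum_le_sum fun σ _ => hF σ
    _ = c * 2 ^ n := by
        rw [Finset.sum_const, nsmul_eq_mul, mul_comm]
        simp

/-! ## nice functions -/

namespace Nice

variable {F G : ℝ → ℝ}

lemma zero : Nice (fun _ => (0 : ℝ)) :=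
  ⟨measurable_const, ⟨0, fun x => by simp⟩, ⟨0, fun _ _ => rfl⟩⟩

/-- translation -/
lemma shift (hF : Nice F) (c : ℝ) : Nice (fun x => F (x - c)) := by
  obtain ⟨hm, ⟨C, hC⟩, ⟨M, hM⟩⟩ := hF
  refine ⟨hm.comp (measurable_id.sub_const c), ⟨C, fun x => hC _⟩, ⟨M + |c|, fun x hx => ?_⟩⟩
  apply hM
  have := abs_sub_abs_le_abs_sub x c
  linarith

end Nice

lemma nice_Zw (σ : Fin n → Bool) (T : Finset (Fin n)) (w : Fin n → ℝ) : Nice (Zw σ T w) := by
  unfold Zw
  exact (Nice.sum T fun y _ => (nice_st (w y)).const_mul _).div_const _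

lemma lab_abs (σ : Fin n → Bool) (i : Fin n) : |lab σ i| = 1 := by
  unfold lab
  split_ifs <;> simp

lemma lab_sq (σ : Fin n → Bool) (i : Fin n) : lab σ i * lab σ i = 1 := by
  unfold lab
  split_ifs <;> simp

end Pool.Agent.Helper72.BPA
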