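import Pool.Agent.Helper72.BPA.St

/-!
# EXPAND: second moment of `Zw`
-/

set_option autoImplicit false

namespace Pool.Agent.Helper72.BPA

open Finset MeasureTheory Pool.Agent.Helper87.BP Pool.Agent.Helper42.BPX

noncomputable section

open Classical

lemma st_mul_integrable (h : S_st) (x y : ℝ) : Integrable (fun v => st x v * st y v) := by
  obtain ⟨hm, hb, hz, -, -, -, -, -⟩ := h
  have hsup : (fun v => st x v * st y v)
      = Set.indicator (Set.Icc (-|x|) |x|) (fun v => st x v * st y v) := by
    funext v
    by_cases hv : v ∈ Set.Icc (-|x|) |x|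
    · rw [Set.indicator_of_mem hv]
    · rw [Set.indicator_of_notMem hv]
      have : |x| < |v| := by
        by_contra hc
        apply hv
        rw [Set.mem_Icc]
        exact abs_le.mp (not_lt.mp hc)
      rw [hz x v this, zero_mul]
  rw [hsup, integrable_indicator_iff measurableSet_Icc]
  refine Measure.integrableOn_of_bounded (M := 1) ?_ ?_ ?_
  · rw [Real.volume_Icc]; exact ENNReal.ofReal_ne_top
  · exact ((hm x).mul (hm y)).aestronglyMeasurable
  · refine Filter.Eventually.of_forall (fun v => ?_)
    rw [Real.norm_eq_abs, abs_mul]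
    exact mul_le_one₀ (hb x v) (abs_nonneg _) (hb y v)

theorem m_expand (h : S_st) : S_expand := by
  intro n σ S u
  have h1 : ∀ v, (Zw σ S u v) ^ 2
      = ∑ i ∈ S, ∑ j ∈ S, (lab σ i * lab σ j / (n : ℝ) ^ 2) * (st (u i) v * st (u j) v) := by
    intro v
    unfold Zw
    rw [div_pow, sq (∑ y ∈ S, _), Finset.sum_mul_sum, Finset.sum_div]
    refine Finset.sum_congr rfl (fun i _ => ?_)
    rw [Finset.sum_div]
    refine Finset.sum_congr rfl (fun j _ => ?_)
    ring
  simp_rw [h1]
  rw [integral_finset_sum]
  · rw [Finset.sum_div]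
    refine Finset.sum_congr rfl (fun i _ => ?_)
    rw [integral_finset_sum]
    · rw [Finset.sum_div]
      refine Finset.sum_congr rfl (fun j _ => ?_)
      rw [integral_const_mul]
      unfold kk
      ring
    · intro j _
      exact (st_mul_integrable h _ _).const_mul _
  · intro i _
    refine integrable_finset_sum _ (fun j _ => ?_)
    exact (st_mul_integrable h _ _).const_mul _

end

end Pool.Agent.Helper72.BPA
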