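import Pool.Agent.Helper72.BPA.St

/-!
# Part A: step functions
-/

set_option autoImplicit false

namespace Pool.Agent.Helper72.BPA

open Finset MeasureTheory Pool.Agent.Helper87.BP Pool.Agent.Helper42.BPX

/-! ### Nice functions -/

theorem Nice.integrable {F : ℝ → ℝ} (h : Nice F) : Integrable F := by
  obtain ⟨hm, ⟨C, hC⟩, M, hM⟩ := h
  have h1 : IntegrableOn F (Set.Icc (-M) M) := by
    apply Measure.integrableOn_of_bounded (M := C)
    · exact measure_Icc_lt_top.ne
    · exact hm.aestronglyMeasurable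
    · exact Filter.Eventually.of_forall (fun x => by rw [Real.norm_eq_abs]; exact hC x)
  rwa [integrableOn_iff_integrable_of_support_subset] at h1
  intro x hx
  by_contra hn
  apply hx
  apply hM
  by_contra hlt
  apply hn
  rw [Set.mem_Icc]
  exact abs_le.1 (not_lt.1 hlt)

theorem nice_zero : Nice (fun _ => 0) :=
  ⟨measurable_const, ⟨0, fun x => by simp⟩, 0, fun x _ => rfl⟩

theorem Nice.add {F G : ℝ → ℝ} (hF : Nice F) (hG : Nice G) : Nice (fun x => F x + G x) := by
  obtain ⟨m1, ⟨C1, h1⟩, M1, k1⟩ := hF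
  obtain ⟨m2, ⟨C2, h2⟩, M2, k2⟩ := hG
  refine ⟨m1.add m2, ⟨C1 + C2, fun x => (abs_add_le _ _).trans (add_le_add (h1 x) (h2 x))⟩,
    max M1 M2, fun x hx => ?_⟩
  show F x + G x = 0
  rw [k1 x (lt_of_le_of_lt (le_max_left _ _) hx), k2 x (lt_of_le_of_lt (le_max_right _ _) hx),
    add_zero]

theorem Nice.const_mul {F : ℝ → ℝ} (c : ℝ) (hF : Nice F) : Nice (fun x => c * F x) := by
  obtain ⟨m1, ⟨C1, h1⟩, M1, k1⟩ := hF
  refine ⟨m1.const_mul c, ⟨|c| * C1, fun x => ?_⟩, M1, fun x hx => ?_⟩
  · rw [abs_mul]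
    exact mul_le_mul_of_nonneg_left (h1 x) (abs_nonneg c)
  · show c * F x = 0
    rw [k1 x hx, mul_zero]

theorem Nice.mul_const {F : ℝ → ℝ} (c : ℝ) (hF : Nice F) : Nice (fun x => F x * c) := by
  have := hF.const_mul c
  simp only [mul_comm c] at this
  exact this

theorem Nice.div_const {F : ℝ → ℝ} (c : ℝ) (hF : Nice F) : Nice (fun x => F x / c) := by
  simp only [div_eq_mul_inv]
  exact hF.mul_const _

theorem Nice.neg {F : ℝ → ℝ} (hF : Nice F) : Nice (fun x => - F x) := by
  have := hF.const_mul (-1)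
  simpa using this

theorem Nice.sub {F G : ℝ → ℝ} (hF : Nice F) (hG : Nice G) : Nice (fun x => F x - G x) := by
  have := hF.add hG.neg
  simpa [sub_eq_add_neg] using this

theorem Nice.abs {F : ℝ → ℝ} (hF : Nice F) : Nice (fun x => |F x|) := by
  obtain ⟨m1, ⟨C1, h1⟩, M1, k1⟩ := hF
  refine ⟨m1.abs, ⟨C1, fun x => by rw [abs_abs]; exact h1 x⟩, M1, fun x hx => ?_⟩
  show |F x| = 0
  rw [k1 x hx, abs_zero]

theorem Nice.mul {F G : ℝ → ℝ} (hF : Nice F) (hG : Nice G) : Nice (fun x => F x * G x) := by
  obtain ⟨m1, ⟨C1, h1⟩, M1, k1⟩ := hF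
  obtain ⟨m2, ⟨C2, h2⟩, M2, k2⟩ := hG
  refine ⟨m1.mul m2, ⟨C1 * C2, fun x => ?_⟩, M1, fun x hx => ?_⟩
  · rw [abs_mul]
    exact mul_le_mul (h1 x) (h2 x) (abs_nonneg _) ((abs_nonneg _).trans (h1 x))
  · show F x * G x = 0
    rw [k1 x hx, zero_mul]

theorem Nice.sq {F : ℝ → ℝ} (hF : Nice F) : Nice (fun x => F x ^ 2) := by
  simp only [pow_two]
  exact hF.mul hF

theorem Nice.sum {ι : Type*} (K : Finset ι) {F : ι → ℝ → ℝ} (h : ∀ i ∈ K, Nice (F i)) :
    Nice (fun x => ∑ i ∈ K, F i x) := by
  classical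
  induction K using Finset.induction_on with
  | empty => simpa using nice_zero
  | insert a K ha ih =>
    simp only [Finset.sum_insert ha]
    exact (h a (Finset.mem_insert_self a K)).add
      (ih (fun i hi => h i (Finset.mem_insert_of_mem hi)))

/-! ### step functions -/

theorem measurable_ind_le (x : ℝ) : Measurable (fun v : ℝ => ind (x ≤ v)) := by
  unfold ind
  exact Measurable.ite measurableSet_Ici measurable_const measurable_const

theorem st_measurable (x : ℝ) : Measurable (st x) :=
  (measurable_ind_le x).sub (measurable_ind_le 0)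

theorem st_abs_le (x v : ℝ) : |st x v| ≤ 1 := by
  unfold st ind
  split_ifs <;> norm_num

theorem st_zero_of {x v : ℝ} (h : |x| < |v|) : st x v = 0 := by
  unfold st ind
  rcases le_or_gt 0 v with hv | hv
  · rw [abs_of_nonneg hv] at h
    have h1 : x ≤ v := (le_abs_self x).trans h.le
    rw [if_pos h1, if_pos hv, sub_self]
  · rw [abs_of_neg hv] at h
    have h1 : ¬ x ≤ v := by
      have := neg_abs_le x
      intro h2
      linarith
    rw [if_neg h1, if_neg (not_le.2 hv), sub_self]

theorem st_sub (x y v : ℝ) : st x v - st y v = ind (x ≤ v) - ind (y ≤ v) := by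
  unfold st
  ring

theorem st_sub_abs_le (x y v : ℝ) : |st x v - st y v| ≤ 1 := by
  rw [st_sub]
  unfold ind
  split_ifs <;> norm_num

theorem nice_st (x : ℝ) : Nice (st x) :=
  ⟨st_measurable x, ⟨1, st_abs_le x⟩, |x|, fun _ h => st_zero_of h⟩

theorem st_zero_left (v : ℝ) : st 0 v = 0 := by
  unfold st
  ring

theorem st_int_aux {x y : ℝ} (h : x ≤ y) : ∫ v, |st x v - st y v| = y - x := by
  have h1 : (fun v => |st x v - st y v|) = Set.indicator (Set.Ico x y) (fun _ => (1 : ℝ)) := by
    funext v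
    rw [st_sub]
    unfold ind
    by_cases h1 : x ≤ v
    · by_cases h2 : y ≤ v
      · rw [if_pos h1, if_pos h2, Set.indicator_of_notMem, sub_self, abs_zero]
        rw [Set.mem_Ico]
        intro h3
        linarith [h3.2]
      · rw [if_pos h1, if_neg h2, Set.indicator_of_mem, sub_zero, abs_one]
        exact ⟨h1, not_le.1 h2⟩
    · have h2 : ¬ y ≤ v := fun h3 => h1 (h.trans h3)
      rw [if_neg h1, if_neg h2, Set.indicator_of_notMem, sub_self, abs_zero]
      exact fun h3 => h1 h3.1
  rw [h1, integral_indicator measurableSet_Ico, setIntegral_const, smul_eq_mul, mul_one,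
    Real.volume_real_Ico_of_le h]

theorem st_int (x y : ℝ) : ∫ v, |st x v - st y v| = |x - y| := by
  rcases le_total x y with h | h
  · rw [st_int_aux h, abs_of_nonpos (by linarith)]
    ring
  · have h1 : (fun v => |st x v - st y v|) = fun v => |st y v - st x v| := by
      funext v
      rw [abs_sub_comm]
    rw [h1, st_int_aux h, abs_of_nonneg (by linarith)]

theorem st_int_abs (x : ℝ) : ∫ v, |st x v| = |x| := by
  have h := st_int x 0
  simp only [st_zero_left, sub_zero] at h
  exact h

theorem kk_self (x : ℝ) : kk x x = |x| := by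
  unfold kk
  rw [← st_int_abs]
  congr 1
  funext v
  unfold st ind
  split_ifs <;> norm_num

theorem kk_lip (x y x' y' : ℝ) : |kk x y - kk x' y'| ≤ |x - x'| + |y - y'| := by
  unfold kk
  have i1 : Integrable (fun v => st x v * st y v) := ((nice_st x).mul (nice_st y)).integrable
  have i2 : Integrable (fun v => st x' v * st y' v) := ((nice_st x').mul (nice_st y')).integrable
  have i3 : Integrable (fun v => |st x v - st x' v|) :=
    ((nice_st x).sub (nice_st x')).abs.integrable
  have i4 : Integrable (fun v => |st y v - st y' v|) :=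
    ((nice_st y).sub (nice_st y')).abs.integrable
  rw [← integral_sub i1 i2, ← st_int, ← st_int, ← integral_add i3 i4]
  refine (abs_integral_le_integral_abs).trans ?_
  apply integral_mono (i1.sub i2).abs (i3.add i4)
  intro v
  show |st x v * st y v - st x' v * st y' v| ≤ |st x v - st x' v| + |st y v - st y' v|
  have e : st x v * st y v - st x' v * st y' v =
      (st x v - st x' v) * st y v + st x' v * (st y v - st y' v) := by ring
  rw [e]
  refine (abs_add_le _ _).trans ?_
  rw [abs_mul, abs_mul]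
  have h1 := st_abs_le y v
  have h2 := st_abs_le x' v
  have h3 := abs_nonneg (st x v - st x' v)
  have h4 := abs_nonneg (st y v - st y' v)
  nlinarith

theorem kk_abs_le (x y : ℝ) : |kk x y| ≤ |x| := by
  unfold kk
  rw [← st_int_abs x]
  refine (abs_integral_le_integral_abs).trans ?_
  apply integral_mono ((nice_st x).mul (nice_st y)).integrable.abs (nice_st x).abs.integrable
  intro v
  show |st x v * st y v| ≤ |st x v|
  rw [abs_mul]
  have h1 := st_abs_le y v
  have h2 := abs_nonneg (st x v)
  nlinarith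

theorem m_st : S_st :=
  ⟨st_measurable, st_abs_le, fun _ _ h => st_zero_of h, st_sub_abs_le, st_int, kk_self,
    kk_lip, kk_abs_le⟩

end Pool.Agent.Helper72.BPA
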