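import Pool.Agent.Helper72.BPA.St

/-!
# Part A: the clipped sign is orthogonal to the labels
-/

set_option autoImplicit false

namespace Pool.Agent.Helper72.BPA

open Finset MeasureTheory Pool.Agent.Helper87.BP Pool.Agent.Helper42.BPX

noncomputable section

open Classical

/-- the integral of the step function over `(-η, η]` -/
private theorem clip_ind (x η : ℝ) (hη : 0 < η) :
    ∫ v in Set.Ioc (-η) η, ind (x ≤ v) = η - max (-η) (min η x) := by
  have h1 : (fun v => ind (x ≤ v)) = Set.indicator (Set.Ici x) (fun _ => (1 : ℝ)) := by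
    funext v
    by_cases h : x ≤ v
    · rw [Set.indicator_of_mem (show v ∈ Set.Ici x from h)]
      simp [ind, h]
    · rw [Set.indicator_of_notMem (show v ∉ Set.Ici x from h)]
      simp [ind, h]
  rw [h1, setIntegral_indicator measurableSet_Ici, setIntegral_const, smul_eq_mul, mul_one]
  rcases le_total x (-η) with h | h
  · have h2 : Set.Ioc (-η) η ∩ Set.Ici x = Set.Ioc (-η) η := by
      ext v
      simp only [Set.mem_inter_iff, Set.mem_Ioc, Set.mem_Ici]
      constructor
      · exact fun h => h.1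
      · exact fun h3 => ⟨h3, by linarith [h3.1]⟩
    rw [h2, Real.volume_real_Ioc_of_le (by linarith), min_eq_right (by linarith),
      max_eq_left h]
  · rcases le_total x η with h' | h'
    · rcases eq_or_lt_of_le h with h3 | h3
      · have h2 : Set.Ioc (-η) η ∩ Set.Ici x = Set.Ioc (-η) η := by
          ext v
          simp only [Set.mem_inter_iff, Set.mem_Ioc, Set.mem_Ici]
          constructor
          · exact fun h => h.1
          · exact fun h4 => ⟨h4, by linarith [h4.1]⟩
        rw [h2, Real.volume_real_Ioc_of_le (by linarith), min_eq_right h', max_eq_right h, h3]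
      · have h2 : Set.Ioc (-η) η ∩ Set.Ici x = Set.Icc x η := by
          ext v
          simp only [Set.mem_inter_iff, Set.mem_Ioc, Set.mem_Ici, Set.mem_Icc]
          constructor
          · exact fun h => ⟨h.2, h.1.2⟩
          · exact fun h4 => ⟨⟨by linarith [h4.1], h4.2⟩, h4.1⟩
        rw [h2, Real.volume_real_Icc_of_le h', min_eq_right h', max_eq_right h]
    · have h2 : volume.real (Set.Ioc (-η) η ∩ Set.Ici x) = 0 := by
        have h3 : Set.Ioc (-η) η ∩ Set.Ici x ⊆ {η} := by
          intro v hv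
          simp only [Set.mem_inter_iff, Set.mem_Ioc, Set.mem_Ici] at hv
          exact le_antisymm hv.1.2 (le_trans h' hv.2)
        have h4 : volume (Set.Ioc (-η) η ∩ Set.Ici x) = 0 :=
          measure_mono_null h3 (by simp)
        rw [Measure.real, h4]
        rfl
      rw [h2, min_eq_left h', max_eq_right (by linarith), sub_self]

theorem m_clip (hs : S_st) : S_clip := by
  intro n σ u η hη
  obtain ⟨s1, s2, s3, -⟩ := hs
  have hind : ∀ x : ℝ, Measurable (fun v => ind (x ≤ v)) := by
    intro x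
    unfold ind
    exact Measurable.ite measurableSet_Ici measurable_const measurable_const
  -- the function
  obtain ⟨Z, hZ⟩ : ∃ Z : ℝ → ℝ, Z = Zw σ univ u := ⟨_, rfl⟩
  have hZm : Measurable Z := by
    rw [hZ]
    unfold Zw
    exact (Finset.measurable_sum _ fun i _ => (s1 (u i)).const_mul _).div_const _
  obtain ⟨C, hC⟩ : ∃ C : ℝ, C = (∑ i : Fin n, |lab σ i|) / n := ⟨_, rfl⟩
  have hC0 : 0 ≤ C := by
    rw [hC]
    exact div_nonneg (Finset.sum_nonneg fun i _ => abs_nonneg _) (Nat.cast_nonneg n)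
  have hZb : ∀ v, |Z v| ≤ C := by
    intro v
    rw [hZ, hC]
    unfold Zw
    rw [abs_div, Nat.abs_cast]
    refine div_le_div_of_nonneg_right ?_ (Nat.cast_nonneg n)
    refine (Finset.abs_sum_le_sum_abs _ _).trans ?_
    refine Finset.sum_le_sum fun i _ => ?_
    rw [abs_mul]
    exact mul_le_of_le_one_right (abs_nonneg _) (s2 _ _)
  obtain ⟨M, hM⟩ : ∃ M : ℝ, M = ∑ i : Fin n, |u i| := ⟨_, rfl⟩
  have hZ0 : ∀ v, M < |v| → Z v = 0 := by
    intro v hv
    rw [hZ]
    unfold Zw
    rw [Finset.sum_eq_zero, zero_div]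
    intro i _
    rw [s3 (u i) v, mul_zero]
    refine lt_of_le_of_lt ?_ hv
    rw [hM]
    exact Finset.single_le_sum (f := fun i => |u i|) (fun i _ => abs_nonneg _)
      (Finset.mem_univ i)
  -- integrability
  have hI2 : Integrable (fun v => Z v ^ 2) := by
    have h1 : Integrable (Set.indicator (Set.Icc (-M) M) (fun _ => C ^ 2)) := by
      rw [integrable_indicator_iff measurableSet_Icc]
      exact integrableOn_const (by simp)
    refine h1.mono' (hZm.pow_const 2).aestronglyMeasurable (ae_of_all _ ?_)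
    intro v
    rw [Real.norm_eq_abs, abs_of_nonneg (sq_nonneg _)]
    by_cases hv : v ∈ Set.Icc (-M) M
    · rw [Set.indicator_of_mem hv, ← sq_abs (Z v)]
      exact pow_le_pow_left₀ (abs_nonneg _) (hZb v) 2
    · rw [Set.indicator_of_notMem hv, hZ0 v]
      · simp
      · rw [lt_abs]
        simp only [Set.mem_Icc, not_and_or, not_le] at hv
        rcases hv with hv | hv
        · right; linarith
        · left; exact hv
  have hst : ∀ x, IntegrableOn (fun v => st x v) (Set.Ioc (-η) η) := by
    intro x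
    refine Measure.integrableOn_of_bounded (M := 1) (by simp) (s1 x).aestronglyMeasurable
      (ae_of_all _ ?_)
    intro v
    rw [Real.norm_eq_abs]
    exact s2 x v
  have hindI : ∀ x : ℝ, IntegrableOn (fun v => ind (x ≤ v)) (Set.Ioc (-η) η) := by
    intro x
    refine Measure.integrableOn_of_bounded (M := 1) (by simp) (hind x).aestronglyMeasurable
      (ae_of_all _ ?_)
    intro v
    rw [Real.norm_eq_abs]
    unfold ind
    split_ifs <;> simp
  have hZI : IntegrableOn Z (Set.Ioc (-η) η) := by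
    refine Measure.integrableOn_of_bounded (M := C) (by simp) hZm.aestronglyMeasurable
      (ae_of_all _ ?_)
    intro v
    rw [Real.norm_eq_abs]
    exact hZb v
  -- the integral of `Z`
  have hint : ∫ v in Set.Ioc (-η) η, Z v =
      -η * ((∑ i, lab σ i * max (-1) (min 1 (u i / η))) / n) := by
    have h1 : ∀ x, ∫ v in Set.Ioc (-η) η, st x v = -η * max (-1) (min 1 (x / η)) := by
      intro x
      unfold st
      rw [integral_sub (hindI x) (hindI 0), clip_ind x η hη, clip_ind 0 η hη,
        min_eq_right hη.le, max_eq_right (by linarith : -η ≤ 0)]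
      have h2 : η * max (-1) (min 1 (x / η)) = max (-η) (min η x) := by
        rw [mul_max_of_nonneg _ _ hη.le, mul_min_of_nonneg _ _ hη.le, mul_div_cancel₀ _ hη.ne']
        ring_nf
      linarith
    rw [hZ]
    unfold Zw
    rw [integral_div, integral_finsetSum _ fun i _ => (hst (u i)).const_mul _]
    rw [← mul_div_assoc, Finset.mul_sum]
    congr 1
    refine Finset.sum_congr rfl fun i _ => ?_
    rw [integral_const_mul, h1]
    ring
  -- Cauchy-Schwarz
  have hCS : (∫ v in Set.Ioc (-η) η, Z v) ^ 2 ≤ 2 * η * ∫ v in Set.Ioc (-η) η, Z v ^ 2 := by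
    obtain ⟨A, hA⟩ : ∃ A, A = ∫ v in Set.Ioc (-η) η, Z v := ⟨_, rfl⟩
    have hI2' : IntegrableOn (fun v => Z v ^ 2) (Set.Ioc (-η) η) := hI2.integrableOn
    have h1 : 0 ≤ ∫ v in Set.Ioc (-η) η, (Z v ^ 2 - 2 * (A / (2 * η)) * Z v +
        (A / (2 * η)) ^ 2) := by
      refine integral_nonneg fun v => ?_
      have : 0 ≤ (Z v - A / (2 * η)) ^ 2 := sq_nonneg _
      change 0 ≤ Z v ^ 2 - 2 * (A / (2 * η)) * Z v + (A / (2 * η)) ^ 2
      nlinarith
    have g1 : IntegrableOn (fun v => 2 * (A / (2 * η)) * Z v) (Set.Ioc (-η) η) :=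
      hZI.const_mul _
    have g2 : IntegrableOn (fun v => Z v ^ 2 - 2 * (A / (2 * η)) * Z v) (Set.Ioc (-η) η) :=
      hI2'.sub g1
    have g3 : IntegrableOn (fun _ : ℝ => (A / (2 * η)) ^ 2) (Set.Ioc (-η) η) :=
      integrableOn_const (by simp)
    rw [integral_add g2 g3, integral_sub hI2' g1, integral_const_mul, ← hA, setIntegral_const,
      Real.volume_real_Ioc_of_le (by linarith), smul_eq_mul] at h1
    rw [← hA]
    have h2 : 2 * η * (∫ v in Set.Ioc (-η) η, Z v ^ 2) - A ^ 2 =
        2 * η * ((∫ v in Set.Ioc (-η) η, Z v ^ 2) - 2 * (A / (2 * η)) * A +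
          (η - -η) * (A / (2 * η)) ^ 2) := by
      field_simp
      ring
    have h3 : 0 ≤ 2 * η * ((∫ v in Set.Ioc (-η) η, Z v ^ 2) - 2 * (A / (2 * η)) * A +
          (η - -η) * (A / (2 * η)) ^ 2) := mul_nonneg (by linarith) h1
    linarith
  have hle : ∫ v in Set.Ioc (-η) η, Z v ^ 2 ≤ ∫ v, Z v ^ 2 :=
    setIntegral_le_integral hI2 (ae_of_all _ fun v => sq_nonneg _)
  rw [← hZ]
  rw [hint] at hCS
  have h4 : (-η * ((∑ i, lab σ i * max (-1) (min 1 (u i / η))) / n)) ^ 2 =
      η ^ 2 * ((∑ i, lab σ i * max (-1) (min 1 (u i / η))) / n) ^ 2 := by ring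
  rw [h4] at hCS
  have h5 : η ^ 2 * ((∑ i, lab σ i * max (-1) (min 1 (u i / η))) / n) ^ 2 ≤
      2 * η * ∫ v, Z v ^ 2 := hCS.trans (mul_le_mul_of_nonneg_left hle (by linarith))
  have h6 : 0 < η ^ 2 := by positivity
  refine le_of_mul_le_mul_left ?_ h6
  refine h5.trans (le_of_eq ?_)
  field_simp

end

end Pool.Agent.Helper72.BPA
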