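import Pool.Agent.Helper72.BPA.St

/-!
# Part A: change of variables for the energy
-/

set_option autoImplicit false

namespace Pool.Agent.Helper72.BPA

open Finset MeasureTheory Pool.Agent.Helper87.BP Pool.Agent.Helper42.BPX

noncomputable section

open Classical

/-- `|x - y|` is shared by `f` and `θ x - f x` -/
lemma chv_key {c θ : ℝ} {f : ℝ → ℝ} (hf : FF c θ f) (x y : ℝ) :
    |f x - f y| + |(θ * x - f x) - (θ * y - f y)| = θ * |x - y| := by
  have main : ∀ x y : ℝ, y ≤ x →
      |f x - f y| + |(θ * x - f x) - (θ * y - f y)| = θ * |x - y| := by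
    intro x y hxy
    have h1 : 0 ≤ f x - f y := sub_nonneg.2 (hf.mono hxy)
    have h2 : 0 ≤ x - y := sub_nonneg.2 hxy
    have h3 := hf.lip x y
    rw [abs_of_nonneg h1, abs_of_nonneg h2] at h3
    have h4 : 0 ≤ (θ * x - f x) - (θ * y - f y) := by linarith
    rw [abs_of_nonneg h1, abs_of_nonneg h2, abs_of_nonneg h4]
    ring
  rcases le_total y x with h | h
  · exact main x y h
  · have := main y x h
    rw [abs_sub_comm (f x), abs_sub_comm (θ * x - f x), abs_sub_comm x]
    exact this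

theorem m_chv (h : S_energy) : S_chv := by
  intro κ K α s c θ f hf h0
  have e1 := h κ K α s h0
  have e2 := h κ K α (fun k => f (s k)) h0
  have e3 := h κ K α (fun k => θ * s k - f (s k)) h0
  have nn : 0 ≤ ∫ v, (∑ k ∈ K, α k * ind (θ * s k - f (s k) ≤ v)) ^ 2 :=
    integral_nonneg (fun v => sq_nonneg _)
  have key : θ * ∑ k ∈ K, ∑ l ∈ K, α k * α l * |s k - s l|
      = ∑ k ∈ K, ∑ l ∈ K, α k * α l * |f (s k) - f (s l)|
        + ∑ k ∈ K, ∑ l ∈ K, α k * α l * |(θ * s k - f (s k)) - (θ * s l - f (s l))| := by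
    rw [mul_sum, ← sum_add_distrib]
    refine sum_congr rfl (fun k _ => ?_)
    rw [mul_sum, ← sum_add_distrib]
    refine sum_congr rfl (fun l _ => ?_)
    have := chv_key hf (s k) (s l)
    calc θ * (α k * α l * |s k - s l|) = α k * α l * (θ * |s k - s l|) := by ring
      _ = α k * α l * (|f (s k) - f (s l)|
          + |(θ * s k - f (s k)) - (θ * s l - f (s l))|) := by rw [this]
      _ = _ := by ring
  have e2' : ∫ v, (∑ k ∈ K, α k * ind (f (s k) ≤ v)) ^ 2
    = -(1 / 2) * ∑ k ∈ K, ∑ l ∈ K, α k * α l * |f (s k) - f (s l)| := e2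
  have e3' : ∫ v, (∑ k ∈ K, α k * ind (θ * s k - f (s k) ≤ v)) ^ 2
    = -(1 / 2) * ∑ k ∈ K, ∑ l ∈ K, α k * α l
        * |(θ * s k - f (s k)) - (θ * s l - f (s l))| := e3
  rw [e2', e1]
  rw [e3'] at nn
  nlinarith [nn, key]

end

end Pool.Agent.Helper72.BPA
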