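import Pool.Agent.Helper72.BPA.St

/-!
# Part A: the derivative along the interpolation
-/

set_option autoImplicit false

namespace Pool.Agent.Helper72.BPA

open Finset MeasureTheory Pool.Agent.Helper87.BP Pool.Agent.Helper42.BPX

noncomputable section

open Classical

namespace DER

lemma ind_mem_eq {κ : Type} [DecidableEq κ] {T : Finset κ} {p : κ → ℝ} {y : κ} (hy : y ∈ T) :
    EE p T (fun N => ind (y ∈ N)) = p y := by
  have h := Pr_subset (p := p) (S := T) (B := {y}) (by simpa using hy)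
  rw [prod_singleton] at h
  rw [← h]
  unfold Pr
  refine EE_congr (fun A _ => ind_congr ?_)
  simp

lemma integrable_EE {κ : Type} [DecidableEq κ] {T : Finset κ} {p : κ → ℝ}
    {F : Finset κ → ℝ → ℝ} (hF : ∀ A, Integrable (F A)) :
    Integrable (fun x => EE p T (fun A => F A x)) := by
  unfold EE
  exact integrable_finsetSum _ (fun A _ => (hF A).const_mul _)

lemma integral_EE {κ : Type} [DecidableEq κ] {T : Finset κ} {p : κ → ℝ}
    {F : Finset κ → ℝ → ℝ} (hF : ∀ A, Integrable (F A)) :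
    ∫ x, EE p T (fun A => F A x) = EE p T (fun A => ∫ x, F A x) := by
  unfold EE
  rw [integral_finsetSum _ (fun A _ => (hF A).const_mul _)]
  refine sum_congr rfl (fun A _ => ?_)
  rw [integral_const_mul]

lemma nice_integrable {F : ℝ → ℝ} (hF : Nice F) : Integrable F := by
  obtain ⟨hm, ⟨C, hC⟩, M, hM⟩ := hF
  have h1 : IntegrableOn F (Set.Icc (-M) M) := by
    refine Measure.integrableOn_of_bounded (M := C) ?_ hm.aestronglyMeasurable ?_
    · simp
    · exact Filter.Eventually.of_forall (fun x => by simpa using hC x)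
  refine (integrableOn_iff_integrable_of_support_subset ?_).1 h1
  intro x hx
  by_contra hxM
  apply hx
  apply hM
  by_contra h
  push Not at h
  exact hxM (abs_le.1 h)

lemma nice_add {F G : ℝ → ℝ} (hF : Nice F) (hG : Nice G) : Nice (fun x => F x + G x) := by
  obtain ⟨hm, ⟨C, hC⟩, M, hM⟩ := hF
  obtain ⟨hm', ⟨C', hC'⟩, M', hM'⟩ := hG
  refine ⟨hm.add hm', ⟨C + C', fun x => (abs_add_le _ _).trans (add_le_add (hC x) (hC' x))⟩,
    max M M', fun x hx => ?_⟩
  show F x + G x = 0
  rw [hM x (lt_of_le_of_lt (le_max_left _ _) hx), hM' x (lt_of_le_of_lt (le_max_right _ _) hx),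
    add_zero]

lemma nice_mul {F G : ℝ → ℝ} (hF : Nice F) (hG : Nice G) : Nice (fun x => F x * G x) := by
  obtain ⟨hm, ⟨C, hC⟩, M, hM⟩ := hF
  obtain ⟨hm', ⟨C', hC'⟩, M', hM'⟩ := hG
  refine ⟨hm.mul hm', ⟨C * C', fun x => ?_⟩, M, fun x hx => ?_⟩
  · rw [abs_mul]
    exact mul_le_mul (hC x) (hC' x) (abs_nonneg _) ((abs_nonneg _).trans (hC x))
  · show F x * G x = 0
    rw [hM x hx, zero_mul]

lemma nice_cmul {F : ℝ → ℝ} (c : ℝ) (hF : Nice F) : Nice (fun x => c * F x) := by
  obtain ⟨hm, ⟨C, hC⟩, M, hM⟩ := hF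
  refine ⟨hm.const_mul c, ⟨|c| * C, fun x => ?_⟩, M, fun x hx => ?_⟩
  · rw [abs_mul]
    exact mul_le_mul_of_nonneg_left (hC x) (abs_nonneg _)
  · show c * F x = 0
    rw [hM x hx, mul_zero]

lemma nice_zero : Nice (fun _ : ℝ => (0 : ℝ)) :=
  ⟨measurable_const, ⟨0, fun x => by simp⟩, 0, fun x _ => rfl⟩

lemma nice_sum {κ : Type} (K : Finset κ) {F : κ → ℝ → ℝ} (hF : ∀ k ∈ K, Nice (F k)) :
    Nice (fun x => ∑ k ∈ K, F k x) := by
  induction K using Finset.induction_on with
  | empty => simpa using nice_zero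
  | insert a s ha ih =>
    simp_rw [sum_insert ha]
    exact nice_add (hF a (mem_insert_self a s)) (ih (fun k hk => hF k (mem_insert_of_mem hk)))

lemma nice_shift {F : ℝ → ℝ} (hF : Nice F) (t : ℝ) : Nice (fun x => F (x - t)) := by
  obtain ⟨hm, ⟨C, hC⟩, M, hM⟩ := hF
  refine ⟨hm.comp (measurable_id.sub_const t), ⟨C, fun x => hC _⟩, M + |t|, fun x hx => ?_⟩
  apply hM
  have := abs_sub_abs_le_abs_sub x t
  linarith

lemma nice_st (h : S_st) (v : ℝ) : Nice (st v) :=
  ⟨h.1 v, ⟨1, fun x => h.2.1 v x⟩, |v|, fun x hx => h.2.2.1 v x hx⟩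

lemma st_zero (v : ℝ) : st 0 v = 0 := by simp [st]

lemma integral_abs_st (h : S_st) (v : ℝ) : ∫ x, |st v x| = |v| := by
  have := h.2.2.2.2.1 v 0
  simpa [st_zero] using this

/-- the correction -/
def rr (v x : ℝ) : ℝ := -(st v x + st (-v) x)

lemma abs_rr_le (v x : ℝ) : |rr v x| ≤ 1 := by
  unfold rr st ind
  split_ifs <;> first | (norm_num; done) | (exfalso; linarith)

lemma nice_rr (h : S_st) (v : ℝ) : Nice (rr v) := by
  have h1 := nice_cmul (-1) (nice_add (nice_st h v) (nice_st h (-v)))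
  have h2 : rr v = fun x => -1 * (st v x + st (-v) x) := by
    funext x; unfold rr; ring
  rw [h2]; exact h1

lemma nice_abs {F : ℝ → ℝ} (hF : Nice F) : Nice (fun x => |F x|) := by
  obtain ⟨hm, ⟨C, hC⟩, M, hM⟩ := hF
  refine ⟨by simpa using hm.norm, ⟨C, fun x => by simpa using hC x⟩, M, fun x hx => ?_⟩
  show |F x| = 0
  rw [hM x hx, abs_zero]

lemma integral_abs_rr (h : S_st) (v : ℝ) : ∫ x, |rr v x| ≤ 2 * |v| := by
  calc ∫ x, |rr v x| ≤ ∫ x, (|st v x| + |st (-v) x|) := by
        refine integral_mono (nice_integrable (nice_abs (nice_rr h v)))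
          ((nice_integrable (nice_abs (nice_st h v))).add
            (nice_integrable (nice_abs (nice_st h (-v))))) (fun x => ?_)
        simp only [rr, abs_neg]
        exact abs_add_le _ _
    _ = |v| + |(-v)| := by
        rw [integral_add (nice_integrable (nice_abs (nice_st h v)))
            (nice_integrable (nice_abs (nice_st h (-v)))), integral_abs_st h, integral_abs_st h]
    _ = 2 * |v| := by rw [abs_neg]; ring

/-- the increment -/
lemma incr {κ : Type} [DecidableEq κ] (w : κ → ℝ) (N : Finset κ) (y : κ) (x : ℝ) :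
    ind (∑ z ∈ insert y N, w z ≤ x) - ind (∑ z ∈ N.erase y, w z ≤ x)
      = st (w y) (x - ∑ z ∈ N, w z) + ind (y ∈ N) * rr (w y) (x - ∑ z ∈ N, w z) := by
  by_cases hy : y ∈ N
  · rw [insert_eq_of_mem hy, ind_of hy]
    have h1 : ∑ z ∈ N.erase y, w z = ∑ z ∈ N, w z - w y := by
      rw [← Finset.sum_erase_add _ _ hy]; ring
    have e1 : ind (w y ≤ x - ∑ z ∈ N, w z) = ind (w y ≤ x - ∑ z ∈ N, w z) := rfl
    have e2 : ind (-w y ≤ x - ∑ z ∈ N, w z) = ind (∑ z ∈ N.erase y, w z ≤ x) := by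
      rw [h1]; exact ind_congr ⟨fun h => by linarith, fun h => by linarith⟩
    have e3 : ind (0 ≤ x - ∑ z ∈ N, w z) = ind (∑ z ∈ N, w z ≤ x) :=
      ind_congr ⟨fun h => by linarith, fun h => by linarith⟩
    unfold rr st
    rw [e2, e3]; ring
  · rw [sum_insert hy, erase_eq_of_notMem hy, ind_not hy, zero_mul, add_zero]
    unfold st
    have e2 : ind (w y ≤ x - ∑ z ∈ N, w z) = ind (w y + ∑ z ∈ N, w z ≤ x) :=
      ind_congr ⟨fun h => by linarith, fun h => by linarith⟩
    have e3 : ind (0 ≤ x - ∑ z ∈ N, w z) = ind (∑ z ∈ N, w z ≤ x) :=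
      ind_congr ⟨fun h => by linarith, fun h => by linarith⟩
    rw [e2, e3]

end DER

open DER

theorem m_der (h : S_st) : S_der := by
  intro κ _ T p w s c m hp0 hp1 hw hs hc hm
  have hm0 : 0 ≤ m := (sum_nonneg hp0).trans hm
  set Ψ : ℝ → ℝ := fun v => ∑ y ∈ T, s y * st (w y) v with hΨ
  set G : ℝ → ℝ := fun x => EE p T (fun N => Ψ (x - ∑ z ∈ N, w z)) with hG
  set R : ℝ → ℝ := fun x => ∑ y ∈ T, s y * EE p T (fun N =>
    ind (y ∈ N) * rr (w y) (x - ∑ z ∈ N, w z)) with hR
  have hΨn : Nice Ψ := nice_sum T (fun y _ => nice_cmul _ (nice_st h _))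
  have hΨ2 : Nice (fun v => Ψ v * Ψ v) := nice_mul hΨn hΨn
  -- decomposition
  have hdec : ∀ x, (∑ y ∈ T, s y * EE p T (fun N => ind (∑ z ∈ insert y N, w z ≤ x)
      - ind (∑ z ∈ N.erase y, w z ≤ x))) = G x + R x := by
    intro x
    simp only [hG, hR, hΨ]
    rw [EE_sum, ← sum_add_distrib]
    refine sum_congr rfl (fun y _ => ?_)
    rw [EE_mul, ← mul_add, ← EE_add]
    congr 1
    exact EE_congr (fun N _ => incr w N y x)
  have hGn : Nice G := by
    simp only [hG]
    unfold EE
    exact nice_sum _ (fun A _ => nice_cmul _ (nice_shift hΨn _))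
  have hRn : Nice R := by
    simp only [hR]
    unfold EE
    exact nice_sum _ (fun y _ => nice_cmul _ (nice_sum _ (fun A _ => nice_cmul _
      (nice_cmul _ (nice_shift (nice_rr h _) _)))))
  have hG2 : ∫ x, G x ^ 2 ≤ ∫ v, Ψ v ^ 2 := by
    calc ∫ x, G x ^ 2 ≤ ∫ x, EE p T (fun N => Ψ (x - ∑ z ∈ N, w z) ^ 2) := by
          refine integral_mono ?_ ?_ (fun x => ?_)
          · simp_rw [sq]; exact nice_integrable (nice_mul hGn hGn)
          · refine integrable_EE (fun A => ?_)
            simp_rw [sq]; exact nice_integrable (nice_shift hΨ2 _)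
          · exact EE_sq_le hp0 hp1 _
      _ = EE p T (fun N => ∫ x, Ψ (x - ∑ z ∈ N, w z) ^ 2) := by
          refine integral_EE (fun A => ?_)
          simp_rw [sq]; exact nice_integrable (nice_shift hΨ2 _)
      _ = EE p T (fun _ => ∫ v, Ψ v ^ 2) := by
          refine EE_congr (fun N _ => ?_)
          exact integral_sub_right_eq_self (fun v => Ψ v ^ 2) _
      _ = ∫ v, Ψ v ^ 2 := EE_const _ _ _
  have hRabs : ∀ x, |R x| ≤ ∑ y ∈ T, EE p T (fun N =>
      ind (y ∈ N) * |rr (w y) (x - ∑ z ∈ N, w z)|) := by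
    intro x
    refine (abs_sum_le_sum_abs _ _).trans (sum_le_sum (fun y hy => ?_))
    rw [abs_mul]
    calc |s y| * |EE p T (fun N => ind (y ∈ N) * rr (w y) (x - ∑ z ∈ N, w z))|
        ≤ 1 * EE p T (fun N => |ind (y ∈ N) * rr (w y) (x - ∑ z ∈ N, w z)|) :=
          mul_le_mul (hs y hy) (abs_EE_le hp0 hp1 _) (abs_nonneg _) zero_le_one
      _ = _ := by
          rw [one_mul]
          refine EE_congr (fun N _ => ?_)
          rw [abs_mul, abs_of_nonneg (ind_nonneg _)]
  have hRle : ∀ x, |R x| ≤ m := by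
    intro x
    refine (hRabs x).trans (le_trans ?_ hm)
    refine sum_le_sum (fun y hy => ?_)
    rw [← ind_mem_eq (p := p) hy]
    refine EE_mono hp0 hp1 (fun N _ => ?_)
    exact mul_le_of_le_one_right (ind_nonneg _) (abs_rr_le _ _)
  have hRint : ∫ x, |R x| ≤ 2 * c * m := by
    have hi : ∀ (y : κ) (A : Finset κ),
        Integrable (fun x => ind (y ∈ A) * |rr (w y) (x - ∑ z ∈ A, w z)|) := fun y A =>
      (nice_integrable (nice_abs (nice_shift (nice_rr h _) _))).const_mul _
    calc ∫ x, |R x| ≤ ∫ x, ∑ y ∈ T, EE p T (fun N =>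
          ind (y ∈ N) * |rr (w y) (x - ∑ z ∈ N, w z)|) := by
          refine integral_mono (nice_integrable (nice_abs hRn)) ?_ hRabs
          exact integrable_finsetSum _ (fun y _ => integrable_EE (hi y))
      _ = ∑ y ∈ T, EE p T (fun N => ∫ x, ind (y ∈ N) * |rr (w y) (x - ∑ z ∈ N, w z)|) := by
          rw [integral_finsetSum _ (fun y _ => integrable_EE (hi y))]
          exact sum_congr rfl (fun y _ => integral_EE (hi y))
      _ ≤ ∑ y ∈ T, 2 * c * p y := by
          refine sum_le_sum (fun y hy => ?_)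
          rw [← ind_mem_eq (p := p) hy, ← EE_mul]
          refine EE_mono hp0 hp1 (fun N _ => ?_)
          rw [integral_const_mul, integral_sub_right_eq_self (fun v => |rr (w y) v|),
            mul_comm]
          refine mul_le_mul_of_nonneg_right ?_ (ind_nonneg _)
          have := integral_abs_rr h (w y)
          have := hw y hy
          linarith
      _ = 2 * c * ∑ y ∈ T, p y := by rw [mul_sum]
      _ ≤ 2 * c * m := mul_le_mul_of_nonneg_left hm (by linarith)
  have hR2 : ∫ x, R x ^ 2 ≤ 2 * c * m ^ 2 := by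
    calc ∫ x, R x ^ 2 ≤ ∫ x, m * |R x| := by
          refine integral_mono ?_ ((nice_integrable (nice_abs hRn)).const_mul _) (fun x => ?_)
          · simp_rw [sq]; exact nice_integrable (nice_mul hRn hRn)
          · show R x ^ 2 ≤ m * |R x|
            rw [← sq_abs, sq]
            exact mul_le_mul_of_nonneg_right (hRle x) (abs_nonneg _)
      _ = m * ∫ x, |R x| := integral_const_mul _ _
      _ ≤ m * (2 * c * m) := mul_le_mul_of_nonneg_left hRint hm0
      _ = 2 * c * m ^ 2 := by ring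
  calc ∫ x, (∑ y ∈ T, s y * EE p T (fun N => ind (∑ z ∈ insert y N, w z ≤ x)
      - ind (∑ z ∈ N.erase y, w z ≤ x))) ^ 2
      = ∫ x, (G x + R x) ^ 2 := by simp_rw [hdec]
    _ ≤ ∫ x, (2 * G x ^ 2 + 2 * R x ^ 2) := by
        have hGi : Integrable (fun x => G x ^ 2) := by
          simp_rw [sq]; exact nice_integrable (nice_mul hGn hGn)
        have hRi : Integrable (fun x => R x ^ 2) := by
          simp_rw [sq]; exact nice_integrable (nice_mul hRn hRn)
        refine integral_mono ?_ ((hGi.const_mul 2).add (hRi.const_mul 2)) (fun x => ?_)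
        · simp_rw [sq]
          exact nice_integrable (nice_mul (nice_add hGn hRn) (nice_add hGn hRn))
        · show (G x + R x) ^ 2 ≤ 2 * G x ^ 2 + 2 * R x ^ 2
          nlinarith [sq_nonneg (G x - R x)]
    _ = 2 * (∫ x, G x ^ 2) + 2 * ∫ x, R x ^ 2 := by
        have hGi : Integrable (fun x => G x ^ 2) := by
          simp_rw [sq]; exact nice_integrable (nice_mul hGn hGn)
        have hRi : Integrable (fun x => R x ^ 2) := by
          simp_rw [sq]; exact nice_integrable (nice_mul hRn hRn)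
        rw [integral_add (hGi.const_mul 2) (hRi.const_mul 2), integral_const_mul,
          integral_const_mul]
    _ ≤ 2 * (∫ v, Ψ v ^ 2) + 4 * c * m ^ 2 := by linarith

end

end Pool.Agent.Helper72.BPA
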