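import Pool.Agent.Helper72.BPA.St

/-!
# Part A: energy of a finite signed measure of total mass zero
-/

set_option autoImplicit false

namespace Pool.Agent.Helper72.BPA

open Finset MeasureTheory Pool.Agent.Helper87.BP Pool.Agent.Helper42.BPX

noncomputable section

open Classical

namespace EnergyAux

lemma ind_mul_ind (x y v : ℝ) : ind (x ≤ v) * ind (y ≤ v) = ind (max x y ≤ v) := by
  rw [← ind_and]
  exact ind_congr (by simp [max_le_iff])

lemma ind_eq_indicator (x : ℝ) :
    (fun v : ℝ => ind (x ≤ v)) = (Set.Ici x).indicator (fun _ => (1 : ℝ)) := by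
  funext v
  by_cases h : x ≤ v
  · rw [ind_of h, Set.indicator_of_mem (by simpa using h)]
  · rw [ind_not h, Set.indicator_of_notMem (by simpa using h)]

lemma int_ind (x M : ℝ) (h1 : -M ≤ x) (h2 : x ≤ M) :
    ∫ v in Set.Icc (-M) M, ind (x ≤ v) = M - x := by
  rw [ind_eq_indicator, setIntegral_indicator measurableSet_Ici]
  have hs : Set.Icc (-M) M ∩ Set.Ici x = Set.Icc x M := by
    ext v
    simp only [Set.mem_inter_iff, Set.mem_Icc, Set.mem_Ici]
    constructor
    · rintro ⟨⟨_, h⟩, h'⟩; exact ⟨h', h⟩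
    · rintro ⟨h, h'⟩; exact ⟨⟨by linarith, h'⟩, h⟩
  rw [hs]
  simp [h2]

lemma intOn_ind (x M : ℝ) : IntegrableOn (fun v : ℝ => ind (x ≤ v)) (Set.Icc (-M) M) := by
  rw [ind_eq_indicator]
  refine Integrable.indicator ?_ measurableSet_Ici
  exact integrableOn_const (by simp)

end EnergyAux

open EnergyAux in
theorem m_energy : S_energy := by
  intro κ K α s h0
  obtain ⟨M, hM⟩ : ∃ M, ∀ k ∈ K, |s k| ≤ M := by
    refine ⟨∑ k ∈ K, |s k|, fun k hk => ?_⟩
    exact Finset.single_le_sum (f := fun k => |s k|) (fun i _ => abs_nonneg _) hk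
  have hz : ∀ v, v ∉ Set.Icc (-M) M → (∑ k ∈ K, α k * ind (s k ≤ v)) ^ 2 = 0 := by
    intro v hv
    have hv' : v < -M ∨ M < v := by
      by_contra hc
      push Not at hc
      exact hv ⟨hc.1, hc.2⟩
    have : ∑ k ∈ K, α k * ind (s k ≤ v) = 0 := by
      rcases hv' with h | h
      · refine Finset.sum_eq_zero fun k hk => ?_
        have := (abs_le.1 (hM k hk)).1
        rw [ind_not (by linarith), mul_zero]
      · rw [← h0]
        refine Finset.sum_congr rfl fun k hk => ?_
        have := (abs_le.1 (hM k hk)).2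
        rw [ind_of (by linarith), mul_one]
    rw [this]; ring
  rw [← setIntegral_eq_integral_of_forall_compl_eq_zero hz]
  have he : ∀ v, (∑ k ∈ K, α k * ind (s k ≤ v)) ^ 2
      = ∑ k ∈ K, ∑ l ∈ K, α k * α l * ind (max (s k) (s l) ≤ v) := by
    intro v
    rw [sq, Finset.sum_mul_sum]
    refine Finset.sum_congr rfl fun k _ => Finset.sum_congr rfl fun l _ => ?_
    rw [← ind_mul_ind]; ring
  simp_rw [he]
  rw [integral_finset_sum _ (fun k _ => integrable_finset_sum _ (fun l _ =>
    (intOn_ind _ M).const_mul _))]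
  have h1 : ∀ k ∈ K, ∫ v in Set.Icc (-M) M, ∑ l ∈ K, α k * α l * ind (max (s k) (s l) ≤ v)
      = ∑ l ∈ K, α k * α l * (M - max (s k) (s l)) := by
    intro k hk
    rw [integral_finset_sum _ (fun l _ => (intOn_ind _ M).const_mul _)]
    refine Finset.sum_congr rfl fun l hl => ?_
    rw [integral_const_mul, int_ind]
    · exact le_trans (abs_le.1 (hM k hk)).1 (le_max_left _ _)
    · exact max_le (abs_le.1 (hM k hk)).2 (abs_le.1 (hM l hl)).2
  rw [Finset.sum_congr rfl h1]
  have h2 : ∀ k ∈ K, ∑ l ∈ K, α k * α l * (M - max (s k) (s l))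
      = -(1 / 2) * (∑ l ∈ K, α k * α l * |s k - s l|) - (1 / 2) * (α k * s k * ∑ l ∈ K, α l)
        - (1 / 2) * (α k * ∑ l ∈ K, α l * s l) + M * α k * ∑ l ∈ K, α l := by
    intro k _
    simp only [Finset.mul_sum, ← Finset.sum_sub_distrib, ← Finset.sum_add_distrib]
    refine Finset.sum_congr rfl fun l _ => ?_
    have hm : max (s k) (s l) = (s k + s l + |s k - s l|) / 2 := by
      rw [max_def]
      split_ifs with h
      · rw [abs_of_nonpos (by linarith)]; ring
      · rw [abs_of_nonneg (by linarith)]; ring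
    rw [hm]; ring
  rw [Finset.sum_congr rfl h2]
  simp only [h0, mul_zero, add_zero, sub_zero, Finset.sum_sub_distrib, ← Finset.mul_sum,
    ← Finset.sum_mul, zero_mul]

end

end Pool.Agent.Helper72.BPA
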