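import Pool.Agent.Helper72.BPA.St

/-!
# Part A: the field and its self-avoiding version
-/

set_option autoImplicit false

namespace Pool.Agent.Helper72.BPA

open Finset MeasureTheory Pool.Agent.Helper87.BP Pool.Agent.Helper42.BPX

noncomputable section

open Classical

private lemma field_eq' {n : ℕ} (f : ℝ → ℝ) (A : Finset (Sym2 (Fin n))) (h0 : Fin n → Fin n → ℝ)
    (t : ℕ) (x : Fin n) : field f (Adj A) h0 t x =
      ∑ y ∈ univ.erase x, ind (Adj A y x) * f (msg f (Adj A) h0 t y x) := by
  rw [field_eq]
  have e : nb A x = (univ.erase x).filter (fun y => Adj A y x) := by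
    ext y
    simp only [mem_nb, mem_filter, mem_erase, mem_univ, and_true]
    rw [adj_comm]
    exact ⟨fun h => ⟨h.1, h⟩, fun h => h.2⟩
  rw [e, sum_filter]
  refine sum_congr rfl fun y _ => ?_
  by_cases h : Adj A y x
  · rw [if_pos h, ind_of h, one_mul]
  · rw [if_neg h, ind_not h, zero_mul]

theorem m_fld (hz : S_zmsg) (hi : S_zind) (he : S_zee) : S_fld := by
  intro n p q m c θ f h0 hp0 hpq hq1 hnq hθm hf t x
  have hq0 : 0 ≤ q := (hp0 s(x, x)).trans (hpq _)
  have h1 : ∀ e ∈ prs n, p e ≤ 1 := fun e _ => (hpq e).trans hq1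
  have h0' : ∀ e ∈ prs n, 0 ≤ p e := fun e _ => hp0 e
  cases t with
  | zero =>
    have : ∀ A ⊆ prs n, |field f (Adj A) h0 0 x
        - sw f (fun y x => f (h0 y x)) A 0 (univ.erase x) x| = (fun _ => (0 : ℝ)) A := by
      intro A _
      rw [field_eq']
      have : sw f (fun y x => f (h0 y x)) A 0 (univ.erase x) x
          = ∑ y ∈ univ.erase x, ind (Adj A y x) * f (h0 y x) := rfl
      rw [this]
      simp [msg]
    rw [EE_congr this, EE_const]
    simp
  | succ s =>
    have hbd : ∀ A ⊆ prs n, |field f (Adj A) h0 (s + 1) x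
        - sw f (fun y x => f (h0 y x)) A (s + 1) (univ.erase x) x| ≤
          ∑ y ∈ univ.erase x, θ * (ind (s(y, x) ∈ A) * zc c θ A s {x} x y) := by
      intro A _
      rw [field_eq']
      have : sw f (fun y x => f (h0 y x)) A (s + 1) (univ.erase x) x
          = ∑ y ∈ univ.erase x, ind (Adj A y x) *
            f (sw f (fun y x => f (h0 y x)) A s ((univ.erase x).erase y) y) := rfl
      rw [this, ← sum_sub_distrib]
      refine (abs_sum_le_sum_abs _ _).trans (sum_le_sum fun y hy => ?_)
      have hyx : y ≠ x := (mem_erase.1 hy).1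
      have hS : (univ.erase x).erase y = univ \ insert y {x} := by
        ext z
        simp only [mem_erase, mem_univ, mem_sdiff, mem_insert, mem_singleton]
        tauto
      have hind : ind (Adj A y x) = ind (s(y, x) ∈ A) :=
        ind_congr ⟨fun h => h.2, fun h => ⟨hyx, h⟩⟩
      rw [← mul_sub, abs_mul, abs_of_nonneg (ind_nonneg _), hind]
      have h2 := hf.lip (msg f (Adj A) h0 (s + 1) y x)
        (sw f (fun y x => f (h0 y x)) A s ((univ.erase x).erase y) y)
      have h3 := hz n c θ f h0 A hf s {x} x y (mem_singleton_self x)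
        (fun h => hyx (mem_singleton.1 h))
      rw [← hS] at h3
      have h4 := h2.trans (mul_le_mul_of_nonneg_left h3 hf.th)
      calc _ ≤ ind (s(y, x) ∈ A) * (θ * zc c θ A s {x} x y) :=
            mul_le_mul_of_nonneg_left h4 (ind_nonneg _)
        _ = _ := by ring
    refine (EE_mono h0' h1 hbd).trans ?_
    rw [EE_sum]
    have hterm : ∀ y ∈ univ.erase x,
        EE p (prs n) (fun A => θ * (ind (s(y, x) ∈ A) * zc c θ A s {x} x y)) ≤
          θ * (q * (2 * c * q * (1 + s) * (θ * m) ^ s)) := by
      intro y hy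
      have hyx : y ≠ x := (mem_erase.1 hy).1
      have hyU : y ∉ ({x} : Finset (Fin n)) := fun h => hyx (mem_singleton.1 h)
      rw [EE_mul]
      refine mul_le_mul_of_nonneg_left ?_ hf.th
      rw [EE_ind_mul (mem_prs.2 hyx)]
      · have h5 := he n p q m c θ hp0 hpq hq1 hnq hθm hf.c0 hf.th s {x} x y
          (mem_singleton_self x) hyU
        rw [card_singleton, Nat.cast_one] at h5
        have h6 : 0 ≤ 2 * c * q * (1 + s) * (θ * m) ^ s := by
          have := hf.c0
          have h7 : 0 ≤ θ * m := by linarith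
          positivity
        exact (mul_le_mul_of_nonneg_left h5 (hp0 _)).trans
          (mul_le_mul_of_nonneg_right (hpq _) h6)
      · intro A _
        have e1 : (insert s(y, x) A) \ {s(y, x)} = A.erase s(y, x) := by
          ext z
          simp only [mem_sdiff, mem_insert, mem_singleton, mem_erase]
          tauto
        have h8 := hi n c θ (insert s(y, x) A) {s(y, x)} s {x} x y (mem_singleton_self x) hyU
          (fun e he' => Or.inr (mem_singleton.1 he'))
        rw [← h8, e1]
    refine (sum_le_sum hterm).trans ?_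
    rw [sum_const, card_erase_of_mem (mem_univ x), card_univ, Fintype.card_fin, nsmul_eq_mul]
    have hn : ((n - 1 : ℕ) : ℝ) ≤ n := by exact_mod_cast Nat.sub_le n 1
    have hc0 := hf.c0
    have hth := hf.th
    have h7 : 0 ≤ θ * m := by linarith
    have h9 : 0 ≤ θ * (q * (2 * c * q * (1 + s) * (θ * m) ^ s)) := by positivity
    have h10 : 0 ≤ θ * (2 * c * q * (1 + s) * (θ * m) ^ s) := by positivity
    calc ((n - 1 : ℕ) : ℝ) * (θ * (q * (2 * c * q * (1 + s) * (θ * m) ^ s)))
        ≤ n * (θ * (q * (2 * c * q * (1 + s) * (θ * m) ^ s))) :=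
          mul_le_mul_of_nonneg_right hn h9
      _ = (n * q) * (θ * (2 * c * q * (1 + s) * (θ * m) ^ s)) := by ring
      _ ≤ m * (θ * (2 * c * q * (1 + s) * (θ * m) ^ s)) :=
          mul_le_mul_of_nonneg_right hnq h10
      _ = 2 * c * q * ((s + 1 : ℕ) : ℝ) * (θ * m) ^ (s + 1) := by
          push_cast
          ring

end

end Pool.Agent.Helper72.BPA
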