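import Pool.Agent.Helper72.BPA.St

/-!
# Module INF: influence of one vertex
-/

set_option autoImplicit false

namespace Pool.Agent.Helper72.BPA

open Finset MeasureTheory Pool.Agent.Helper87.BP Pool.Agent.Helper42.BPX

noncomputable section

open Classical

lemma inf_ind {n : ℕ} {y x : Fin n} (h : y ≠ x) (A : Finset (Sym2 (Fin n))) :
    ind (Adj A y x) = ind (s(y, x) ∈ A) :=
  ind_congr ⟨fun h' => h'.2, fun h' => ⟨h, h'⟩⟩

/-- expectation of the indicator of one edge -/
lemma inf_EE_ind {n : ℕ} (p : Sym2 (Fin n) → ℝ) {y x : Fin n} (h : y ≠ x) :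
    EE p (prs n) (fun A => ind (Adj A y x)) = p s(y, x) := by
  have h1 := EE_ind_mul (p := p) (mem_prs.2 h) (F := fun _ => (1 : ℝ)) (fun _ _ => rfl)
  rw [EE_const, mul_one] at h1
  rw [← h1]
  exact EE_congr fun A _ => by rw [inf_ind h, mul_one]

/-- the step of the induction -/
lemma inf_step {n : ℕ} (hw : S_swInter) {c θ : ℝ} {f : ℝ → ℝ} (g : Fin n → Fin n → ℝ)
    (p : Sym2 (Fin n) → ℝ) (s : ℕ) (S : Finset (Fin n)) (x j y : Fin n) (hx : x ∉ S)
    (hy : y ∈ S) (_hf : FF c θ f) :
    EE p (prs n) (fun A => ind (Adj A y x)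
        * |sw f g A s (S.erase y) y - sw f g A s ((S.erase y).erase j) y|)
      = p s(y, x) * EE p (prs n) (fun A =>
        |sw f g A s (S.erase y) y - sw f g A s ((S.erase y).erase j) y|) := by
  have hyx : y ≠ x := fun h => hx (h ▸ hy)
  have he : s(y, x) ∉ prsIn S := by
    intro h
    rw [prsIn, mem_filter] at h
    exact hx (h.2 x (by simp))
  have hF : ∀ A : Finset (Sym2 (Fin n)),
      |sw f g (A ∩ prsIn S) s (S.erase y) y - sw f g (A ∩ prsIn S) s ((S.erase y).erase j) y|
        = |sw f g A s (S.erase y) y - sw f g A s ((S.erase y).erase j) y| := by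
    intro A
    rw [hw n f g A s (S.erase y) S y (by rw [insert_erase hy]),
      hw n f g A s ((S.erase y).erase j) S y (by
        intro z hz
        rw [mem_insert, mem_erase, mem_erase] at hz
        rcases hz with rfl | hz
        · exact hy
        · exact hz.2.2)]
  have h1 := EE_ind_mul (p := p) (mem_prs.2 hyx)
    (F := fun A => |sw f g A s (S.erase y) y - sw f g A s ((S.erase y).erase j) y|)
    (fun A _ => by
      show |sw f g (insert s(y, x) A) s (S.erase y) y
          - sw f g (insert s(y, x) A) s ((S.erase y).erase j) y|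
        = |sw f g (A.erase s(y, x)) s (S.erase y) y
          - sw f g (A.erase s(y, x)) s ((S.erase y).erase j) y|
      rw [← hF (insert s(y, x) A), ← hF (A.erase s(y, x))]
      have : insert s(y, x) A ∩ prsIn S = A.erase s(y, x) ∩ prsIn S := by
        ext e
        simp only [mem_inter, mem_insert, mem_erase]
        constructor
        · rintro ⟨h | h, h'⟩
          · exact absurd (h ▸ h') he
          · exact ⟨⟨fun h'' => he (h'' ▸ h'), h⟩, h'⟩
        · rintro ⟨⟨_, h⟩, h'⟩
          exact ⟨Or.inr h, h'⟩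
      rw [this])
  rw [← h1]
  exact EE_congr fun A _ => by rw [inf_ind hyx]

lemma inf_diff {n : ℕ} {c θ : ℝ} {f : ℝ → ℝ} (hf : FF c θ f) (g : Fin n → Fin n → ℝ)
    (A : Finset (Sym2 (Fin n))) (s : ℕ) (S : Finset (Fin n)) (x j : Fin n) (hj : j ∈ S) :
    |sw f g A (s + 1) S x - sw f g A (s + 1) (S.erase j) x|
      ≤ c * ind (Adj A j x) + ∑ y ∈ S.erase j, θ * (ind (Adj A y x)
        * |sw f g A s (S.erase y) y - sw f g A s ((S.erase y).erase j) y|) := by
  have e1 : sw f g A (s + 1) S x
      = ∑ y ∈ S, ind (Adj A y x) * f (sw f g A s (S.erase y) y) := rfl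
  have e2 : sw f g A (s + 1) (S.erase j) x
      = ∑ y ∈ S.erase j, ind (Adj A y x) * f (sw f g A s ((S.erase j).erase y) y) := rfl
  have e3 : sw f g A (s + 1) S x - sw f g A (s + 1) (S.erase j) x
      = ind (Adj A j x) * f (sw f g A s (S.erase j) j)
        + ∑ y ∈ S.erase j, ind (Adj A y x) * (f (sw f g A s (S.erase y) y)
          - f (sw f g A s ((S.erase y).erase j) y)) := by
    rw [e1, e2, ← Finset.add_sum_erase S _ hj, add_sub_assoc, ← Finset.sum_sub_distrib]
    congr 1
    refine Finset.sum_congr rfl fun y _ => ?_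
    rw [erase_right_comm (a := y) (b := j), mul_sub]
  rw [e3]
  refine (abs_add_le _ _).trans (add_le_add ?_ ?_)
  · rw [abs_mul, abs_of_nonneg (ind_nonneg _), mul_comm]
    exact mul_le_mul_of_nonneg_right (hf.bd _) (ind_nonneg _)
  · refine (Finset.abs_sum_le_sum_abs _ _).trans (Finset.sum_le_sum fun y _ => ?_)
    rw [abs_mul, abs_of_nonneg (ind_nonneg _)]
    have h := mul_le_mul_of_nonneg_left (hf.lip (sw f g A s (S.erase y) y)
      (sw f g A s ((S.erase y).erase j) y)) (ind_nonneg (Adj A y x))
    linarith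

theorem m_inf (hw : S_swInter) : S_inf := by
  intro n p q m c θ f g hp0 hpq hq1 hnq h2 hf hg
  have hp1 : ∀ e, p e ≤ 1 := fun e => (hpq e).trans hq1
  have key : ∀ (s : ℕ) (S : Finset (Fin n)) (x j : Fin n), x ∉ S →
      EE p (prs n) (fun A => |sw f g A s S x - sw f g A s (S.erase j) x|)
        ≤ c * q * (2 * (θ * m) ^ s - 1) := by
    intro s
    induction s with
    | zero =>
      intro S x j hx
      have hq : 0 ≤ q := (hp0 s(x, x)).trans (hpq _)
      by_cases hj : j ∈ S
      · have hjx : j ≠ x := fun h => hx (h ▸ hj)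
        have e : ∀ A ⊆ prs n, |sw f g A 0 S x - sw f g A 0 (S.erase j) x|
            ≤ c * ind (Adj A j x) := by
          intro A _
          have e1 : sw f g A 0 S x = ∑ y ∈ S, ind (Adj A y x) * g y x := rfl
          have e2 : sw f g A 0 (S.erase j) x
              = ∑ y ∈ S.erase j, ind (Adj A y x) * g y x := rfl
          rw [e1, e2, ← Finset.add_sum_erase S _ hj, add_sub_cancel_right, abs_mul,
            abs_of_nonneg (ind_nonneg _), mul_comm]
          exact mul_le_mul_of_nonneg_right (hg _ _) (ind_nonneg _)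
        refine (EE_mono (fun e _ => hp0 e) (fun e _ => hp1 e) e).trans ?_
        rw [EE_mul, inf_EE_ind p hjx]
        have := mul_le_mul_of_nonneg_left (hpq s(j, x)) hf.c0
        rw [pow_zero]
        linarith
      · rw [erase_eq_of_notMem hj]
        simp only [sub_self, abs_zero]
        rw [EE_const, pow_zero]
        have := mul_nonneg hf.c0 hq
        linarith
    | succ s ih =>
      intro S x j hx
      have hq : 0 ≤ q := (hp0 s(x, x)).trans (hpq _)
      have hcq : 0 ≤ c * q := mul_nonneg hf.c0 hq
      have hth : 1 ≤ (θ * m) ^ s := one_le_pow₀ (by linarith)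
      have hE0 : 0 ≤ c * q * (2 * (θ * m) ^ s - 1) := mul_nonneg hcq (by linarith)
      by_cases hj : j ∈ S
      · have hjx : j ≠ x := fun h => hx (h ▸ hj)
        refine (EE_mono (fun e _ => hp0 e) (fun e _ => hp1 e)
          (fun A _ => inf_diff hf g A s S x j hj)).trans ?_
        rw [EE_add, EE_mul, inf_EE_ind p hjx, EE_sum]
        have h1 : ∀ y ∈ S.erase j, EE p (prs n) (fun A => θ * (ind (Adj A y x)
            * |sw f g A s (S.erase y) y - sw f g A s ((S.erase y).erase j) y|))
            ≤ θ * (q * (c * q * (2 * (θ * m) ^ s - 1))) := by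
          intro y hy
          have hyS : y ∈ S := mem_of_mem_erase hy
          rw [EE_mul, inf_step hw g p s S x j y hx hyS hf]
          refine mul_le_mul_of_nonneg_left ?_ hf.th
          have h3 := ih (S.erase y) y j (notMem_erase y S)
          have h4 : 0 ≤ EE p (prs n) (fun A =>
              |sw f g A s (S.erase y) y - sw f g A s ((S.erase y).erase j) y|) :=
            EE_nonneg (fun e _ => hp0 e) (fun e _ => hp1 e) fun A _ => abs_nonneg _
          exact mul_le_mul (hpq _) h3 h4 hq
        have h2' := Finset.sum_le_card_nsmul _ _ _ h1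
        have h5 : ((S.erase j).card : ℝ) ≤ n := by
          have := Finset.card_le_univ (S.erase j)
          rw [Fintype.card_fin] at this
          exact_mod_cast this
        rw [nsmul_eq_mul] at h2'
        have h6 : ((S.erase j).card : ℝ) * (θ * (q * (c * q * (2 * (θ * m) ^ s - 1))))
            ≤ (n : ℝ) * (θ * (q * (c * q * (2 * (θ * m) ^ s - 1)))) :=
          mul_le_mul_of_nonneg_right h5 (mul_nonneg hf.th (mul_nonneg hq hE0))
        have h7 : (n : ℝ) * (θ * (q * (c * q * (2 * (θ * m) ^ s - 1))))
            ≤ θ * m * (c * q * (2 * (θ * m) ^ s - 1)) := by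
          have h8 : (n : ℝ) * (θ * (q * (c * q * (2 * (θ * m) ^ s - 1))))
              = (n * q) * (θ * (c * q * (2 * (θ * m) ^ s - 1))) := by ring
          have h9 : θ * m * (c * q * (2 * (θ * m) ^ s - 1))
              = m * (θ * (c * q * (2 * (θ * m) ^ s - 1))) := by ring
          rw [h8, h9]
          exact mul_le_mul_of_nonneg_right hnq (mul_nonneg hf.th hE0)
        have h10 : c * p s(j, x) ≤ c * q := mul_le_mul_of_nonneg_left (hpq _) hf.c0
        have h11 : c * q + θ * m * (c * q * (2 * (θ * m) ^ s - 1))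
            ≤ c * q * (2 * (θ * m) ^ (s + 1) - 1) := by
          have h12 : c * q * (2 * (θ * m) ^ (s + 1) - 1)
              - (c * q + θ * m * (c * q * (2 * (θ * m) ^ s - 1)))
              = c * q * (θ * m - 2) := by ring
          have h13 := mul_nonneg hcq (by linarith : (0 : ℝ) ≤ θ * m - 2)
          linarith
        linarith
      · rw [erase_eq_of_notMem hj]
        simp only [sub_self, abs_zero]
        rw [EE_const]
        have hth' : 1 ≤ (θ * m) ^ (s + 1) := one_le_pow₀ (by linarith)
        exact mul_nonneg hcq (by linarith)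
  intro s S x j hx
  have hq : 0 ≤ q := (hp0 s(x, x)).trans (hpq _)
  have h := key s S x j hx
  have := mul_nonneg hf.c0 hq
  linarith

end

end Pool.Agent.Helper72.BPA
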