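import Pool.Agent.Helper72.BPA.St

set_option autoImplicit false

namespace Pool.Agent.Helper72.BPA

open Finset MeasureTheory Pool.Agent.Helper87.BP Pool.Agent.Helper42.BPX

theorem m_iter (h0 : S_step0) (h1 : S_step) : S_iter := by
  intro n a b m c θ f g hG hF h2 hA hg s
  have hn : (0 : ℝ) < n := by exact_mod_cast hG.pos
  have hθ := hF.th
  have hc := hF.c0
  set Λ : ℝ := θ * (a - b) ^ 2 / 2 with hΛ
  have hm0 : 0 ≤ m := hG.a0.trans hG.am
  have hΛ1 : 1 ≤ Λ := by linarith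
  have hcn : 0 ≤ c / n := div_nonneg hc hn.le
  have e1 : θ * (a - b) ^ 2 * m = 2 * Λ * m := by rw [hΛ]; ring
  have e2 : θ * ((a - b) / n) ^ 2 * m ^ 2 * c ≤ c / n * (2 * Λ * m) := by
    have : θ * ((a - b) / n) ^ 2 * m ^ 2 * c = c / n * (2 * Λ * m) * (m / n) := by
      rw [hΛ]; field_simp
    rw [this]
    have h3 : m / n ≤ 1 := by rw [div_le_one hn]; exact hG.mn
    have h4 : 0 ≤ c / n * (2 * Λ * m) := by positivity
    calc _ ≤ c / n * (2 * Λ * m) * 1 := mul_le_mul_of_nonneg_left h3 h4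
      _ = _ := mul_one _
  induction s with
  | zero =>
    intro S
    have := h0 n a b m c θ f g hG hF h2 hg S
    rw [← hΛ] at this
    have e3 : 4 * θ * c * (m / n) = c / n * (4 * (θ * m)) := by ring
    rw [e3] at this
    refine this.trans ?_
    rw [e1]
    simp only [Nat.cast_zero, zero_add, pow_one, mul_one]
    have h5 : c / n ≤ c / n * Λ := by nlinarith
    have h6 : c / n * (4 * (θ * m)) ≤ c / n * (4 * Λ) := by
      apply mul_le_mul_of_nonneg_left _ hcn; linarith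
    have h7 : c / n * (2 * Λ * m) ≤ c / n * (2 * Λ * m) * Λ := by
      have : 0 ≤ c / n * (2 * Λ * m) := by positivity
      nlinarith
    nlinarith
  | succ s ih =>
    intro S
    have := h1 n a b m c θ f g hG hF h2 hg s _ ih S
    rw [← hΛ] at this
    refine this.trans ?_
    rw [e1]
    have hp : 0 < Λ ^ (s + 1) := by positivity
    have hp1 : 1 ≤ Λ ^ (s + 1) := one_le_pow₀ hΛ1
    have e3 : 4 * θ * c * (m / n) * (θ * m) ^ (s + 1) = c / n * (4 * (θ * m) ^ (s + 2)) := by ring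
    rw [e3]
    have h8 : (θ * m) ^ (s + 2) ≤ Λ ^ (s + 2) := pow_le_pow_left₀ (by linarith) hA _
    have h9 : c / n * (4 * (θ * m) ^ (s + 2)) ≤ c / n * (4 * Λ ^ (s + 2)) := by
      apply mul_le_mul_of_nonneg_left _ hcn; linarith
    have hp2 : 1 ≤ Λ ^ (s + 2) := one_le_pow₀ hΛ1
    have h10 : c / n ≤ c / n * Λ ^ (s + 2) := le_mul_of_one_le_right hcn hp2
    have h11 : c / n * (2 * Λ * m) ≤ c / n * (2 * Λ * m) * Λ ^ (s + 2) :=
      le_mul_of_one_le_right (by positivity) hp2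
    have e4 : Λ * (c / n * (6 + 2 * Λ * m) * (s + 1) * Λ ^ (s + 1))
        = c / n * (6 + 2 * Λ * m) * (s + 1) * Λ ^ (s + 2) := by ring
    rw [e4]
    push_cast
    have e5 : c / n * (6 + 2 * Λ * m) * ((s : ℝ) + 1 + 1) * Λ ^ (s + 1 + 1)
        = c / n * (6 + 2 * Λ * m) * ((s : ℝ) + 1) * Λ ^ (s + 2)
          + c / n * Λ ^ (s + 2) + c / n * (4 * Λ ^ (s + 2)) + c / n * (2 * Λ * m) * Λ ^ (s + 2)
          + c / n * Λ ^ (s + 2) := by ring
    rw [e5]
    have : 0 ≤ c / n * Λ ^ (s + 2) := by positivity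
    linarith

end Pool.Agent.Helper72.BPA
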