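import Pool.Agent.Helper72.BPA.Base

set_option autoImplicit false

namespace Pool.Agent.Helper72.BPA

open Finset MeasureTheory Pool.Agent.Helper87.BP Pool.Agent.Helper42.BPX

namespace L2

lemma nice_EE {κ : Type*} [DecidableEq κ] (p : κ → ℝ) (T : Finset κ) {F : Finset κ → ℝ → ℝ}
    (hF : ∀ N, Nice (F N)) : Nice (fun x => EE p T (fun N => F N x)) := by
  unfold EE
  exact Nice.sum _ fun N _ => (hF N).const_mul _

lemma EE_integral {κ : Type*} [DecidableEq κ] (p : κ → ℝ) (T : Finset κ) {F : Finset κ → ℝ → ℝ}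
    (hF : ∀ N, Nice (F N)) :
    EE p T (fun N => ∫ x, F N x) = ∫ x, EE p T (fun N => F N x) := by
  unfold EE
  rw [integral_finsetSum _ fun N _ => ((hF N).const_mul _).integrable]
  exact Finset.sum_congr rfl fun N _ => (integral_const_mul _ _).symm

lemma nice_ind_sub (a b : ℝ) : Nice (fun x => ind (a ≤ x) - ind (b ≤ x)) := by
  have h := (nice_st a).sub (nice_st b)
  have e : (fun x => st a x - st b x) = fun x => ind (a ≤ x) - ind (b ≤ x) := by
    funext x
    unfold st
    ring
  rwa [e] at h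

end L2

open L2 in
/-- difference of the distribution functions of two random sums -/
theorem m_L2 (hr : S_russo) (hd : S_der) : S_L2 := by
  intro κ _ T p0 p1 w s c m δ h0 h0' h1 h1' hs hw hs1 hc hm0 hm1
  set S : Finset κ → ℝ := fun N => ∑ z ∈ N, w z with hS
  set g : ℝ → ℝ := fun x => EE p1 T (fun N => st (S N) x) - EE p0 T (fun N => st (S N) x) with hg
  have hgn : Nice g := (nice_EE p1 T fun N => nice_st (S N)).sub (nice_EE p0 T fun N => nice_st (S N))
  have hge : ∀ x, EE p1 T (fun N => ind (∑ z ∈ N, w z ≤ x)) - EE p0 T (fun N => ind (∑ z ∈ N, w z ≤ x))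
      = g x := by
    intro x
    rw [hg]
    simp only [st]
    rw [EE_sub, EE_sub, EE_const, EE_const]
    ring
  set B0 : ℝ := 2 * (∫ x, (∑ y ∈ T, s y * st (w y) x) ^ 2) + 4 * c * m ^ 2 with hB0
  set Fg : Finset κ → ℝ := fun N => ∫ x, st (S N) x * g x with hFg
  have hFgn : ∀ N, Nice (fun x => st (S N) x * g x) := fun N => (nice_st (S N)).mul hgn
  set J : ℝ → ℝ := fun τ => EE (fun y => p0 y + τ * (p1 y - p0 y)) T Fg with hJ
  -- the value
  have hJv : ∀ p : κ → ℝ, EE p T Fg = ∫ x, EE p T (fun N => st (S N) x) * g x := by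
    intro p
    rw [hFg, EE_integral p T hFgn]
    refine integral_congr_ae (Filter.Eventually.of_forall fun x => ?_)
    exact EE_mul_right p T (g x) fun N => st (S N) x
  have hJ1 : J 1 - J 0 = ∫ x, g x ^ 2 := by
    have e1 : J 1 = EE p1 T Fg := EE_congr_p (fun x _ => by ring) Fg
    have e0 : J 0 = EE p0 T Fg := EE_congr_p (fun x _ => by ring) Fg
    rw [e1, e0, hJv, hJv, ← integral_sub
      ((nice_EE p1 T fun N => nice_st (S N)).mul hgn).integrable
      ((nice_EE p0 T fun N => nice_st (S N)).mul hgn).integrable]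
    refine integral_congr_ae (Filter.Eventually.of_forall fun x => ?_)
    change _ = g x ^ 2
    rw [hg]
    ring
  -- the derivative
  have hder : ∀ τ, HasDerivAt J (∑ y ∈ T, (p1 y - p0 y) *
      EE (fun y => p0 y + τ * (p1 y - p0 y)) T (fun N => Fg (insert y N) - Fg (N.erase y))) τ :=
    fun τ => hr κ T p0 p1 Fg τ
  have hbd : ∀ τ, 0 ≤ τ → τ ≤ 1 → ∑ y ∈ T, (p1 y - p0 y) *
      EE (fun y => p0 y + τ * (p1 y - p0 y)) T (fun N => Fg (insert y N) - Fg (N.erase y)) ≤
      (δ ^ 2 * B0 + ∫ x, g x ^ 2) / 2 := by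
    intro τ ht0 ht1
    set p : κ → ℝ := fun y => p0 y + τ * (p1 y - p0 y) with hp
    have hpe : ∀ y, p y = (1 - τ) * p0 y + τ * p1 y := fun y => by rw [hp]; ring
    have hp0 : ∀ y ∈ T, 0 ≤ p y := fun y hy => by
      rw [hpe]
      have := mul_nonneg (sub_nonneg.2 ht1) (h0 y hy)
      have := mul_nonneg ht0 (h1 y hy)
      linarith
    have hp1 : ∀ y ∈ T, p y ≤ 1 := fun y hy => by
      rw [hpe]
      have := mul_le_mul_of_nonneg_left (h0' y hy) (sub_nonneg.2 ht1)
      have := mul_le_mul_of_nonneg_left (h1' y hy) ht0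
      linarith
    have hpm : ∑ y ∈ T, p y ≤ m := by
      rw [Finset.sum_congr rfl fun y _ => hpe y, Finset.sum_add_distrib, ← Finset.mul_sum,
        ← Finset.mul_sum]
      have := mul_le_mul_of_nonneg_left hm0 (sub_nonneg.2 ht1)
      have := mul_le_mul_of_nonneg_left hm1 ht0
      linarith
    have hdd := hd κ T p w s c m hp0 hp1 hw hs1 hc hpm
    set H : ℝ → ℝ := fun x => ∑ y ∈ T, s y * EE p T (fun N => ind (∑ z ∈ insert y N, w z ≤ x)
      - ind (∑ z ∈ N.erase y, w z ≤ x)) with hH
    have hHn : Nice H := Nice.sum T fun y _ =>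
      (nice_EE p T fun N => nice_ind_sub (∑ z ∈ insert y N, w z) (∑ z ∈ N.erase y, w z)).const_mul _
    have e1 : ∑ y ∈ T, (p1 y - p0 y) * EE p T (fun N => Fg (insert y N) - Fg (N.erase y)) =
        ∫ x, (δ * H x) * g x := by
      have e2 : ∀ y, EE p T (fun N => Fg (insert y N) - Fg (N.erase y)) =
          ∫ x, EE p T (fun N => ind (∑ z ∈ insert y N, w z ≤ x)
            - ind (∑ z ∈ N.erase y, w z ≤ x)) * g x := by
        intro y
        have e3 : (fun N => Fg (insert y N) - Fg (N.erase y)) = fun N => ∫ x,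
            (ind (∑ z ∈ insert y N, w z ≤ x) - ind (∑ z ∈ N.erase y, w z ≤ x)) * g x := by
          funext N
          rw [hFg]
          change (∫ x, st (S (insert y N)) x * g x) - (∫ x, st (S (N.erase y)) x * g x) = _
          rw [← integral_sub (hFgn _).integrable (hFgn _).integrable]
          refine integral_congr_ae (Filter.Eventually.of_forall fun x => ?_)
          change st (S (insert y N)) x * g x - st (S (N.erase y)) x * g x = _
          unfold st
          ring
        rw [e3, EE_integral p T fun N => (nice_ind_sub _ _).mul hgn]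
        refine integral_congr_ae (Filter.Eventually.of_forall fun x => ?_)
        exact EE_mul_right p T (g x) _
      have e4 : ∀ y, Nice (fun x => EE p T (fun N => ind (∑ z ∈ insert y N, w z ≤ x)
            - ind (∑ z ∈ N.erase y, w z ≤ x)) * g x) := fun y =>
        (nice_EE p T fun N => nice_ind_sub _ _).mul hgn
      calc ∑ y ∈ T, (p1 y - p0 y) * EE p T (fun N => Fg (insert y N) - Fg (N.erase y))
          = ∑ y ∈ T, ∫ x, (δ * s y) * (EE p T (fun N => ind (∑ z ∈ insert y N, w z ≤ x)
            - ind (∑ z ∈ N.erase y, w z ≤ x)) * g x) := by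
            refine Finset.sum_congr rfl fun y hy => ?_
            rw [hs y hy, e2, integral_const_mul]
        _ = ∫ x, ∑ y ∈ T, (δ * s y) * (EE p T (fun N => ind (∑ z ∈ insert y N, w z ≤ x)
            - ind (∑ z ∈ N.erase y, w z ≤ x)) * g x) :=
            (integral_finsetSum T fun y _ => ((e4 y).const_mul _).integrable).symm
        _ = ∫ x, (δ * H x) * g x := by
            refine integral_congr_ae (Filter.Eventually.of_forall fun x => ?_)
            change ∑ y ∈ T, _ = δ * H x * g x
            rw [hH]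
            change _ = δ * (∑ y ∈ T, _) * g x
            rw [Finset.mul_sum, Finset.sum_mul]
            exact Finset.sum_congr rfl fun y _ => by ring
    rw [e1]
    have e5 : ∫ x, (δ * H x) * g x ≤ ∫ x, ((δ * H x) ^ 2 + g x ^ 2) / 2 := by
      refine integral_mono ((hHn.const_mul δ).mul hgn).integrable
        (((hHn.const_mul δ).sq.add hgn.sq).div_const 2).integrable fun x => ?_
      change δ * H x * g x ≤ ((δ * H x) ^ 2 + g x ^ 2) / 2
      nlinarith [sq_nonneg (δ * H x - g x)]
    have e6 : ∫ x, ((δ * H x) ^ 2 + g x ^ 2) / 2 = (δ ^ 2 * (∫ x, H x ^ 2) + ∫ x, g x ^ 2) / 2 := by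
      rw [integral_div, integral_add (hHn.const_mul δ).sq.integrable hgn.sq.integrable]
      congr 2
      rw [← integral_const_mul]
      refine integral_congr_ae (Filter.Eventually.of_forall fun x => ?_)
      change (δ * H x) ^ 2 = δ ^ 2 * H x ^ 2
      ring
    rw [e6] at e5
    have e7 := mul_le_mul_of_nonneg_left hdd (sq_nonneg δ)
    have e8 : δ ^ 2 * (∫ x, H x ^ 2) ≤ δ ^ 2 * B0 := e7
    linarith
  -- mean value theorem
  obtain ⟨τ, hτ, he⟩ := exists_hasDerivAt_eq_slope J _ (zero_lt_one' ℝ)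
    (fun τ _ => (hder τ).continuousAt.continuousWithinAt) (fun τ _ => hder τ)
  have h2 := hbd τ hτ.1.le hτ.2.le
  rw [he, hJ1, sub_zero, div_one] at h2
  have h3 : ∫ x, (EE p1 T (fun N => ind (∑ z ∈ N, w z ≤ x)) -
      EE p0 T (fun N => ind (∑ z ∈ N, w z ≤ x))) ^ 2 = ∫ x, g x ^ 2 := by
    refine integral_congr_ae (Filter.Eventually.of_forall fun x => ?_)
    change _ ^ 2 = g x ^ 2
    rw [hge x]
  rw [h3]
  linarith

end Pool.Agent.Helper72.BPA
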