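import Pool.Agent.Helper72.BPA.St

/-!
# Module LAB: averaging over two labels
-/

set_option autoImplicit false

namespace Pool.Agent.Helper72.BPA

open Finset MeasureTheory Pool.Agent.Helper87.BP Pool.Agent.Helper42.BPX

noncomputable section

/-- averaging over one label -/
lemma lab_half {n : ℕ} (i : Fin n) (F : (Fin n → Bool) → ℝ) :
    ∑ σ : Fin n → Bool, F σ
      = ∑ σ : Fin n → Bool, (∑ x : Bool, F (Function.update σ i x)) / 2 := by
  have h1 : ∀ σ : Fin n → Bool, ∑ x : Bool, F (Function.update σ i x)
      = F σ + F (Function.update σ i (!σ i)) := by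
    intro σ
    rw [Fintype.sum_bool]
    cases h : σ i with
    | true =>
      have : Function.update σ i true = σ := by rw [← h, Function.update_eq_self]
      rw [this]; simp
    | false =>
      have : Function.update σ i false = σ := by rw [← h, Function.update_eq_self]
      rw [this, add_comm]; simp
  have h2 : ∑ σ : Fin n → Bool, F (Function.update σ i (!σ i)) = ∑ σ : Fin n → Bool, F σ := by
    have hinv : Function.Involutive (fun σ : Fin n → Bool => Function.update σ i (!σ i)) := by
      intro σ
      simp
    exact hinv.bijective.sum_comp F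
  have h3 : ∑ σ : Fin n → Bool, (∑ x : Bool, F (Function.update σ i x)) / 2
      = (∑ σ : Fin n → Bool, (F σ + F (Function.update σ i (!σ i)))) / 2 := by
    rw [Finset.sum_div]
    exact Finset.sum_congr rfl fun σ _ => by rw [h1]
  rw [h3, Finset.sum_add_distrib, h2]
  ring

theorem m_lab : S_lab := by
  intro n i j hij H
  rw [lab_half j (fun σ => lab σ i * lab σ j * H σ),
    lab_half i (fun σ => (∑ x : Bool, (fun σ => lab σ i * lab σ j * H σ)
      (Function.update σ j x)) / 2)]
  refine Finset.sum_congr rfl fun σ _ => ?_
  rw [← Finset.sum_div, div_div]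
  norm_num only
  congr 1
  refine Finset.sum_congr rfl fun x _ => Finset.sum_congr rfl fun y _ => ?_
  have e1 : lab (Function.update (Function.update σ i x) j y) i = lb x := by
    simp [lab, lb, Function.update_of_ne hij]
  have e2 : lab (Function.update (Function.update σ i x) j y) j = lb y := by
    simp [lab, lb]
  rw [e1, e2]

end

end Pool.Agent.Helper72.BPA
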