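import Pool.Agent.Helper72.BPA.St

set_option autoImplicit false

namespace Pool.Agent.Helper72.BPA

open Finset MeasureTheory Pool.Agent.Helper87.BP Pool.Agent.Helper42.BPX

theorem m_mm (hL : S_L2) (hc : S_chv) : S_mm := by
  intro κ _ T p0 p1 w s c m δ θ f hF h00 h01 h10 h11 hδ hw hs hm0 hm1
  have h1 := hL κ T p0 p1 w s c m δ h00 h01 h10 h11 hδ hw hs hF.c0 hm0 hm1
  have hsum : ∑ N ∈ T.powerset, (wt p1 T N - wt p0 T N) = 0 := by
    have e1 := EE_const p1 T 1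
    have e0 := EE_const p0 T 1
    unfold EE at e1 e0
    simp only [mul_one] at e1 e0
    rw [Finset.sum_sub_distrib, e1, e0, sub_self]
  have h2 := hc (Finset κ) T.powerset (fun N => wt p1 T N - wt p0 T N)
    (fun N => ∑ z ∈ N, w z) c θ f hF hsum
  have e2 : ∀ v, (EE p1 T (fun N => st (f (∑ z ∈ N, w z)) v)
      - EE p0 T (fun N => st (f (∑ z ∈ N, w z)) v))
      = ∑ N ∈ T.powerset, (wt p1 T N - wt p0 T N) * ind (f (∑ z ∈ N, w z) ≤ v) := by
    intro v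
    have e3 : ∀ p : κ → ℝ, EE p T (fun N => st (f (∑ z ∈ N, w z)) v)
        = EE p T (fun N => ind (f (∑ z ∈ N, w z) ≤ v)) - ind (0 ≤ v) := by
      intro p
      unfold st
      rw [EE_sub, EE_const]
    rw [e3, e3]
    unfold EE
    rw [← sub_sub_sub_cancel_right _ _ (ind (0 ≤ v))]
    simp only [sub_mul, Finset.sum_sub_distrib]
    ring
  have e4 : ∀ x, (EE p1 T (fun N => ind (∑ z ∈ N, w z ≤ x))
      - EE p0 T (fun N => ind (∑ z ∈ N, w z ≤ x)))
      = ∑ N ∈ T.powerset, (wt p1 T N - wt p0 T N) * ind (∑ z ∈ N, w z ≤ x) := by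
    intro x
    unfold EE
    simp only [sub_mul, Finset.sum_sub_distrib]
  simp only [e4] at h1
  simp only [e2, div_pow]
  rw [integral_div]
  have h3 : ∫ v, (∑ N ∈ T.powerset, (wt p1 T N - wt p0 T N) * ind (f (∑ z ∈ N, w z) ≤ v)) ^ 2
      ≤ θ * (δ ^ 2 * (2 * (∫ x, (∑ y ∈ T, s y * st (w y) x) ^ 2) + 4 * c * m ^ 2)) :=
    h2.trans (mul_le_mul_of_nonneg_left h1 hF.th)
  linarith

end Pool.Agent.Helper72.BPA
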