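import Pool.Agent.Helper72.BPA.St
import Pool.Agent.Helper42.BPX.PB

/-! Module RS2: given the graph on `T`, the neighbourhoods of two vertices in `T` are fresh. -/

set_option autoImplicit false

namespace Pool.Agent.Helper72.BPA

open Finset MeasureTheory Pool.Agent.Helper87.BP Pool.Agent.Helper42.BPX

noncomputable section

open Classical

namespace RS2

/-- reindexing by an injective map -/
theorem EE_image {κ ι : Type*} [DecidableEq κ] [DecidableEq ι] (p : ι → ℝ) (φ : κ → ι)
    (hφ : Function.Injective φ) (T : Finset κ) (F : Finset ι → ℝ) :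
    EE p (T.image φ) F = EE (fun y => p (φ y)) T (fun N => F (N.image φ)) := by
  unfold EE
  rw [powerset_image, sum_image (fun a _ b _ h => (image_injective hφ) h)]
  apply sum_congr rfl
  intro N _
  congr 1
  unfold wt
  rw [← image_sdiff _ _ hφ, prod_image (fun a _ b _ h => hφ h),
    prod_image (fun a _ b _ h => hφ h)]

variable {n : ℕ}

theorem mem_prsIn {W : Finset (Fin n)} {x y : Fin n} :
    s(x, y) ∈ prsIn W ↔ x ≠ y ∧ x ∈ W ∧ y ∈ W := by
  unfold prsIn
  rw [mem_filter, mem_prs]
  simp

end RS2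

open RS2

theorem m_rs2 : S_rs2 := by
  intro n p T i j hij hi hj Φ
  have hsT : prsIn T ⊆ prs n := filter_subset _ _
  have hsi : star i T ⊆ prs n := star_subset hi
  have hsj : star j T ⊆ prs n := star_subset hj
  have hd1 : Disjoint (prsIn T) (star i T) := by
    rw [disjoint_left]
    intro e h1 h2
    obtain ⟨x, hx, rfl⟩ := mem_star.1 h2
    exact hi (mem_prsIn.1 h1).2.1
  have hd2 : Disjoint (prsIn T ∪ star i T) (star j T) := by
    rw [disjoint_left]
    intro e h1 h2
    obtain ⟨x, hx, rfl⟩ := mem_star.1 h2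
    rcases mem_union.1 h1 with h1 | h1
    · exact hj (mem_prsIn.1 h1).2.1
    · obtain ⟨y, hy, h3⟩ := mem_star.1 h1
      rw [Sym2.eq_iff] at h3
      rcases h3 with ⟨h4, -⟩ | ⟨h4, -⟩
      · exact hij h4
      · exact hi (h4 ▸ hx)
  have hU : prsIn T ∪ star i T ∪ star j T ⊆ prs n := union_subset (union_subset hsT hsi) hsj
  -- the function depends on three sets of coordinates
  have hfil : ∀ (A B : Finset (Sym2 (Fin n))) (v : Fin n), v ∉ T → (∀ y ∈ T, (s(v, y) ∈ A ↔ s(v, y) ∈ B)) →
      T.filter (fun y => Adj A y v) = T.filter (fun y => Adj B y v) := by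
    intro A B v hv h
    apply filter_congr
    intro y hy
    unfold Adj
    rw [Sym2.eq_swap, h y hy]
  have hLHS : EE p (prs n) (fun A => Φ (A ∩ prsIn T) (T.filter (fun y => Adj A y i))
      (T.filter (fun y => Adj A y j))) =
      EE p (prsIn T ∪ star i T ∪ star j T) (fun A => Φ (A ∩ prsIn T)
        (T.filter (fun y => Adj A y i)) (T.filter (fun y => Adj A y j))) := by
    apply EE_restrict hU
    intro A _
    have e1 : A ∩ (prsIn T ∪ star i T ∪ star j T) ∩ prsIn T = A ∩ prsIn T := by
      ext e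
      simp only [mem_inter, mem_union]
      tauto
    have e2 : T.filter (fun y => Adj (A ∩ (prsIn T ∪ star i T ∪ star j T)) y i) =
        T.filter (fun y => Adj A y i) := by
      apply hfil _ _ i hi
      intro y hy
      rw [mem_inter]
      refine ⟨fun h => h.1, fun h => ⟨h, ?_⟩⟩
      exact mem_union_left _ (mem_union_right _ (mem_star.2 ⟨y, hy, rfl⟩))
    have e3 : T.filter (fun y => Adj (A ∩ (prsIn T ∪ star i T ∪ star j T)) y j) =
        T.filter (fun y => Adj A y j) := by
      apply hfil _ _ j hj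
      intro y hy
      rw [mem_inter]
      refine ⟨fun h => h.1, fun h => ⟨h, ?_⟩⟩
      exact mem_union_right _ (mem_star.2 ⟨y, hy, rfl⟩)
    rw [e1, e2, e3]
  have hRHS : EE p (prs n) (fun A => EE (fun y => p s(y, i)) T (fun N =>
        EE (fun y => p s(y, j)) T (fun N' => Φ (A ∩ prsIn T) N N'))) =
      EE p (prsIn T) (fun A => EE (fun y => p s(y, i)) T (fun N =>
        EE (fun y => p s(y, j)) T (fun N' => Φ (A ∩ prsIn T) N N'))) := by
    apply EE_restrict hsT
    intro A _
    rw [inter_assoc, inter_self]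
  rw [hLHS, hRHS, EE_union hd2, EE_union hd1]
  apply EE_congr
  intro A hA
  rw [EE_congr_p (p := fun y => p s(y, i)) (q := fun y => p s(i, y))
    (fun x _ => by rw [Sym2.eq_swap])]
  unfold Pool.Agent.Helper42.BPX.star
  rw [EE_image p (fun x => s(i, x)) (star_inj i) T]
  apply EE_congr
  intro N hN
  rw [EE_congr_p (p := fun y => p s(y, j)) (q := fun y => p s(j, y))
    (fun x _ => by rw [Sym2.eq_swap])]
  rw [EE_image p (fun x => s(j, x)) (star_inj j) T]
  apply EE_congr
  intro N' hN'
  have hiA : ∀ y, s(i, y) ∉ A := fun y h => hi (mem_prsIn.1 (hA h)).2.1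
  have hjA : ∀ y, s(j, y) ∉ A := fun y h => hj (mem_prsIn.1 (hA h)).2.1
  have e1 : (A ∪ N.image (fun x => s(i, x)) ∪ N'.image (fun x => s(j, x))) ∩ prsIn T =
      A ∩ prsIn T := by
    ext e
    rw [mem_inter, mem_inter, mem_union, mem_union]
    constructor
    · rintro ⟨(h | h) | h, h'⟩
      · exact ⟨h, h'⟩
      · exfalso
        obtain ⟨y, _, rfl⟩ := mem_image.1 h
        exact hi (mem_prsIn.1 h').2.1
      · exfalso
        obtain ⟨y, _, rfl⟩ := mem_image.1 h
        exact hj (mem_prsIn.1 h').2.1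
    · rintro ⟨h, h'⟩
      exact ⟨Or.inl (Or.inl h), h'⟩
  have e2 : T.filter (fun y => Adj (A ∪ N.image (fun x => s(i, x)) ∪
      N'.image (fun x => s(j, x))) y i) = N := by
    ext y
    rw [mem_filter]
    constructor
    · rintro ⟨hy, hne, h⟩
      rw [mem_union, mem_union] at h
      rcases h with (h | h) | h
      · rw [Sym2.eq_swap] at h
        exact absurd h (hiA y)
      · obtain ⟨z, hz, h1⟩ := mem_image.1 h
        rw [Sym2.eq_iff] at h1
        rcases h1 with ⟨h2, -⟩ | ⟨-, h2⟩
        · exact absurd (h2 ▸ hy) hi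
        · rw [← h2]; exact hz
      · obtain ⟨z, hz, h1⟩ := mem_image.1 h
        rw [Sym2.eq_iff] at h1
        rcases h1 with ⟨h2, -⟩ | ⟨h2, -⟩
        · exact absurd (h2 ▸ hy) hj
        · exact absurd h2.symm hij
    · intro hy
      have hyT : y ∈ T := hN hy
      refine ⟨hyT, fun h => hi (h ▸ hyT), ?_⟩
      rw [Sym2.eq_swap]
      exact mem_union_left _ (mem_union_right _ (mem_image.2 ⟨y, hy, rfl⟩))
  have e3 : T.filter (fun y => Adj (A ∪ N.image (fun x => s(i, x)) ∪
      N'.image (fun x => s(j, x))) y j) = N' := by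
    ext y
    rw [mem_filter]
    constructor
    · rintro ⟨hy, hne, h⟩
      rw [mem_union, mem_union] at h
      rcases h with (h | h) | h
      · rw [Sym2.eq_swap] at h
        exact absurd h (hjA y)
      · obtain ⟨z, hz, h1⟩ := mem_image.1 h
        rw [Sym2.eq_iff] at h1
        rcases h1 with ⟨h2, -⟩ | ⟨h2, -⟩
        · exact absurd (h2 ▸ hy) hi
        · exact absurd h2 hij
      · obtain ⟨z, hz, h1⟩ := mem_image.1 h
        rw [Sym2.eq_iff] at h1
        rcases h1 with ⟨h2, -⟩ | ⟨-, h2⟩
        · exact absurd (h2 ▸ hy) hj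
        · rw [← h2]; exact hz
    · intro hy
      have hyT : y ∈ T := hN' hy
      refine ⟨hyT, fun h => hj (h ▸ hyT), ?_⟩
      rw [Sym2.eq_swap]
      exact mem_union_right _ (mem_image.2 ⟨y, hy, rfl⟩)
  rw [e1, e2, e3]

end

end Pool.Agent.Helper72.BPA

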