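import Pool.Agent.Helper72.BPA.Base
import Pool.Agent.Helper72.BPA.M_RS2

/-!
# PAIR: the pair term
-/

set_option autoImplicit false

namespace Pool.Agent.Helper72.BPA

open Finset MeasureTheory Pool.Agent.Helper87.BP Pool.Agent.Helper42.BPX

noncomputable section

open Classical

namespace PairAux

variable {ι : Type*} [DecidableEq ι]

/-- expectation of nice functions is nice -/
lemma nice_EE (p : ι → ℝ) (T : Finset ι) (F : Finset ι → ℝ → ℝ) (hF : ∀ N, Nice (F N)) :
    Nice (fun v => EE p T (fun N => F N v)) := by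
  unfold EE
  exact Nice.sum _ fun N _ => (hF N).const_mul _

/-- the product of two expectations of step functions -/
lemma EE_kk (p q : ι → ℝ) (T : Finset ι) (F G : Finset ι → ℝ) :
    EE p T (fun N => EE q T (fun N' => kk (F N) (G N')))
      = ∫ v, EE p T (fun N => st (F N) v) * EE q T (fun N' => st (G N') v) := by
  have h : ∀ v, EE p T (fun N => st (F N) v) * EE q T (fun N' => st (G N') v)
      = ∑ N ∈ T.powerset, ∑ N' ∈ T.powerset,
        (wt p T N * wt q T N') * (st (F N) v * st (G N') v) := by
    intro v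
    unfold EE
    rw [Finset.sum_mul_sum]
    exact Finset.sum_congr rfl fun N _ => Finset.sum_congr rfl fun N' _ => by ring
  simp_rw [h]
  rw [integral_finsetSum]
  · unfold EE
    refine Finset.sum_congr rfl fun N _ => ?_
    rw [integral_finsetSum, Finset.mul_sum]
    · refine Finset.sum_congr rfl fun N' _ => ?_
      rw [integral_const_mul]
      unfold kk
      ring
    · intro N' _
      exact (((nice_st _).mul (nice_st _)).const_mul _).integrable
  · intro N _
    exact (Nice.sum _ fun N' _ => ((nice_st _).mul (nice_st _)).const_mul _).integrable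

/-- the four terms combine -/
lemma four (pt pf : ι → ℝ) (T : Finset ι) (F G : Finset ι → ℝ) :
    (∑ x : Bool, ∑ y : Bool, lb x * lb y *
      EE (if x then pt else pf) T (fun N => EE (if y then pt else pf) T
        (fun N' => kk (F N) (G N'))))
      ≤ 2 * ((∫ v, ((EE pt T (fun N => st (F N) v) - EE pf T (fun N => st (F N) v)) / 2) ^ 2)
        + ∫ v, ((EE pt T (fun N => st (G N) v) - EE pf T (fun N => st (G N) v)) / 2) ^ 2) := by
  have n1 : ∀ (p : ι → ℝ) (F : Finset ι → ℝ), Nice (fun v => EE p T (fun N => st (F N) v)) :=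
    fun p F => nice_EE p T (fun N => st (F N)) (fun N => nice_st _)
  have n2 : ∀ (p q : ι → ℝ), Integrable
      (fun v => EE p T (fun N => st (F N) v) * EE q T (fun N => st (G N) v)) :=
    fun p q => ((n1 p F).mul (n1 q G)).integrable
  have e : (∑ x : Bool, ∑ y : Bool, lb x * lb y *
      EE (if x then pt else pf) T (fun N => EE (if y then pt else pf) T
        (fun N' => kk (F N) (G N'))))
      = ∫ v, (EE pt T (fun N => st (F N) v) - EE pf T (fun N => st (F N) v))
        * (EE pt T (fun N => st (G N) v) - EE pf T (fun N => st (G N) v)) := by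
    have h1 : ∀ v, (EE pt T (fun N => st (F N) v) - EE pf T (fun N => st (F N) v))
        * (EE pt T (fun N => st (G N) v) - EE pf T (fun N => st (G N) v))
        = (EE pt T (fun N => st (F N) v) * EE pt T (fun N => st (G N) v)
          - EE pt T (fun N => st (F N) v) * EE pf T (fun N => st (G N) v))
          - (EE pf T (fun N => st (F N) v) * EE pt T (fun N => st (G N) v)
          - EE pf T (fun N => st (F N) v) * EE pf T (fun N => st (G N) v)) := fun v => by ring
    have n3 : ∀ (p q r : ι → ℝ), Integrable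
        (fun v => EE p T (fun N => st (F N) v) * EE q T (fun N => st (G N) v)
          - EE p T (fun N => st (F N) v) * EE r T (fun N => st (G N) v)) :=
      fun p q r => (n2 p q).sub (n2 p r)
    simp_rw [h1]
    rw [integral_sub (n3 pt pt pf) (n3 pf pt pf),
      integral_sub (n2 pt pt) (n2 pt pf), integral_sub (n2 pf pt) (n2 pf pf)]
    simp only [EE_kk, Fintype.sum_bool, lb, if_true, Bool.false_eq_true, if_false]
    ring
  rw [e, ← integral_add (((n1 pt F).sub (n1 pf F)).div_const 2).sq.integrable
    (((n1 pt G).sub (n1 pf G)).div_const 2).sq.integrable, ← integral_const_mul]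
  refine integral_mono (((n1 pt F).sub (n1 pf F)).mul ((n1 pt G).sub (n1 pf G))).integrable
    (((((n1 pt F).sub (n1 pf F)).div_const 2).sq.add
      (((n1 pt G).sub (n1 pf G)).div_const 2).sq).const_mul 2).integrable fun v => ?_
  simp only
  nlinarith [sq_nonneg ((EE pt T (fun N => st (F N) v) - EE pf T (fun N => st (F N) v))
    - (EE pt T (fun N => st (G N) v) - EE pf T (fun N => st (G N) v)))]

end PairAux

open PairAux

theorem m_pair (hs : S_st) (hl : S_lab) (hr : S_rs2) (hm : S_mm) : S_pair := by
  intro n a b m c θ f hG hF T i j hij hi hj wi wj hwi hwj hii hjj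
  have hn : (0 : ℝ) < n := by exact_mod_cast hG.pos
  -- the probabilities at `i` and `j`
  set pt : (Fin n → Bool) → Fin n → ℝ := fun σ y => if σ y then a / n else b / n with hpt
  set pf : (Fin n → Bool) → Fin n → ℝ := fun σ y => if σ y then b / n else a / n with hpf
  set H : (Fin n → Bool) → ℝ := fun σ => EE (pe a b σ) (prs n) (fun A =>
    kk (f (∑ y ∈ T, ind (Adj A y i) * wi A y)) (f (∑ y ∈ T, ind (Adj A y j) * wj A y))) with hH
  -- (1) resampling
  have h1 : ∀ σ, H σ = EE (pe a b σ) (prs n) (fun A => EE (fun y => pe a b σ s(y, i)) T (fun N =>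
      EE (fun y => pe a b σ s(y, j)) T (fun N' =>
        kk (f (∑ y ∈ N, wi A y)) (f (∑ y ∈ N', wj A y))))) := by
    intro σ
    have h := hr n (pe a b σ) T i j hij hi hj (fun B N N' =>
      kk (f (∑ y ∈ N, wi B y)) (f (∑ y ∈ N', wj B y)))
    have e1 : H σ = EE (pe a b σ) (prs n) (fun A => kk
        (f (∑ y ∈ T.filter (fun y => Adj A y i), wi (A ∩ prsIn T) y))
        (f (∑ y ∈ T.filter (fun y => Adj A y j), wj (A ∩ prsIn T) y))) := by
      rw [hH]
      refine EE_congr fun A _ => ?_
      congr 2
      · rw [Finset.sum_filter]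
        refine Finset.sum_congr rfl fun y hy => ?_
        by_cases h : Adj A y i
        · rw [ind_of h, if_pos h, one_mul, hii A y hy]
        · rw [ind_not h, if_neg h, zero_mul]
      · rw [Finset.sum_filter]
        refine Finset.sum_congr rfl fun y hy => ?_
        by_cases h : Adj A y j
        · rw [ind_of h, if_pos h, one_mul, hjj A y hy]
        · rw [ind_not h, if_neg h, zero_mul]
    rw [e1, h]
    refine EE_congr fun A _ => EE_congr fun N hN => EE_congr fun N' hN' => ?_
    rw [Finset.sum_congr rfl fun y hy => hii A y (hN hy),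
      Finset.sum_congr rfl fun y hy => hjj A y (hN' hy)]
  -- (2) the updated labels
  have hne : ∀ y ∈ T, y ≠ i ∧ y ≠ j := fun y hy => ⟨fun h => hi (h ▸ hy), fun h => hj (h ▸ hy)⟩
  have h2 : ∀ (σ : Fin n → Bool) (x y : Bool),
      H (Function.update (Function.update σ i x) j y)
        = EE (pe a b σ) (prs n) (fun A => EE (if x then pt σ else pf σ) T (fun N =>
          EE (if y then pt σ else pf σ) T (fun N' =>
            kk (f (∑ y ∈ N, wi A y)) (f (∑ y ∈ N', wj A y))))) := by
    intro σ x y
    set σ' := Function.update (Function.update σ i x) j y with hσ'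
    have hσy : ∀ z ∈ T, σ' z = σ z := by
      intro z hz
      rw [hσ', Function.update_of_ne (hne z hz).2, Function.update_of_ne (hne z hz).1]
    have hσi : σ' i = x := by
      rw [hσ', Function.update_of_ne hij, Function.update_self]
    have hσj : σ' j = y := by
      rw [hσ', Function.update_self]
    rw [h1 σ']
    have e1 : ∀ A, EE (fun y => pe a b σ' s(y, i)) T (fun N =>
        EE (fun y => pe a b σ' s(y, j)) T (fun N' =>
          kk (f (∑ y ∈ N, wi A y)) (f (∑ y ∈ N', wj A y))))
        = EE (if x then pt σ else pf σ) T (fun N => EE (if y then pt σ else pf σ) T (fun N' =>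
          kk (f (∑ y ∈ N, wi A y)) (f (∑ y ∈ N', wj A y)))) := by
      intro A
      have hx : ∀ (l : Fin n) (u : Bool), σ' l = u → ∀ z ∈ T,
          pe a b σ' s(z, l) = (if u then pt σ else pf σ) z := by
        intro l u hl z hz
        rw [pe_mk, hσy z hz, hl]
        cases u <;> cases hσz : σ z <;> simp [hpt, hpf, hσz]
      rw [EE_congr_p (hx i x hσi)]
      exact EE_congr fun N _ => EE_congr_p (hx j y hσj) _
    simp_rw [e1]
    have hsT : prsIn T ⊆ prs n := filter_subset _ _
    have hdep : ∀ A ⊆ prs n, EE (if x then pt σ else pf σ) T (fun N =>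
        EE (if y then pt σ else pf σ) T (fun N' =>
          kk (f (∑ y ∈ N, wi A y)) (f (∑ y ∈ N', wj A y))))
        = EE (if x then pt σ else pf σ) T (fun N => EE (if y then pt σ else pf σ) T (fun N' =>
          kk (f (∑ y ∈ N, wi (A ∩ prsIn T) y)) (f (∑ y ∈ N', wj (A ∩ prsIn T) y)))) := by
      intro A _
      refine EE_congr fun N hN => EE_congr fun N' hN' => ?_
      rw [Finset.sum_congr rfl fun y hy => (hii A y (hN hy)).symm,
        Finset.sum_congr rfl fun y hy => (hjj A y (hN' hy)).symm]
    rw [EE_restrict hsT hdep, EE_restrict hsT hdep]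
    refine EE_congr_p (fun e he => ?_) _
    induction e with | _ u v =>
    rw [RS2.mem_prsIn] at he
    rw [pe_mk, pe_mk, hσy u he.2.1, hσy v he.2.2]
  -- (3) the bound for fixed labels and graph
  have hcard : (T.card : ℝ) * (m / n) ≤ m := by
    have h3 : (T.card : ℝ) ≤ n := by
      have := card_le_univ T
      rw [Fintype.card_fin] at this
      exact_mod_cast this
    have hm0 : 0 ≤ m / n := div_nonneg (hG.a0.trans hG.am) hn.le
    calc (T.card : ℝ) * (m / n) ≤ n * (m / n) := mul_le_mul_of_nonneg_right h3 hm0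
      _ = m := n_mul_q hG
  have hab : ∀ u : Bool, 0 ≤ (if u then a / (n : ℝ) else b / n)
      ∧ (if u then a / (n : ℝ) else b / n) ≤ m / n := by
    intro u
    cases u
    · simp only [Bool.false_eq_true, if_false]
      exact ⟨div_nonneg hG.b0 hn.le, div_le_div_of_nonneg_right hG.bm hn.le⟩
    · simp only [if_true]
      exact ⟨div_nonneg hG.a0 hn.le, div_le_div_of_nonneg_right hG.am hn.le⟩
  have hba : ∀ u : Bool, 0 ≤ (if u then b / (n : ℝ) else a / n)
      ∧ (if u then b / (n : ℝ) else a / n) ≤ m / n := by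
    intro u
    cases u
    · simp only [Bool.false_eq_true, if_false]
      exact ⟨div_nonneg hG.a0 hn.le, div_le_div_of_nonneg_right hG.am hn.le⟩
    · simp only [if_true]
      exact ⟨div_nonneg hG.b0 hn.le, div_le_div_of_nonneg_right hG.bm hn.le⟩
  have hq1 := q_le_one hG
  have h3 : ∀ (σ : Fin n → Bool) (w : Fin n → ℝ), (∀ y ∈ T, |w y| ≤ c) →
      ∫ v, ((EE (pt σ) T (fun N => st (f (∑ z ∈ N, w z)) v)
        - EE (pf σ) T (fun N => st (f (∑ z ∈ N, w z)) v)) / 2) ^ 2
      ≤ θ * (a - b) ^ 2 / 2 * (∫ v, (Zw σ T w v) ^ 2) + θ * ((a - b) / n) ^ 2 * (c * m ^ 2) := by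
    intro σ w hw
    have h := hm (Fin n) T (pf σ) (pt σ) w (lab σ) c m ((a - b) / n) θ f hF
      (fun y _ => (hba (σ y)).1) (fun y _ => ((hba (σ y)).2).trans hq1)
      (fun y _ => (hab (σ y)).1) (fun y _ => ((hab (σ y)).2).trans hq1)
      (fun y _ => by
        simp only [hpt, hpf, lab]
        cases σ y
        · simp only [Bool.false_eq_true, if_false]; ring
        · simp only [if_true]; ring)
      hw (fun y _ => (lab_abs σ y).le)
      ((Finset.sum_le_sum fun y _ => (hba (σ y)).2).trans (by
        rw [Finset.sum_const, nsmul_eq_mul]; exact hcard))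
      ((Finset.sum_le_sum fun y _ => (hab (σ y)).2).trans (by
        rw [Finset.sum_const, nsmul_eq_mul]; exact hcard))
    have e : ∫ x, (∑ y ∈ T, lab σ y * st (w y) x) ^ 2 = (n : ℝ) ^ 2 * ∫ v, (Zw σ T w v) ^ 2 := by
      rw [← integral_const_mul]
      congr 1
      funext v
      unfold Zw
      field_simp
    rw [e] at h
    refine h.trans (le_of_eq ?_)
    field_simp
  -- (4) conclusion for fixed labels
  have h4 : ∀ σ : Fin n → Bool, (∑ x : Bool, ∑ y : Bool,
      lb x * lb y * H (Function.update (Function.update σ i x) j y)) / 4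
      ≤ EE (pe a b σ) (prs n) (fun A => θ * (a - b) ^ 2 / 4 *
        ((∫ v, (Zw σ T (wi A) v) ^ 2) + ∫ v, (Zw σ T (wj A) v) ^ 2)
          + θ * ((a - b) / n) ^ 2 * m ^ 2 * c) := by
    intro σ
    have e1 : (∑ x : Bool, ∑ y : Bool,
        lb x * lb y * H (Function.update (Function.update σ i x) j y))
        = EE (pe a b σ) (prs n) (fun A => ∑ x : Bool, ∑ y : Bool, lb x * lb y *
          EE (if x then pt σ else pf σ) T (fun N => EE (if y then pt σ else pf σ) T (fun N' =>
            kk (f (∑ y ∈ N, wi A y)) (f (∑ y ∈ N', wj A y))))) := by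
      rw [EE_sum]
      refine Finset.sum_congr rfl fun x _ => ?_
      rw [EE_sum]
      refine Finset.sum_congr rfl fun y _ => ?_
      rw [EE_mul, h2]
    rw [e1, div_le_iff₀ (by norm_num : (0 : ℝ) < 4), ← EE_mul_right]
    refine EE_mono (fun e _ => pe_nonneg hG σ e) (fun e _ => pe_le_one hG σ e) fun A _ => ?_
    have h5 := four (pt σ) (pf σ) T (fun N => f (∑ y ∈ N, wi A y)) (fun N => f (∑ y ∈ N, wj A y))
    have h6 := h3 σ (wi A) (hwi A)
    have h7 := h3 σ (wj A) (hwj A)
    refine h5.trans ?_
    nlinarith [h6, h7]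
  -- (5) average over the labels
  have h8 : avg a b (fun σ A => lab σ i * lab σ j * kk (f (∑ y ∈ T, ind (Adj A y i) * wi A y))
      (f (∑ y ∈ T, ind (Adj A y j) * wj A y)))
      ≤ avg a b (fun σ A => θ * (a - b) ^ 2 / 4 *
        ((∫ v, (Zw σ T (wi A) v) ^ 2) + ∫ v, (Zw σ T (wj A) v) ^ 2)
          + θ * ((a - b) / n) ^ 2 * m ^ 2 * c) := by
    unfold avg
    refine div_le_div_of_nonneg_right ?_ (by positivity)
    have e2 : ∀ σ : Fin n → Bool, EE (pe a b σ) (prs n) (fun A => lab σ i * lab σ j *
        kk (f (∑ y ∈ T, ind (Adj A y i) * wi A y)) (f (∑ y ∈ T, ind (Adj A y j) * wj A y)))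
        = lab σ i * lab σ j * H σ := fun σ => EE_mul _ _ _ _
    rw [Finset.sum_congr rfl fun σ _ => e2 σ, hl n i j hij H]
    exact Finset.sum_le_sum fun σ _ => h4 σ
  refine h8.trans (le_of_eq ?_)
  rw [avg_add, avg_mul, avg_add, avg_const]

end

end Pool.Agent.Helper72.BPA
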