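import Pool.Agent.Helper72.BPA.Base

set_option autoImplicit false

namespace Pool.Agent.Helper72.BPA

open Finset MeasureTheory Pool.Agent.Helper87.BP Pool.Agent.Helper42.BPX

theorem m_partA (hs : S_st) (hfld : S_fld) (hiter : S_iter) : S_partA := by
  intro n a b m c θ f h0 hG hF h2 hA t
  obtain ⟨-, -, -, hs4, hs5, -, -, -⟩ := hs
  have hn : (0 : ℝ) < n := by exact_mod_cast hG.pos
  have hθ := hF.th
  have hc := hF.c0
  have hm0 : 0 ≤ m := hG.a0.trans hG.am
  set g : Fin n → Fin n → ℝ := fun y x => f (h0 y x) with hg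
  set u : Finset (Sym2 (Fin n)) → Fin n → ℝ := fun A i => f (field f (Adj A) h0 t i) with hu
  set w : Finset (Sym2 (Fin n)) → Fin n → ℝ := fun A i => f (sw f g A t (univ.erase i) i) with hw
  have h1 := hiter n a b m c θ f g hG hF h2 hA (fun y x => hF.bd _) t univ
  -- pointwise comparison
  have key : ∀ (σ : Fin n → Bool) (A : Finset (Sym2 (Fin n))),
      ∫ v, (Zw σ univ (u A) v) ^ 2 ≤ 2 * (∫ v, (Zw σ univ (w A) v) ^ 2)
        + 2 * ((∑ i, |u A i - w A i|) / n) := by
    intro σ A
    have hnice1 := nice_Zw σ univ (u A)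
    have hnice2 := nice_Zw σ univ (w A)
    set D : ℝ → ℝ := fun v => (∑ i, |st (u A i) v - st (w A i) v|) / n with hD
    have hDn : Nice D := (Nice.sum univ fun i _ => ((nice_st (u A i)).sub (nice_st (w A i))).abs).div_const _
    have hD1 : ∀ v, D v ≤ 1 := by
      intro v
      rw [hD]
      show (∑ i, |st (u A i) v - st (w A i) v|) / n ≤ 1
      rw [div_le_one hn]
      calc ∑ i, |st (u A i) v - st (w A i) v| ≤ ∑ _i : Fin n, (1 : ℝ) :=
            Finset.sum_le_sum fun i _ => hs4 _ _ _
        _ = n := by simp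
    have hD0 : ∀ v, 0 ≤ D v := fun v => div_nonneg (Finset.sum_nonneg fun i _ => abs_nonneg _) hn.le
    have hdiff : ∀ v, |Zw σ univ (u A) v - Zw σ univ (w A) v| ≤ D v := by
      intro v
      unfold Zw
      rw [← sub_div, ← Finset.sum_sub_distrib, abs_div, abs_of_pos hn]
      refine div_le_div_of_nonneg_right ?_ hn.le
      refine (Finset.abs_sum_le_sum_abs _ _).trans (Finset.sum_le_sum fun i _ => ?_)
      rw [← mul_sub, abs_mul, lab_abs, one_mul]
    have hpt : ∀ v, (Zw σ univ (u A) v) ^ 2 ≤ 2 * (Zw σ univ (w A) v) ^ 2 + 2 * D v := by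
      intro v
      have h3 := hdiff v
      have h4 := hD1 v
      have h5 := hD0 v
      have h6 : (Zw σ univ (u A) v - Zw σ univ (w A) v) ^ 2 ≤ D v := by
        rw [← sq_abs]
        calc |Zw σ univ (u A) v - Zw σ univ (w A) v| ^ 2 ≤ (D v) ^ 2 :=
              pow_le_pow_left₀ (abs_nonneg _) h3 2
          _ ≤ D v := by nlinarith
      nlinarith [sq_nonneg (Zw σ univ (u A) v - 2 * Zw σ univ (w A) v)]
    have hint : ∫ v, D v = (∑ i, |u A i - w A i|) / n := by
      rw [hD]
      rw [integral_div, integral_finsetSum]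
      · congr 1
        exact Finset.sum_congr rfl fun i _ => hs5 _ _
      · intro i _
        exact ((nice_st (u A i)).sub (nice_st (w A i))).abs.integrable
    calc ∫ v, (Zw σ univ (u A) v) ^ 2
        ≤ ∫ v, (2 * (Zw σ univ (w A) v) ^ 2 + 2 * D v) := by
          refine integral_mono hnice1.sq.integrable ?_ hpt
          exact ((hnice2.sq.const_mul 2).add (hDn.const_mul 2)).integrable
      _ = 2 * (∫ v, (Zw σ univ (w A) v) ^ 2) + 2 * (∫ v, D v) := by
          rw [integral_add (hnice2.sq.const_mul 2).integrable (hDn.const_mul 2).integrable,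
            integral_const_mul, integral_const_mul]
      _ = _ := by rw [hint]
  have h3 : avg a b (fun σ A => ∫ v, (Zw σ univ (u A) v) ^ 2)
      ≤ 2 * aa a b f g t univ + 2 * avg a b (fun σ A => (∑ i, |u A i - w A i|) / n) := by
    refine (avg_mono hG (fun σ A _ => key σ A)).trans (le_of_eq ?_)
    rw [avg_add, avg_mul, avg_mul]
    rfl
  have h4 : avg a b (fun (_ : Fin n → Bool) A => (∑ i, |u A i - w A i|) / n)
      ≤ θ * (2 * c * (m / n) * t * (θ * m) ^ t) := by
    refine avg_le_of_EE fun σ => ?_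
    have e1 : ∀ A, (∑ i, |u A i - w A i|) / n = ∑ i, |u A i - w A i| * (1 / n) := by
      intro A
      rw [← Finset.sum_mul]; ring
    simp only [e1]
    rw [EE_sum]
    calc ∑ i, EE (pe a b σ) (prs n) (fun A => |u A i - w A i| * (1 / n))
        ≤ ∑ _i : Fin n, θ * (2 * c * (m / n) * t * (θ * m) ^ t) * (1 / n) := by
          refine Finset.sum_le_sum fun i _ => ?_
          rw [EE_mul_right]
          refine mul_le_mul_of_nonneg_right ?_ (by positivity)
          have h5 := hfld n (pe a b σ) (m / n) m c θ f h0 (pe_nonneg hG σ) (pe_le hG σ)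
            (q_le_one hG) (n_mul_q hG).le h2 hF t i
          calc EE (pe a b σ) (prs n) (fun A => |u A i - w A i|)
              ≤ EE (pe a b σ) (prs n) (fun A => θ * |field f (Adj A) h0 t i
                - sw f (fun y x => f (h0 y x)) A t (univ.erase i) i|) :=
                EE_mono (fun e _ => pe_nonneg hG σ e) (fun e _ => pe_le_one hG σ e)
                  (fun A _ => hF.lip _ _)
            _ ≤ _ := by
                rw [EE_mul]
                exact mul_le_mul_of_nonneg_left h5 hθ
      _ = _ := by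
          rw [Finset.sum_const, nsmul_eq_mul, Finset.card_univ, Fintype.card_fin]
          field_simp
  -- conclusion
  set Λ : ℝ := θ * (a - b) ^ 2 / 2 with hΛ
  have hcn : 0 ≤ c / n := div_nonneg hc hn.le
  have e2 : θ * (a - b) ^ 2 * m = 2 * Λ * m := by rw [hΛ]; ring
  have e3 : 2 * θ * (a - b) ^ 2 * m = 4 * Λ * m := by rw [hΛ]; ring
  rw [e2] at h1
  rw [e3]
  have hΛ1 : 1 ≤ Λ := by linarith
  have h6 : θ * (2 * c * (m / n) * t * (θ * m) ^ t) ≤ c / n * (2 * t * Λ ^ (t + 1)) := by
    have : θ * (2 * c * (m / n) * t * (θ * m) ^ t) = c / n * (2 * t * (θ * m) ^ (t + 1)) := by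
      ring
    rw [this]
    apply mul_le_mul_of_nonneg_left _ hcn
    have h7 : (θ * m) ^ (t + 1) ≤ Λ ^ (t + 1) := pow_le_pow_left₀ (by linarith) hA _
    have : (0 : ℝ) ≤ 2 * t := by positivity
    exact mul_le_mul_of_nonneg_left h7 this
  have h8 : 0 ≤ c / n * Λ ^ (t + 1) := by positivity
  have h9 : 0 ≤ c / n * (4 * Λ ^ (t + 1)) := by positivity
  calc avg a b (fun σ A => ∫ v, (Zw σ univ (u A) v) ^ 2)
      ≤ 2 * (c / n * (6 + 2 * Λ * m) * (t + 1) * Λ ^ (t + 1))
        + 2 * (c / n * (2 * t * Λ ^ (t + 1))) := by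
        refine h3.trans ?_
        have h10 := h4.trans h6
        linarith
    _ ≤ c / n * (16 + 4 * Λ * m) * (t + 1) * Λ ^ (t + 1) := by
        have e4 : c / n * (16 + 4 * Λ * m) * (t + 1) * Λ ^ (t + 1)
            = 2 * (c / n * (6 + 2 * Λ * m) * (t + 1) * Λ ^ (t + 1))
              + 2 * (c / n * (2 * t * Λ ^ (t + 1))) + c / n * (4 * Λ ^ (t + 1)) := by ring
        rw [e4]
        linarith

end Pool.Agent.Helper72.BPA
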