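import Pool.Agent.Helper72.BPA.St

set_option autoImplicit false

namespace Pool.Agent.Helper72.BPA

open Finset MeasureTheory Pool.Agent.Helper87.BP Pool.Agent.Helper42.BPX

section

variable {κ : Type*} [DecidableEq κ]

private lemma EE_empty' (p : κ → ℝ) (F : Finset κ → ℝ) : EE p ∅ F = F ∅ := by
  unfold EE wt
  simp

private lemma EE_singleton' (p : κ → ℝ) (z : κ) (F : Finset κ → ℝ) :
    EE p {z} F = p z * F {z} + (1 - p z) * F ∅ := by
  unfold EE wt
  have h : (∑ A ∈ ({z} : Finset κ).powerset,
      ((∏ x ∈ A, p x) * ∏ x ∈ ({z} : Finset κ) \ A, (1 - p x)) * F A) =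
      ∑ A ∈ (insert z (∅ : Finset κ)).powerset,
      ((∏ x ∈ A, p x) * ∏ x ∈ ({z} : Finset κ) \ A, (1 - p x)) * F A := rfl
  rw [h, Finset.sum_powerset_insert (Finset.notMem_empty z), Finset.powerset_empty,
    Finset.sum_singleton, Finset.sum_singleton]
  simp
  ring

private lemma EE_insert' (p : κ → ℝ) {z : κ} {T : Finset κ} (hz : z ∉ T) (F : Finset κ → ℝ) :
    EE p (insert z T) F = p z * EE p T (fun N => F (insert z N)) + (1 - p z) * EE p T F := by
  have hd : Disjoint ({z} : Finset κ) T := Finset.disjoint_singleton_left.2 hz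
  rw [Finset.insert_eq, EE_union hd, EE_singleton']
  simp only [Finset.empty_union, ← Finset.insert_eq]

end

theorem m_russo : S_russo := by
  intro κ _ T p0 p1 F τ
  induction T using Finset.induction_on generalizing F with
  | empty =>
    have h : (fun τ : ℝ => EE (fun y => p0 y + τ * (p1 y - p0 y)) (∅ : Finset κ) F) =
        fun _ => F ∅ := by
      funext s
      exact EE_empty' _ F
    rw [h, Finset.sum_empty]
    exact hasDerivAt_const τ (F ∅)
  | insert z T hz ih =>
    have h : (fun τ : ℝ => EE (fun y => p0 y + τ * (p1 y - p0 y)) (insert z T) F) =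
        fun τ : ℝ => (p0 z + τ * (p1 z - p0 z)) *
          EE (fun y => p0 y + τ * (p1 y - p0 y)) T (fun N => F (insert z N)) +
          (1 - (p0 z + τ * (p1 z - p0 z))) * EE (fun y => p0 y + τ * (p1 y - p0 y)) T F := by
      funext s
      exact EE_insert' _ hz F
    rw [h]
    have hp : HasDerivAt (fun τ : ℝ => p0 z + τ * (p1 z - p0 z)) (p1 z - p0 z) τ := by
      have := ((hasDerivAt_id τ).mul_const (p1 z - p0 z)).const_add (p0 z)
      simpa using this
    have hq : HasDerivAt (fun τ : ℝ => 1 - (p0 z + τ * (p1 z - p0 z))) (-(p1 z - p0 z)) τ := by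
      simpa using hp.const_sub 1
    have hd := (hp.mul (ih (fun N => F (insert z N)))).add (hq.mul (ih F))
    refine hd.congr_deriv ?_
    set P : κ → ℝ := fun y => p0 y + τ * (p1 y - p0 y) with hP
    rw [Finset.sum_insert hz, EE_insert' P hz]
    have e1 : EE P T (fun N => F (insert z (insert z N)) - F ((insert z N).erase z)) =
        EE P T (fun N => F (insert z N)) - EE P T F := by
      rw [← EE_sub]
      refine EE_congr fun N hN => ?_
      have hzN : z ∉ N := fun h => hz (hN h)
      rw [Finset.insert_idem, Finset.erase_insert hzN]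
    have e2 : EE P T (fun N => F (insert z N) - F (N.erase z)) =
        EE P T (fun N => F (insert z N)) - EE P T F := by
      rw [← EE_sub]
      refine EE_congr fun N hN => ?_
      have hzN : z ∉ N := fun h => hz (hN h)
      rw [Finset.erase_eq_of_notMem hzN]
    have e3 : ∑ y ∈ T, (p1 y - p0 y) * EE P (insert z T) (fun N => F (insert y N) - F (N.erase y)) =
        P z * (∑ y ∈ T, (p1 y - p0 y) *
          EE P T (fun N => F (insert z (insert y N)) - F (insert z (N.erase y)))) +
        (1 - P z) * ∑ y ∈ T, (p1 y - p0 y) * EE P T (fun N => F (insert y N) - F (N.erase y)) := by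
      rw [Finset.mul_sum, Finset.mul_sum, ← Finset.sum_add_distrib]
      refine Finset.sum_congr rfl fun y hy => ?_
      have hyz : y ≠ z := fun h => hz (h ▸ hy)
      rw [EE_insert' P hz]
      have e4 : EE P T (fun N => F (insert y (insert z N)) - F ((insert z N).erase y)) =
          EE P T (fun N => F (insert z (insert y N)) - F (insert z (N.erase y))) := by
        refine EE_congr fun N hN => ?_
        rw [Finset.insert_comm, Finset.erase_insert_of_ne (Ne.symm hyz)]
      rw [e4]
      ring
    rw [e1, e2, e3]
    ring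

end Pool.Agent.Helper72.BPA
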