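import Pool.Agent.Helper72.BPA.St

/-!
# Part A, module STEP: the recursion step
-/

set_option autoImplicit false

namespace Pool.Agent.Helper72.BPA

open Finset MeasureTheory Pool.Agent.Helper87.BP Pool.Agent.Helper42.BPX

noncomputable section

open Classical

namespace StepAux

variable {n : ℕ} {a b m : ℝ}

lemma pe_bd (hG : GG n a b m) (σ : Fin n → Bool) (e : Sym2 (Fin n)) :
    0 ≤ pe a b σ e ∧ pe a b σ e ≤ m / n := by
  have hn : (0 : ℝ) < n := by exact_mod_cast hG.pos
  induction e using Sym2.ind with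
  | _ i j =>
    rw [pe_mk]
    split_ifs
    · exact ⟨div_nonneg hG.a0 hn.le, div_le_div_of_nonneg_right hG.am hn.le⟩
    · exact ⟨div_nonneg hG.b0 hn.le, div_le_div_of_nonneg_right hG.bm hn.le⟩

lemma mn1 (hG : GG n a b m) : m / n ≤ 1 := by
  have hn : (0 : ℝ) < n := by exact_mod_cast hG.pos
  rw [div_le_one hn]
  exact hG.mn

lemma avg_mono (hG : GG n a b m) {F F' : (Fin n → Bool) → Finset (Sym2 (Fin n)) → ℝ}
    (h : ∀ σ A, F σ A ≤ F' σ A) : avg a b F ≤ avg a b F' := by
  unfold avg
  refine div_le_div_of_nonneg_right (Finset.sum_le_sum fun σ _ => ?_) (by positivity)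
  exact EE_mono (fun e _ => (pe_bd hG σ e).1) (fun e _ => (pe_bd hG σ e).2.trans (mn1 hG))
    (fun A _ => h σ A)

lemma avg_le {F : (Fin n → Bool) → Finset (Sym2 (Fin n)) → ℝ} {C : ℝ}
    (h : ∀ σ, EE (pe a b σ) (prs n) (F σ) ≤ C) : avg a b F ≤ C := by
  unfold avg
  rw [div_le_iff₀ (by positivity)]
  calc ∑ σ : Fin n → Bool, EE (pe a b σ) (prs n) (F σ)
      ≤ ∑ σ : Fin n → Bool, C := Finset.sum_le_sum fun σ _ => h σ
    _ = C * 2 ^ n := by simp [mul_comm]

lemma avg_add (F F' : (Fin n → Bool) → Finset (Sym2 (Fin n)) → ℝ) :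
    avg a b (fun σ A => F σ A + F' σ A) = avg a b F + avg a b F' := by
  unfold avg
  rw [← add_div, ← Finset.sum_add_distrib]
  congr 1
  refine Finset.sum_congr rfl fun σ _ => ?_
  exact EE_add _ _ _ _

lemma avg_sum {κ : Type*} (K : Finset κ)
    (F : κ → (Fin n → Bool) → Finset (Sym2 (Fin n)) → ℝ) :
    avg a b (fun σ A => ∑ k ∈ K, F k σ A) = ∑ k ∈ K, avg a b (F k) := by
  unfold avg
  rw [← Finset.sum_div, Finset.sum_comm]
  congr 1
  refine Finset.sum_congr rfl fun σ _ => ?_
  exact EE_sum _ _ _ _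

lemma avg_div (c : ℝ) (F : (Fin n → Bool) → Finset (Sym2 (Fin n)) → ℝ) :
    avg a b (fun σ A => F σ A / c) = avg a b F / c := by
  have h : ∀ σ, EE (pe a b σ) (prs n) (fun A => F σ A / c)
      = EE (pe a b σ) (prs n) (F σ) / c := by
    intro σ
    have h1 : (fun A => F σ A / c) = fun A => F σ A * c⁻¹ := by
      funext A; rw [div_eq_mul_inv]
    rw [h1, EE_mul_right, div_eq_mul_inv]
  show (∑ σ : Fin n → Bool, EE (pe a b σ) (prs n) (fun A => F σ A / c)) / 2 ^ n
    = (∑ σ : Fin n → Bool, EE (pe a b σ) (prs n) (F σ)) / 2 ^ n / c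
  rw [Finset.sum_congr rfl (fun σ _ => h σ), ← Finset.sum_div, div_right_comm]

lemma lab_sq (σ : Fin n → Bool) (i : Fin n) : lab σ i * lab σ i = 1 := by
  unfold lab
  split_ifs <;> norm_num

lemma lab_abs (σ : Fin n → Bool) (i : Fin n) : |lab σ i| = 1 := by
  unfold lab
  split_ifs <;> norm_num

end StepAux

open StepAux

theorem m_step (hs : S_st) (hx : S_expand) (hi : S_inf) (hw : S_swInter) (hp : S_pair) :
    S_step := by
  intro n a b m c θ f g hG hF hθ hg s E hE S
  obtain ⟨-, -, -, -, -, hkd, hkl, -⟩ := hs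
  have hn : (0 : ℝ) < n := by exact_mod_cast hG.pos
  have hm0 : 0 ≤ m := hG.a0.trans hG.am
  have hq1 := mn1 hG
  have hq0 : 0 ≤ m / n := div_nonneg hm0 hn.le
  have hθm : 0 ≤ θ * m := mul_nonneg hF.th hm0
  have hnq : (n : ℝ) * (m / n) ≤ m := by rw [mul_div_cancel₀ _ hn.ne']
  set u : Finset (Sym2 (Fin n)) → Fin n → ℝ := fun A i => f (sw f g A (s + 1) (S.erase i) i)
    with hu
  set t : Fin n → Fin n → ℝ := fun i j =>
    avg a b (fun σ A => lab σ i * lab σ j * kk (u A i) (u A j)) with ht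
  have haa : aa a b f g (s + 1) S = (∑ i ∈ S, ∑ j ∈ S, t i j) / (n : ℝ) ^ 2 := by
    unfold aa
    have h1 : (fun (σ : Fin n → Bool) (A : Finset (Sym2 (Fin n))) =>
        ∫ v, (Zw σ S (fun i => f (sw f g A (s + 1) (S.erase i) i)) v) ^ 2)
        = fun σ A => (∑ i ∈ S, ∑ j ∈ S, lab σ i * lab σ j * kk (u A i) (u A j)) / (n : ℝ) ^ 2 := by
      funext σ A
      exact hx n σ S (u A)
    rw [h1, avg_div]
    congr 1
    rw [avg_sum]
    refine Finset.sum_congr rfl fun i _ => ?_
    rw [avg_sum]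
  set B : ℝ := 4 * θ * c * (m / n) * (θ * m) ^ (s + 1) + θ * ((a - b) / n) ^ 2 * m ^ 2 * c
    + θ * (a - b) ^ 2 / 2 * E with hB
  have hE0 : 0 ≤ E := by
    have h1 := hE ∅
    have h2 : aa a b f g s ∅ = 0 := by
      unfold aa avg Zw
      simp [EE_const]
    rwa [h2] at h1
  have hB0 : 0 ≤ B := by
    have := hF.th
    have := hF.c0
    positivity
  have hdiag : ∀ i, t i i ≤ c := by
    intro i
    apply avg_le
    intro σ
    apply EE_le_const (fun e _ => (pe_bd hG σ e).1) (fun e _ => (pe_bd hG σ e).2.trans hq1)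
    intro A _
    rw [lab_sq, one_mul, hkd]
    exact hF.bd _
  have hoff : ∀ i j, i ≠ j → t i j ≤ B := by
    intro i j hij
    set T : Finset (Fin n) := (S.erase i).erase j with hT
    have hT' : T = (S.erase j).erase i := Finset.erase_right_comm
    have hiT : i ∉ T := by rw [hT']; exact Finset.notMem_erase _ _
    have hjT : j ∉ T := Finset.notMem_erase _ _
    set w : Finset (Sym2 (Fin n)) → Fin n → ℝ := fun A y => f (sw f g A s (T.erase y) y) with hww
    have hwT : ∀ A, ∀ y ∈ T, w (A ∩ prsIn T) y = w A y := by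
      intro A y hy
      simp only [hww]
      rw [hw n f g A s (T.erase y) T y (by rw [Finset.insert_erase hy])]
    have hpair := hp n a b m c θ f hG hF T i j hij hiT hjT w w (fun A y _ => hF.bd _)
      (fun A y _ => hF.bd _) hwT hwT
    have haaT : avg a b (fun σ A => ∫ v, (Zw σ T (w A) v) ^ 2) = aa a b f g s T := rfl
    rw [haaT] at hpair
    have hET := hE T
    -- comparison
    have hcomp : ∀ σ A, lab σ i * lab σ j * kk (u A i) (u A j)
        ≤ lab σ i * lab σ j * kk (f (∑ y ∈ T, ind (Adj A y i) * w A y))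
            (f (∑ y ∈ T, ind (Adj A y j) * w A y))
          + (θ * |sw f g A (s + 1) (S.erase i) i - sw f g A (s + 1) ((S.erase i).erase j) i|
          + θ * |sw f g A (s + 1) (S.erase j) j - sw f g A (s + 1) ((S.erase j).erase i) j|) := by
      intro σ A
      rw [← hT, ← hT']
      have e1 : f (∑ y ∈ T, ind (Adj A y i) * w A y) = f (sw f g A (s + 1) T i) := rfl
      have e2 : f (∑ y ∈ T, ind (Adj A y j) * w A y) = f (sw f g A (s + 1) T j) := rfl
      rw [e1, e2]
      have h1 := hkl (u A i) (u A j) (f (sw f g A (s + 1) T i)) (f (sw f g A (s + 1) T j))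
      have h2 : |u A i - f (sw f g A (s + 1) T i)|
          ≤ θ * |sw f g A (s + 1) (S.erase i) i - sw f g A (s + 1) T i| := hF.lip _ _
      have h3 : |u A j - f (sw f g A (s + 1) T j)|
          ≤ θ * |sw f g A (s + 1) (S.erase j) j - sw f g A (s + 1) T j| := hF.lip _ _
      have h4 : lab σ i * lab σ j * (kk (u A i) (u A j)
          - kk (f (sw f g A (s + 1) T i)) (f (sw f g A (s + 1) T j)))
          ≤ |kk (u A i) (u A j) - kk (f (sw f g A (s + 1) T i)) (f (sw f g A (s + 1) T j))| := by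
        refine (le_abs_self _).trans ?_
        rw [abs_mul, abs_mul, lab_abs, lab_abs, one_mul, one_mul]
      have h5 : lab σ i * lab σ j * (kk (u A i) (u A j)
          - kk (f (sw f g A (s + 1) T i)) (f (sw f g A (s + 1) T j)))
          = lab σ i * lab σ j * kk (u A i) (u A j)
          - lab σ i * lab σ j * kk (f (sw f g A (s + 1) T i)) (f (sw f g A (s + 1) T j)) := by
        ring
      linarith
    have h1 := avg_mono hG hcomp
    rw [avg_add, avg_add] at h1
    have hinf : ∀ i j : Fin n, avg a b (fun (_ : Fin n → Bool) A =>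
        θ * |sw f g A (s + 1) (S.erase i) i - sw f g A (s + 1) ((S.erase i).erase j) i|)
        ≤ θ * (2 * c * (m / n) * (θ * m) ^ (s + 1)) := by
      intro i j
      apply avg_le
      intro σ
      rw [EE_mul]
      refine mul_le_mul_of_nonneg_left ?_ hF.th
      exact hi n (pe a b σ) (m / n) m c θ f g (fun e => (pe_bd hG σ e).1)
        (fun e => (pe_bd hG σ e).2) hq1 hnq hθ hF hg (s + 1) (S.erase i) i j
        (Finset.notMem_erase _ _)
    have h2 := hinf i j
    have h3 := hinf j i
    have hk : 0 ≤ θ * (a - b) ^ 2 / 4 := by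
      have := hF.th
      positivity
    have h4 : θ * (a - b) ^ 2 / 4 * (aa a b f g s T + aa a b f g s T)
        ≤ θ * (a - b) ^ 2 / 4 * (E + E) := mul_le_mul_of_nonneg_left (by linarith) hk
    have h5 : t i j ≤ avg a b (fun σ A => lab σ i * lab σ j *
        kk (f (∑ y ∈ T, ind (Adj A y i) * w A y)) (f (∑ y ∈ T, ind (Adj A y j) * w A y)))
        + (avg a b (fun (_ : Fin n → Bool) A =>
          θ * |sw f g A (s + 1) (S.erase i) i - sw f g A (s + 1) ((S.erase i).erase j) i|)
        + avg a b (fun (_ : Fin n → Bool) A =>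
          θ * |sw f g A (s + 1) (S.erase j) j - sw f g A (s + 1) ((S.erase j).erase i) j|)) := h1
    rw [hB]
    nlinarith
  have hcardS : (S.card : ℝ) ≤ n := by
    have := Finset.card_le_univ S
    rw [Fintype.card_fin] at this
    exact_mod_cast this
  have hsum : ∑ i ∈ S, ∑ j ∈ S, t i j ≤ n * c + (n : ℝ) ^ 2 * B := by
    have h1 : ∀ i ∈ S, ∑ j ∈ S, t i j ≤ c + n * B := by
      intro i hiS
      calc ∑ j ∈ S, t i j ≤ ∑ j ∈ S, ((if j = i then c else 0) + B) := by
            refine Finset.sum_le_sum fun j _ => ?_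
            by_cases h : j = i
            · rw [if_pos h, h]
              linarith [hdiag i]
            · rw [if_neg h, zero_add]
              exact hoff i j (Ne.symm h)
        _ = c + S.card * B := by
            rw [Finset.sum_add_distrib, Finset.sum_ite_eq', if_pos hiS, Finset.sum_const,
              nsmul_eq_mul]
        _ ≤ c + n * B := by nlinarith
    calc ∑ i ∈ S, ∑ j ∈ S, t i j ≤ ∑ i ∈ S, (c + n * B) := Finset.sum_le_sum h1
      _ = S.card * (c + n * B) := by rw [Finset.sum_const, nsmul_eq_mul]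
      _ ≤ n * (c + n * B) := by
          refine mul_le_mul_of_nonneg_right hcardS ?_
          have := hF.c0
          positivity
      _ = n * c + (n : ℝ) ^ 2 * B := by ring
  rw [haa]
  calc (∑ i ∈ S, ∑ j ∈ S, t i j) / (n : ℝ) ^ 2 ≤ (n * c + (n : ℝ) ^ 2 * B) / (n : ℝ) ^ 2 :=
        div_le_div_of_nonneg_right hsum (by positivity)
    _ = c / n + B := by field_simp
    _ = _ := by rw [hB]; ring

end

end Pool.Agent.Helper72.BPA
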