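import Pool.Agent.Helper72.BPA.St

/-!
# Module STEP0: first step of the recursion
-/

set_option autoImplicit false

namespace Pool.Agent.Helper72.BPA

open Finset MeasureTheory Pool.Agent.Helper87.BP Pool.Agent.Helper42.BPX

noncomputable section

open Classical

namespace Step0

variable {n : ℕ}

lemma pe_nonneg {a b m : ℝ} (hg : GG n a b m) (σ : Fin n → Bool) (e : Sym2 (Fin n)) :
    0 ≤ pe a b σ e := by
  induction e using Sym2.ind with
  | _ i j =>
    rw [pe_mk]
    have hn : (0 : ℝ) < n := by exact_mod_cast hg.pos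
    split_ifs
    · exact div_nonneg hg.a0 hn.le
    · exact div_nonneg hg.b0 hn.le

lemma pe_le {a b m : ℝ} (hg : GG n a b m) (σ : Fin n → Bool) (e : Sym2 (Fin n)) :
    pe a b σ e ≤ m / n := by
  induction e using Sym2.ind with
  | _ i j =>
    rw [pe_mk]
    have hn : (0 : ℝ) < n := by exact_mod_cast hg.pos
    split_ifs
    · exact div_le_div_of_nonneg_right hg.am hn.le
    · exact div_le_div_of_nonneg_right hg.bm hn.le

lemma q_le {a b m : ℝ} (hg : GG n a b m) : m / n ≤ 1 := by
  have hn : (0 : ℝ) < n := by exact_mod_cast hg.pos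
  rw [div_le_one hn]
  exact hg.mn

lemma pe_le_one {a b m : ℝ} (hg : GG n a b m) (σ : Fin n → Bool) (e : Sym2 (Fin n)) :
    pe a b σ e ≤ 1 := (pe_le hg σ e).trans (q_le hg)

lemma avg_mono {a b m : ℝ} (hg : GG n a b m) {F G : (Fin n → Bool) → Finset (Sym2 (Fin n)) → ℝ}
    (h : ∀ σ A, F σ A ≤ G σ A) : avg a b F ≤ avg a b G := by
  unfold avg
  refine div_le_div_of_nonneg_right ?_ (by positivity)
  exact Finset.sum_le_sum fun σ _ =>
    EE_mono (fun e _ => pe_nonneg hg σ e) (fun e _ => pe_le_one hg σ e) fun A _ => h σ A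

lemma avg_le {a b m : ℝ} {C : ℝ} {F : (Fin n → Bool) → Finset (Sym2 (Fin n)) → ℝ}
    (h : ∀ σ, EE (pe a b σ) (prs n) (F σ) ≤ C) : avg a b F ≤ C := by
  unfold avg
  rw [div_le_iff₀ (by positivity)]
  refine (Finset.sum_le_sum fun σ _ => h σ).trans ?_
  rw [Finset.sum_const, card_univ, Fintype.card_fun, Fintype.card_bool, Fintype.card_fin,
    nsmul_eq_mul]
  push_cast
  linarith [mul_comm C ((2 : ℝ) ^ n)]

lemma avg_congr {a b : ℝ} {F G : (Fin n → Bool) → Finset (Sym2 (Fin n)) → ℝ}
    (h : ∀ σ A, F σ A = G σ A) : avg a b F = avg a b G := by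
  have : F = G := by
    funext σ A
    exact h σ A
  rw [this]

lemma avg_add (a b : ℝ) (F G : (Fin n → Bool) → Finset (Sym2 (Fin n)) → ℝ) :
    avg a b (fun σ A => F σ A + G σ A) = avg a b F + avg a b G := by
  unfold avg
  rw [← add_div, ← Finset.sum_add_distrib]
  congr 1
  exact Finset.sum_congr rfl fun σ _ => EE_add _ _ _ _

lemma avg_mul_right (a b c : ℝ) (F : (Fin n → Bool) → Finset (Sym2 (Fin n)) → ℝ) :
    avg a b (fun σ A => F σ A * c) = avg a b F * c := by
  unfold avg
  rw [div_mul_eq_mul_div, Finset.sum_mul]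
  congr 1
  exact Finset.sum_congr rfl fun σ _ => EE_mul_right _ _ _ _

lemma avg_sum {κ : Type*} (a b : ℝ) (K : Finset κ)
    (F : κ → (Fin n → Bool) → Finset (Sym2 (Fin n)) → ℝ) :
    avg a b (fun σ A => ∑ k ∈ K, F k σ A) = ∑ k ∈ K, avg a b (F k) := by
  unfold avg
  rw [← Finset.sum_div, Finset.sum_comm]
  congr 1
  exact Finset.sum_congr rfl fun σ _ => EE_sum _ _ _ _

lemma lab_sq (σ : Fin n → Bool) (i : Fin n) : lab σ i * lab σ i = 1 := by
  unfold lab
  split_ifs <;> norm_num

lemma abs_lab (σ : Fin n → Bool) (i : Fin n) : |lab σ i| = 1 := by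
  unfold lab
  split_ifs <;> norm_num

/-- diagonal and reduction of the off-diagonal terms to disjoint sets -/
theorem core {a b m c θ : ℝ} {f : ℝ → ℝ} {g : Fin n → Fin n → ℝ} (hs : S_st) (hx : S_expand)
    (hi : S_inf) (hg : GG n a b m) (hf : FF c θ f) (hm : 2 ≤ θ * m) (hgc : ∀ y x, |g y x| ≤ c)
    (s : ℕ) (S : Finset (Fin n)) (X : ℝ) (hX0 : 0 ≤ X)
    (hX : ∀ i ∈ S, ∀ j ∈ S, i ≠ j → avg a b (fun σ A => lab σ i * lab σ j *
      kk (f (sw f g A s ((S.erase i).erase j) i)) (f (sw f g A s ((S.erase i).erase j) j))) ≤ X) :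
    aa a b f g s S ≤ c / n + 4 * θ * c * (m / n) * (θ * m) ^ s + X := by
  obtain ⟨-, -, -, -, -, hkx, hkl, -⟩ := hs
  have hn : (0 : ℝ) < n := by exact_mod_cast hg.pos
  have hc := hf.c0
  have hθ := hf.th
  have hm0 : 0 ≤ m := hg.a0.trans hg.am
  set Er : ℝ := 4 * θ * c * (m / n) * (θ * m) ^ s with hEr
  have hEr0 : 0 ≤ Er := by positivity
  have e1 : aa a b f g s S = ∑ i ∈ S, ∑ j ∈ S, avg a b (fun σ A => lab σ i * lab σ j *
      kk (f (sw f g A s (S.erase i) i)) (f (sw f g A s (S.erase j) j))) / (n : ℝ) ^ 2 := by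
    unfold aa
    have : (fun (σ : Fin n → Bool) (A : Finset (Sym2 (Fin n))) =>
        ∫ v, (Zw σ S (fun i => f (sw f g A s (S.erase i) i)) v) ^ 2)
        = fun σ A => (∑ i ∈ S, ∑ j ∈ S, lab σ i * lab σ j *
          kk (f (sw f g A s (S.erase i) i)) (f (sw f g A s (S.erase j) j))) * ((n : ℝ) ^ 2)⁻¹ := by
      funext σ A
      rw [hx, div_eq_mul_inv]
    rw [this, avg_mul_right, avg_sum, Finset.sum_mul]
    refine Finset.sum_congr rfl fun i _ => ?_
    rw [avg_sum, Finset.sum_mul]
    refine Finset.sum_congr rfl fun j _ => ?_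
    rw [div_eq_mul_inv]
  have hd : ∀ i, avg a b (fun σ A => lab σ i * lab σ i *
      kk (f (sw f g A s (S.erase i) i)) (f (sw f g A s (S.erase i) i))) ≤ c := by
    intro i
    refine avg_le (m := m) fun σ => ?_
    refine EE_le_const (fun e _ => pe_nonneg hg σ e) (fun e _ => pe_le_one hg σ e) fun A _ => ?_
    rw [lab_sq, one_mul, hkx]
    exact hf.bd _
  have ho : ∀ i ∈ S, ∀ j ∈ S, i ≠ j → avg a b (fun σ A => lab σ i * lab σ j *
      kk (f (sw f g A s (S.erase i) i)) (f (sw f g A s (S.erase j) j))) ≤ Er + X := by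
    intro i hiS j hjS hij
    have hT : (S.erase j).erase i = (S.erase i).erase j := by
      rw [Finset.erase_right_comm]
    have h1 : avg a b (fun σ A => lab σ i * lab σ j *
        kk (f (sw f g A s (S.erase i) i)) (f (sw f g A s (S.erase j) j)))
        ≤ avg a b (fun σ A => (|f (sw f g A s (S.erase i) i)
              - f (sw f g A s ((S.erase i).erase j) i)|
            + |f (sw f g A s (S.erase j) j) - f (sw f g A s ((S.erase i).erase j) j)|)
          + lab σ i * lab σ j * kk (f (sw f g A s ((S.erase i).erase j) i))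
            (f (sw f g A s ((S.erase i).erase j) j))) := by
      refine avg_mono hg fun σ A => ?_
      have h := hkl (f (sw f g A s (S.erase i) i)) (f (sw f g A s (S.erase j) j))
        (f (sw f g A s ((S.erase i).erase j) i)) (f (sw f g A s ((S.erase i).erase j) j))
      have h2 : lab σ i * lab σ j *
          (kk (f (sw f g A s (S.erase i) i)) (f (sw f g A s (S.erase j) j))
            - kk (f (sw f g A s ((S.erase i).erase j) i)) (f (sw f g A s ((S.erase i).erase j) j)))
          ≤ |kk (f (sw f g A s (S.erase i) i)) (f (sw f g A s (S.erase j) j))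
            - kk (f (sw f g A s ((S.erase i).erase j) i))
              (f (sw f g A s ((S.erase i).erase j) j))| := by
        refine (le_abs_self _).trans ?_
        rw [abs_mul, abs_mul, abs_lab, abs_lab, one_mul, one_mul]
      rw [mul_sub] at h2
      linarith
    refine h1.trans ?_
    rw [avg_add]
    refine add_le_add ?_ (hX i hiS j hjS hij)
    refine avg_le (m := m) fun σ => ?_
    rw [EE_add]
    have hE : ∀ (S' : Finset (Fin n)) (x y : Fin n), x ∉ S' →
        EE (pe a b σ) (prs n) (fun A => |f (sw f g A s S' x) - f (sw f g A s (S'.erase y) x)|)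
          ≤ θ * (2 * c * (m / n) * (θ * m) ^ s) := by
      intro S' x y hxS
      have h3 := hi n (pe a b σ) (m / n) m c θ f g (pe_nonneg hg σ) (pe_le hg σ) (q_le hg)
        (by rw [mul_div_cancel₀ _ hn.ne']) hm hf hgc s S' x y hxS
      refine le_trans (EE_mono (fun e _ => pe_nonneg hg σ e) (fun e _ => pe_le_one hg σ e)
        fun A _ => hf.lip _ _) ?_
      rw [EE_mul]
      exact mul_le_mul_of_nonneg_left h3 hθ
    have h4 := hE (S.erase i) i j (Finset.notMem_erase _ _)
    have h5 := hE (S.erase j) j i (Finset.notMem_erase _ _)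
    rw [hT] at h5
    rw [hEr]
    nlinarith [h4, h5]
  rw [e1]
  have h6 : ∀ i ∈ S, ∑ j ∈ S, avg a b (fun σ A => lab σ i * lab σ j *
      kk (f (sw f g A s (S.erase i) i)) (f (sw f g A s (S.erase j) j))) / (n : ℝ) ^ 2
      ≤ c / (n : ℝ) ^ 2 + (Er + X) / n := by
    intro i hiS
    rw [← Finset.add_sum_erase _ _ hiS]
    refine add_le_add (div_le_div_of_nonneg_right (hd i) (by positivity)) ?_
    have h7 : ∑ j ∈ S.erase i, avg a b (fun σ A => lab σ i * lab σ j *
      kk (f (sw f g A s (S.erase i) i)) (f (sw f g A s (S.erase j) j))) / (n : ℝ) ^ 2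
      ≤ ∑ j ∈ S.erase i, (Er + X) / (n : ℝ) ^ 2 := by
      refine Finset.sum_le_sum fun j hj => ?_
      rw [mem_erase] at hj
      exact div_le_div_of_nonneg_right (ho i hiS j hj.2 (Ne.symm hj.1)) (by positivity)
    refine h7.trans ?_
    rw [Finset.sum_const, nsmul_eq_mul]
    have h8 : ((S.erase i).card : ℝ) ≤ n := by
      have := Finset.card_le_univ (S.erase i)
      rw [Fintype.card_fin] at this
      exact_mod_cast this
    have h9 : 0 ≤ (Er + X) / (n : ℝ) ^ 2 := by positivity
    calc ((S.erase i).card : ℝ) * ((Er + X) / (n : ℝ) ^ 2) ≤ n * ((Er + X) / (n : ℝ) ^ 2) :=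
          mul_le_mul_of_nonneg_right h8 h9
      _ = (Er + X) / n := by
          field_simp
  refine (Finset.sum_le_sum h6).trans ?_
  rw [Finset.sum_const, nsmul_eq_mul]
  have h8 : ((S.card : ℕ) : ℝ) ≤ n := by
    have := Finset.card_le_univ S
    rw [Fintype.card_fin] at this
    exact_mod_cast this
  have h9 : 0 ≤ c / (n : ℝ) ^ 2 + (Er + X) / n := by positivity
  calc ((S.card : ℕ) : ℝ) * (c / (n : ℝ) ^ 2 + (Er + X) / n)
      ≤ n * (c / (n : ℝ) ^ 2 + (Er + X) / n) := mul_le_mul_of_nonneg_right h8 h9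
    _ = c / n + Er + X := by
        field_simp
        ring

/-- the labels are orthogonal -/
lemma sum_lab {i j : Fin n} (hij : i ≠ j) : ∑ σ : Fin n → Bool, lab σ i * lab σ j = 0 := by
  have h : ∑ σ : Fin n → Bool, lab σ i * lab σ j
      = ∑ σ : Fin n → Bool, - (lab σ i * lab σ j) := by
    have hinv : Function.Involutive (fun σ : Fin n → Bool => Function.update σ i (!(σ i))) := by
      intro σ
      funext k
      by_cases hk : k = i
      · subst hk
        simp
      · simp [Function.update_of_ne hk]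
    rw [← Equiv.sum_comp hinv.toPerm]
    refine Finset.sum_congr rfl fun σ _ => ?_
    simp only [Function.Involutive.coe_toPerm]
    unfold lab
    rw [Function.update_self, Function.update_of_ne (Ne.symm hij)]
    cases σ i <;> cases σ j <;> norm_num
  rw [Finset.sum_neg_distrib] at h
  linarith

/-- second moment for deterministic values -/
lemma det {a b m c : ℝ} (hs : S_st) (hx : S_expand) (hg : GG n a b m) (hc : 0 ≤ c)
    (T : Finset (Fin n)) (w : Fin n → ℝ) (hw : ∀ y, |w y| ≤ c) :
    avg a b (fun σ _ => ∫ v, (Zw σ T w v) ^ 2) ≤ c / n := by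
  obtain ⟨-, -, -, -, -, hkx, -, -⟩ := hs
  have hn : (0 : ℝ) < n := by exact_mod_cast hg.pos
  have e1 : avg a b (fun σ (_ : Finset (Sym2 (Fin n))) => ∫ v, (Zw σ T w v) ^ 2)
      = (∑ i ∈ T, |w i|) / (n : ℝ) ^ 2 := by
    unfold avg
    simp only [EE_const]
    have e2 : ∑ σ : Fin n → Bool, ∫ v, (Zw σ T w v) ^ 2
        = 2 ^ n * ((∑ i ∈ T, |w i|) / (n : ℝ) ^ 2) := by
      have e3 : ∀ σ : Fin n → Bool, ∫ v, (Zw σ T w v) ^ 2
          = (∑ i ∈ T, ∑ j ∈ T, lab σ i * lab σ j * kk (w i) (w j)) * ((n : ℝ) ^ 2)⁻¹ := by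
        intro σ
        rw [hx, div_eq_mul_inv]
      simp only [e3]
      rw [← Finset.sum_mul, Finset.sum_comm]
      have e4 : ∀ i ∈ T, ∑ σ : Fin n → Bool, ∑ j ∈ T, lab σ i * lab σ j * kk (w i) (w j)
          = 2 ^ n * |w i| := by
        intro i hiT
        rw [Finset.sum_comm, ← Finset.add_sum_erase _ _ hiT]
        have e5 : ∑ j ∈ T.erase i, ∑ σ : Fin n → Bool, lab σ i * lab σ j * kk (w i) (w j) = 0 := by
          refine Finset.sum_eq_zero fun j hj => ?_
          rw [mem_erase] at hj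
          rw [← Finset.sum_mul, sum_lab (Ne.symm hj.1), zero_mul]
        rw [e5, add_zero]
        simp only [lab_sq, one_mul, hkx]
        rw [Finset.sum_const, card_univ, Fintype.card_fun, Fintype.card_bool, Fintype.card_fin,
          nsmul_eq_mul]
        push_cast
        ring
      rw [Finset.sum_congr rfl e4, ← Finset.mul_sum]
      ring
    rw [e2]
    have h2 : (2 : ℝ) ^ n ≠ 0 := by positivity
    field_simp
  rw [e1]
  have h1 : ∑ i ∈ T, |w i| ≤ n * c := by
    refine (Finset.sum_le_sum fun i _ => hw i).trans ?_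
    rw [Finset.sum_const, nsmul_eq_mul]
    refine mul_le_mul_of_nonneg_right ?_ hc
    have := Finset.card_le_univ T
    rw [Fintype.card_fin] at this
    exact_mod_cast this
  rw [div_le_div_iff₀ (by positivity) hn]
  nlinarith [h1, hn]

end Step0

theorem m_step0 (hs : S_st) (hx : S_expand) (hi : S_inf) (_hw : S_swInter) (hp : S_pair) :
    S_step0 := by
  intro n a b m c θ f g hg hf hm hgc S
  have hn : (0 : ℝ) < n := by exact_mod_cast hg.pos
  have hc := hf.c0
  have hθ := hf.th
  have h := Step0.core hs hx hi hg hf hm hgc 0 S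
    (θ * ((a - b) / n) ^ 2 * m ^ 2 * c + θ * (a - b) ^ 2 / 2 * (c / n)) (by positivity) ?_
  · rw [pow_zero, mul_one] at h
    linarith
  · intro i _ j _ hij
    have h1 := hp n a b m c θ f hg hf ((S.erase i).erase j) i j hij
      (fun h => Finset.notMem_erase i S (Finset.mem_of_mem_erase h))
      (Finset.notMem_erase _ _) (fun _ y => g y i) (fun _ y => g y j)
      (fun _ y _ => hgc y i) (fun _ y _ => hgc y j) (fun _ _ _ => rfl) (fun _ _ _ => rfl)
    have h2 := Step0.det hs hx hg hc ((S.erase i).erase j) (fun y => g y i) (fun y => hgc y i)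
    have h3 := Step0.det hs hx hg hc ((S.erase i).erase j) (fun y => g y j) (fun y => hgc y j)
    have h4 : 0 ≤ θ * (a - b) ^ 2 / 4 := by positivity
    have h5 := mul_le_mul_of_nonneg_left (add_le_add h2 h3) h4
    refine le_trans (le_trans h1 (add_le_add_left h5 _)) ?_
    apply le_of_eq
    ring

end

end Pool.Agent.Helper72.BPA
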