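import Pool.Agent.Helper72.BPA.St

set_option autoImplicit false

namespace Pool.Agent.Helper72.BPA

open Finset MeasureTheory Pool.Agent.Helper87.BP Pool.Agent.Helper42.BPX

lemma adj_prsIn {n : ℕ} {A : Finset (Sym2 (Fin n))} {W : Finset (Fin n)} {x y : Fin n}
    (hx : x ∈ W) (hy : y ∈ W) : Adj (A ∩ prsIn W) y x ↔ Adj A y x := by
  unfold Adj
  constructor
  · rintro ⟨h, h'⟩
    exact ⟨h, (mem_inter.1 h').1⟩
  · rintro ⟨h, h'⟩
    refine ⟨h, mem_inter.2 ⟨h', ?_⟩⟩
    unfold prsIn
    rw [mem_filter, mem_prs]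
    refine ⟨h, fun v hv => ?_⟩
    rw [Sym2.mem_iff] at hv
    rcases hv with rfl | rfl
    · exact hy
    · exact hx

theorem m_swInter : S_swInter := by
  intro n f g A s
  induction s with
  | zero =>
    intro S W x hW
    unfold sw
    refine Finset.sum_congr rfl fun y hy => ?_
    rw [ind_congr (adj_prsIn (hW (mem_insert_self _ _)) (hW (mem_insert_of_mem hy)))]
  | succ s ih =>
    intro S W x hW
    unfold sw
    refine Finset.sum_congr rfl fun y hy => ?_
    rw [ind_congr (adj_prsIn (hW (mem_insert_self _ _)) (hW (mem_insert_of_mem hy))),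
      ih (S.erase y) W y (by
        rw [insert_erase hy]
        exact (subset_insert _ _).trans hW)]

end Pool.Agent.Helper72.BPA
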