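import Pool.Agent.Helper72.BPA.St

set_option autoImplicit false

namespace Pool.Agent.Helper72.BPA

open Finset MeasureTheory Pool.Agent.Helper87.BP Pool.Agent.Helper42.BPX

namespace Zee

variable {n : ℕ} {p : Sym2 (Fin n) → ℝ}

lemma ind_adj {A : Finset (Sym2 (Fin n))} {x y : Fin n} (h : y ≠ x) :
    ind (Adj A y x) = ind (s(y, x) ∈ A) :=
  ind_congr ⟨fun h' => h'.2, fun h' => ⟨h, h'⟩⟩

/-- expectation of the indicator of one pair -/
lemma EE_adj {q : ℝ} (hq : ∀ e, p e ≤ q) {x y : Fin n} (h : y ≠ x) :
    EE p (prs n) (fun A => ind (Adj A y x)) ≤ q := by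
  have h1 : EE p (prs n) (fun A => ind (Adj A y x))
      = EE p (prs n) (fun A => ind (s(y, x) ∈ A) * (fun _ => (1 : ℝ)) A) :=
    EE_congr fun A _ => by rw [ind_adj h]; simp
  rw [h1, EE_ind_mul (mem_prs.2 h) (fun _ _ => rfl), EE_const, mul_one]
  exact hq _

end Zee

theorem m_zee (hz : S_zind) : S_zee := by
  intro n p q m c θ hp0 hpq hq1 hm h2 hc hθ s
  have hp1 : ∀ e, p e ≤ 1 := fun e => (hpq e).trans hq1
  -- stronger claim
  have key : ∀ (s : ℕ) (U : Finset (Fin n)) (r x : Fin n), r ∈ U → x ∉ U →
      EE p (prs n) (fun A => zc c θ A s U r x) ≤ c * q * (U.card + s) * (2 * (θ * m) ^ s - 1) := by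
    intro s
    -- first term
    have hfirst : ∀ (U : Finset (Fin n)) (r x : Fin n), x ∉ U →
        EE p (prs n) (fun A => c * ∑ y ∈ U.erase r, ind (Adj A y x)) ≤ c * (U.card * q) := by
      intro U r x hx
      have hq0 : 0 ≤ q := (hp0 s(x, x)).trans (hpq _)
      rw [EE_mul, EE_sum]
      refine mul_le_mul_of_nonneg_left ?_ hc
      calc ∑ y ∈ U.erase r, EE p (prs n) (fun A => ind (Adj A y x))
          ≤ ∑ _y ∈ U.erase r, q := by
            refine Finset.sum_le_sum fun y hy => Zee.EE_adj hpq ?_
            rintro rfl
            exact hx (mem_of_mem_erase hy)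
        _ = ((U.erase r).card : ℝ) * q := by rw [Finset.sum_const, nsmul_eq_mul]
        _ ≤ U.card * q := by
            refine mul_le_mul_of_nonneg_right ?_ hq0
            exact_mod_cast card_le_card (erase_subset _ _)
    induction s with
    | zero =>
      intro U r x hr hx
      have := hfirst U r x hx
      unfold zc
      refine this.trans (le_of_eq ?_)
      simp
      ring
    | succ s ih =>
      intro U r x hr hx
      have hq0 : 0 ≤ q := (hp0 s(x, x)).trans (hpq _)
      unfold zc
      rw [EE_add, EE_mul, EE_mul, EE_sum (K := univ \ insert x U)]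
      have h3 := hfirst U r x hx
      rw [EE_mul] at h3
      set B : ℝ := c * q * ((insert x U).card + s) * (2 * (θ * m) ^ s - 1) with hB
      have hpow : 1 ≤ (θ * m) ^ s := one_le_pow₀ (by linarith)
      have hB0 : 0 ≤ B := by
        rw [hB]
        have : 0 ≤ 2 * (θ * m) ^ s - 1 := by linarith
        positivity
      have h4 : ∑ y ∈ univ \ insert x U,
          EE p (prs n) (fun A => ind (Adj A y x) * zc c θ A s (insert x U) x y) ≤ m * B := by
        calc ∑ y ∈ univ \ insert x U,
              EE p (prs n) (fun A => ind (Adj A y x) * zc c θ A s (insert x U) x y)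
            ≤ ∑ _y ∈ univ \ insert x U, q * B := by
              refine Finset.sum_le_sum fun y hy => ?_
              have hy' : y ∉ insert x U := (mem_sdiff.1 hy).2
              have hyx : y ≠ x := fun h => hy' (h ▸ mem_insert_self _ _)
              have e1 : EE p (prs n) (fun A => ind (Adj A y x) * zc c θ A s (insert x U) x y)
                  = EE p (prs n) (fun A => ind (s(y, x) ∈ A) *
                    (fun A => zc c θ A s (insert x U) x y) A) :=
                EE_congr fun A _ => by rw [Zee.ind_adj hyx]
              rw [e1, EE_ind_mul (mem_prs.2 hyx)]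
              · have h5 := ih (insert x U) x y (mem_insert_self _ _) hy'
                calc p s(y, x) * EE p (prs n) (fun A => zc c θ A s (insert x U) x y)
                    ≤ p s(y, x) * B := mul_le_mul_of_nonneg_left h5 (hp0 _)
                  _ ≤ q * B := mul_le_mul_of_nonneg_right (hpq _) hB0
              · intro A _
                have h6 := hz n c θ (insert s(y, x) A) {s(y, x)} s (insert x U) x y
                  (mem_insert_self _ _) hy' (fun e he => Or.inr (by
                    rw [mem_singleton] at he; exact he))
                have e2 : insert s(y, x) A \ {s(y, x)} = A.erase s(y, x) := by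
                  ext e
                  simp only [mem_sdiff, mem_insert, mem_singleton, mem_erase]
                  tauto
                rw [e2] at h6
                exact h6.symm
          _ = ((univ \ insert x U).card : ℝ) * (q * B) := by
              rw [Finset.sum_const, nsmul_eq_mul]
          _ ≤ n * (q * B) := by
              refine mul_le_mul_of_nonneg_right ?_ (mul_nonneg hq0 hB0)
              have : (univ \ insert x U).card ≤ n := by
                calc _ ≤ (univ : Finset (Fin n)).card := card_le_card sdiff_subset
                  _ = n := by simp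
              exact_mod_cast this
          _ = (n * q) * B := by ring
          _ ≤ m * B := mul_le_mul_of_nonneg_right hm hB0
      have h7 : ((insert x U).card : ℝ) = U.card + 1 := by
        rw [card_insert_of_notMem hx]; push_cast; ring
      have h8 : θ * (m * B) = c * q * (U.card + 1 + s) * (2 * (θ * m) ^ (s + 1) - θ * m) := by
        rw [hB, h7, pow_succ]; ring
      have h9 := mul_le_mul_of_nonneg_left h4 hθ
      rw [h8] at h9
      push_cast
      have hU0 : (0 : ℝ) ≤ U.card := Nat.cast_nonneg _
      have hcq : 0 ≤ c * q := mul_nonneg hc hq0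
      have h10 : c * q * (U.card + 1 + s) * (2 * (θ * m) ^ (s + 1) - θ * m)
          ≤ c * q * (U.card + 1 + s) * (2 * (θ * m) ^ (s + 1) - 2) := by
        refine mul_le_mul_of_nonneg_left (by linarith) ?_
        positivity
      have h11 : c * ((U.card : ℝ) * q) ≤ c * q * (U.card + 1 + s) := by
        have : c * ((U.card : ℝ) * q) = c * q * U.card := by ring
        rw [this]
        refine mul_le_mul_of_nonneg_left ?_ hcq
        have : (0 : ℝ) ≤ s := Nat.cast_nonneg _
        linarith
      calc _ ≤ c * ((U.card : ℝ) * q)
            + c * q * (U.card + 1 + s) * (2 * (θ * m) ^ (s + 1) - θ * m) := add_le_add h3 h9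
        _ ≤ c * q * (U.card + 1 + s)
            + c * q * (U.card + 1 + s) * (2 * (θ * m) ^ (s + 1) - 2) := add_le_add h11 h10
        _ = _ := by ring
  intro U r x hr hx
  have hq0 : 0 ≤ q := (hp0 s(x, x)).trans (hpq _)
  refine (key s U r x hr hx).trans ?_
  have : c * q * (U.card + s) * (2 * (θ * m) ^ s - 1) ≤ c * q * (U.card + s) * (2 * (θ * m) ^ s) := by
    refine mul_le_mul_of_nonneg_left (by linarith) ?_
    positivity
  linarith

end Pool.Agent.Helper72.BPA
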