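import Pool.Agent.Helper72.BPA.St

/-!
# Module ZIND: pairs which do not matter for `zc`
-/

set_option autoImplicit false

namespace Pool.Agent.Helper72.BPA

open Finset MeasureTheory Pool.Agent.Helper87.BP Pool.Agent.Helper42.BPX

noncomputable section

open Classical

theorem m_zind : S_zind := by
  intro n c θ A B s
  induction s with
  | zero =>
    intro U p x hp hx hB
    have h1 : ∀ y ∈ U.erase p, ind (Adj (A \ B) y x) = ind (Adj A y x) := by
      intro y hy
      rw [mem_erase] at hy
      refine ind_congr ?_
      unfold Adj
      rw [mem_sdiff]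
      refine ⟨fun h => ⟨h.1, h.2.1⟩, fun h => ⟨h.1, h.2, fun hb => ?_⟩⟩
      rcases hB _ hb with h' | h'
      · exact hx (h' x (by simp))
      · rw [Sym2.eq_iff] at h'
        rcases h' with h' | h'
        · exact h.1 h'.1
        · exact hy.1 h'.1
    simp only [zc]
    rw [Finset.sum_congr rfl h1]
  | succ s ih =>
    intro U p x hp hx hB
    have h1 : ∀ y ∈ U.erase p, ind (Adj (A \ B) y x) = ind (Adj A y x) := by
      intro y hy
      rw [mem_erase] at hy
      refine ind_congr ?_
      unfold Adj
      rw [mem_sdiff]
      refine ⟨fun h => ⟨h.1, h.2.1⟩, fun h => ⟨h.1, h.2, fun hb => ?_⟩⟩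
      rcases hB _ hb with h' | h'
      · exact hx (h' x (by simp))
      · rw [Sym2.eq_iff] at h'
        rcases h' with h' | h'
        · exact h.1 h'.1
        · exact hy.1 h'.1
    have h2 : ∀ y ∈ univ \ insert x U, ind (Adj (A \ B) y x) * zc c θ (A \ B) s (insert x U) x y
        = ind (Adj A y x) * zc c θ A s (insert x U) x y := by
      intro y hy
      rw [mem_sdiff] at hy
      have hyx : y ∉ insert x U := hy.2
      have e1 : ind (Adj (A \ B) y x) = ind (Adj A y x) := by
        refine ind_congr ?_
        unfold Adj
        rw [mem_sdiff]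
        refine ⟨fun h => ⟨h.1, h.2.1⟩, fun h => ⟨h.1, h.2, fun hb => ?_⟩⟩
        rcases hB _ hb with h' | h'
        · exact hx (h' x (by simp))
        · rw [Sym2.eq_iff] at h'
          rcases h' with h' | h'
          · exact h.1 h'.1
          · exact hyx (mem_insert_of_mem (h'.1 ▸ hp))
      rw [e1, ih (insert x U) x y (mem_insert_self _ _) hyx ?_]
      intro e he
      rcases hB e he with h' | h'
      · exact Or.inl fun v hv => mem_insert_of_mem (h' v hv)
      · left
        intro v hv
        rw [h', Sym2.mem_iff] at hv
        rcases hv with hv | hv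
        · rw [hv]; exact mem_insert_self _ _
        · rw [hv]; exact mem_insert_of_mem hp
    simp only [zc]
    rw [Finset.sum_congr rfl h1, Finset.sum_congr rfl h2]

end

end Pool.Agent.Helper72.BPA
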