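import Pool.Agent.Helper72.BPA.M_ST
import Pool.Agent.Helper72.BPA.M_EXPAND
import Pool.Agent.Helper72.BPA.M_ENERGY
import Pool.Agent.Helper72.BPA.M_CHV
import Pool.Agent.Helper72.BPA.M_RUSSO
import Pool.Agent.Helper72.BPA.M_DER
import Pool.Agent.Helper72.BPA.M_L2
import Pool.Agent.Helper72.BPA.M_MM
import Pool.Agent.Helper72.BPA.M_LAB
import Pool.Agent.Helper72.BPA.M_RS2
import Pool.Agent.Helper72.BPA.M_PAIR
import Pool.Agent.Helper72.BPA.M_SWI
import Pool.Agent.Helper72.BPA.M_INF
import Pool.Agent.Helper72.BPA.M_ZMSG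
import Pool.Agent.Helper72.BPA.M_ZIND
import Pool.Agent.Helper72.BPA.M_ZEE
import Pool.Agent.Helper72.BPA.M_FLD
import Pool.Agent.Helper72.BPA.M_STEP0
import Pool.Agent.Helper72.BPA.M_STEP
import Pool.Agent.Helper72.BPA.M_ITER
import Pool.Agent.Helper72.BPA.M_PARTA
import Pool.Agent.Helper72.BPA.M_CLIP

set_option autoImplicit false

/-!
# Part A: closeness of the two communities
-/

namespace Pool.Agent.Helper72.BPA

theorem t_mm : S_mm := m_mm (m_L2 m_russo (m_der m_st)) (m_chv m_energy)

theorem t_pair : S_pair := m_pair m_st m_lab m_rs2 t_mm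

theorem t_inf : S_inf := m_inf m_swInter

theorem t_fld : S_fld := m_fld m_zmsg m_zind (m_zee m_zind)

theorem t_step0 : S_step0 := m_step0 m_st (m_expand m_st) t_inf m_swInter t_pair

theorem t_step : S_step := m_step m_st (m_expand m_st) t_inf m_swInter t_pair

theorem t_iter : S_iter := m_iter t_step0 t_step

theorem partA : S_partA := m_partA m_st t_fld t_iter

theorem clip : S_clip := m_clip m_st

end Pool.Agent.Helper72.BPA
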