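import Pool.Agent.Helper42.BPX.EE2

/-!
# Part A: closeness of the two communities. Definitions.
-/

set_option autoImplicit false

namespace Pool.Agent.Helper72.BPA

open Finset MeasureTheory Pool.Agent.Helper87.BP Pool.Agent.Helper42.BPX

noncomputable section

open Classical

variable {n : ℕ}

/-- probability of the pair `e` given the labels -/
def pe (a b : ℝ) (σ : Fin n → Bool) : Sym2 (Fin n) → ℝ :=
  Sym2.lift ⟨fun i j => if σ i = σ j then a / n else b / n, fun i j => by
    simp only [eq_comm]⟩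

lemma pe_mk (a b : ℝ) (σ : Fin n → Bool) (i j : Fin n) :
    pe a b σ s(i, j) = if σ i = σ j then a / n else b / n := rfl

/-- pairs of distinct vertices of `W` -/
def prsIn (W : Finset (Fin n)) : Finset (Sym2 (Fin n)) :=
  (prs n).filter (fun e => ∀ v ∈ e, v ∈ W)

/-- average over the labels and the graph -/
def avg (a b : ℝ) (F : (Fin n → Bool) → Finset (Sym2 (Fin n)) → ℝ) : ℝ :=
  (∑ σ : Fin n → Bool, EE (pe a b σ) (prs n) (F σ)) / 2 ^ n

/-- self-avoiding version of belief propagation: the field at `x` after `s` rounds computed from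
the vertices of `S` only; a visited vertex is removed. `g y x` is the initial value
(`f (h0 y x)`). -/
def sw (f : ℝ → ℝ) (g : Fin n → Fin n → ℝ) (A : Finset (Sym2 (Fin n))) :
    ℕ → Finset (Fin n) → Fin n → ℝ
  | 0 => fun S x => ∑ y ∈ S, ind (Adj A y x) * g y x
  | s + 1 => fun S x => ∑ y ∈ S, ind (Adj A y x) * f (sw f g A s (S.erase y) y)

/-- bound for the difference between the message from `x` to `p` and its self-avoiding version,
`U` being the set of visited vertices -/
def zc (c θ : ℝ) (A : Finset (Sym2 (Fin n))) :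
    ℕ → Finset (Fin n) → Fin n → Fin n → ℝ
  | 0 => fun U p x => c * ∑ y ∈ U.erase p, ind (Adj A y x)
  | s + 1 => fun U p x => c * ∑ y ∈ U.erase p, ind (Adj A y x)
      + θ * ∑ y ∈ univ \ insert x U, ind (Adj A y x) * zc c θ A s (insert x U) x y

/-- centred step function -/
def st (x v : ℝ) : ℝ := ind (x ≤ v) - ind (0 ≤ v)

/-- the kernel `∫ st x v * st y v dv` -/
def kk (x y : ℝ) : ℝ := ∫ v, st x v * st y v

/-- `1` for `true`, `-1` for `false` -/
def lb (x : Bool) : ℝ := if x then 1 else -1

/-- signed centred empirical distribution function of the values `w y`, `y ∈ T` -/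
def Zw (σ : Fin n → Bool) (T : Finset (Fin n)) (w : Fin n → ℝ) (v : ℝ) : ℝ :=
  (∑ y ∈ T, lab σ y * st (w y) v) / n

/-- bounded function with bounded support, measurable -/
def Nice (F : ℝ → ℝ) : Prop :=
  Measurable F ∧ (∃ C, ∀ x, |F x| ≤ C) ∧ ∃ M, ∀ x, M < |x| → F x = 0

/-- conditions on the function `f` of the update -/
structure FF (c θ : ℝ) (f : ℝ → ℝ) : Prop where
  c0 : 0 ≤ c
  th : 0 ≤ θ
  bd : ∀ x, |f x| ≤ c
  mono : Monotone f
  lip : ∀ x y, |f x - f y| ≤ θ * |x - y|

/-- conditions on the parameters of the graph -/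
structure GG (n : ℕ) (a b m : ℝ) : Prop where
  pos : 0 < n
  a0 : 0 ≤ a
  b0 : 0 ≤ b
  am : a ≤ m
  bm : b ≤ m
  mn : m ≤ n

/-- second moment of the signed distribution function of the self-avoiding fields -/
def aa (a b : ℝ) (f : ℝ → ℝ) (g : Fin n → Fin n → ℝ) (s : ℕ) (S : Finset (Fin n)) : ℝ :=
  avg a b (fun σ A => ∫ v, (Zw σ S (fun i => f (sw f g A s (S.erase i) i)) v) ^ 2)

end

end Pool.Agent.Helper72.BPA
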