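import Pool.Agent.Helper72.BPA.St

/-!
# Module ZMSG: the message and its self-avoiding version
-/

set_option autoImplicit false

namespace Pool.Agent.Helper72.BPA

open Finset MeasureTheory Pool.Agent.Helper87.BP Pool.Agent.Helper42.BPX

noncomputable section

open Classical

/-- splitting the neighbours of `x` into visited and new ones -/
lemma zmsg_split {n : ℕ} (A : Finset (Sym2 (Fin n))) (U : Finset (Fin n)) (p x : Fin n)
    (hp : p ∈ U) (hx : x ∉ U) (F : Fin n → ℝ) :
    ∑ k ∈ (nb A x).erase p, F k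
      = ∑ y ∈ U.erase p, ind (Adj A y x) * F y
        + ∑ y ∈ univ \ insert x U, ind (Adj A y x) * F y := by
  have h : ∀ T : Finset (Fin n), ∑ y ∈ T, ind (Adj A y x) * F y
      = ∑ y ∈ T.filter (fun y => Adj A y x), F y := by
    intro T
    rw [Finset.sum_filter]
    refine Finset.sum_congr rfl fun y _ => ?_
    by_cases hy : Adj A y x
    · rw [ind_of hy, if_pos hy, one_mul]
    · rw [ind_not hy, if_neg hy, zero_mul]
  rw [h, h, ← Finset.sum_union]
  · refine Finset.sum_congr ?_ fun _ _ => rfl
    ext y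
    simp only [mem_erase, mem_nb, mem_union, mem_filter, mem_sdiff, mem_univ, true_and,
      mem_insert]
    constructor
    · rintro ⟨h1, h2⟩
      have h3 : Adj A y x := h2.symm
      by_cases hy : y ∈ U
      · exact Or.inl ⟨⟨h1, hy⟩, h3⟩
      · exact Or.inr ⟨by
          rintro (h4 | h4)
          · exact h3.1 h4
          · exact hy h4, h3⟩
    · rintro (⟨⟨h1, h2⟩, h3⟩ | ⟨h1, h3⟩)
      · exact ⟨h1, h3.symm⟩
      · refine ⟨?_, h3.symm⟩
        rintro rfl
        exact h1 (Or.inr hp)
  · rw [disjoint_left]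
    intro y hy hy'
    rw [mem_filter, mem_erase] at hy
    rw [mem_filter, mem_sdiff, mem_insert] at hy'
    exact hy'.1.2 (Or.inr hy.1.2)

lemma zmsg_first {n : ℕ} {c θ : ℝ} {f : ℝ → ℝ} (hf : FF c θ f) (A : Finset (Sym2 (Fin n)))
    (T : Finset (Fin n)) (x : Fin n) (F : Fin n → ℝ) :
    |∑ y ∈ T, ind (Adj A y x) * f (F y)| ≤ c * ∑ y ∈ T, ind (Adj A y x) := by
  refine (Finset.abs_sum_le_sum_abs _ _).trans ?_
  rw [Finset.mul_sum]
  refine Finset.sum_le_sum fun y _ => ?_
  rw [abs_mul, abs_of_nonneg (ind_nonneg _), mul_comm]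
  exact mul_le_mul_of_nonneg_right (hf.bd _) (ind_nonneg _)

theorem m_zmsg : S_zmsg := by
  intro n c θ f h0 A hf s
  induction s with
  | zero =>
    intro U p x hp hx
    rw [msg_succ, zmsg_split A U p x hp hx]
    have e : sw f (fun y x => f (h0 y x)) A 0 (univ \ insert x U) x
        = ∑ y ∈ univ \ insert x U, ind (Adj A y x) * f (msg f (Adj A) h0 0 y x) := rfl
    rw [e, add_sub_cancel_right]
    exact zmsg_first hf A _ x _
  | succ s ih =>
    intro U p x hp hx
    rw [msg_succ, zmsg_split A U p x hp hx]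
    have e : sw f (fun y x => f (h0 y x)) A (s + 1) (univ \ insert x U) x
        = ∑ y ∈ univ \ insert x U, ind (Adj A y x)
          * f (sw f (fun y x => f (h0 y x)) A s ((univ \ insert x U).erase y) y) := rfl
    have e2 : zc c θ A (s + 1) U p x = c * ∑ y ∈ U.erase p, ind (Adj A y x)
        + θ * ∑ y ∈ univ \ insert x U, ind (Adj A y x) * zc c θ A s (insert x U) x y := rfl
    rw [e, e2, add_sub_assoc, ← Finset.sum_sub_distrib]
    refine (abs_add_le _ _).trans (add_le_add (zmsg_first hf A _ x _) ?_)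
    refine (Finset.abs_sum_le_sum_abs _ _).trans ?_
    rw [Finset.mul_sum]
    refine Finset.sum_le_sum fun y hy => ?_
    rw [mem_sdiff, mem_insert] at hy
    rw [← mul_sub, abs_mul, abs_of_nonneg (ind_nonneg _)]
    have h1 := hf.lip (msg f (Adj A) h0 (s + 1) y x)
      (sw f (fun y x => f (h0 y x)) A s ((univ \ insert x U).erase y) y)
    have h2 : (univ \ insert x U).erase y = univ \ insert y (insert x U) := by
      ext z
      simp only [mem_erase, mem_sdiff, mem_univ, true_and, mem_insert]
      tauto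
    have h3 := ih (insert x U) x y (mem_insert_self _ _) (by
      rw [mem_insert]; exact hy.2)
    rw [h2] at h1 ⊢
    calc ind (Adj A y x) * |f (msg f (Adj A) h0 (s + 1) y x)
          - f (sw f (fun y x => f (h0 y x)) A s (univ \ insert y (insert x U)) y)|
        ≤ ind (Adj A y x) * (θ * zc c θ A s (insert x U) x y) :=
          mul_le_mul_of_nonneg_left (h1.trans (mul_le_mul_of_nonneg_left h3 hf.th))
            (ind_nonneg _)
      _ = θ * (ind (Adj A y x) * zc c θ A s (insert x U) x y) := by ring

end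

end Pool.Agent.Helper72.BPA
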