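import Pool.Agent.Helper72.BPA.Defs

/-!
# Part A: statements of the modules
-/

set_option autoImplicit false

namespace Pool.Agent.Helper72.BPA

open Finset MeasureTheory Pool.Agent.Helper87.BP Pool.Agent.Helper42.BPX

noncomputable section

open Classical

/-! ## step functions -/

/-- `st` -/
def S_st : Prop :=
  (∀ x, Measurable (st x)) ∧ (∀ x v, |st x v| ≤ 1) ∧ (∀ x v, |x| < |v| → st x v = 0) ∧
  (∀ x y v, |st x v - st y v| ≤ 1) ∧ (∀ x y, ∫ v, |st x v - st y v| = |x - y|) ∧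
  (∀ x, kk x x = |x|) ∧ (∀ x y x' y', |kk x y - kk x' y'| ≤ |x - x'| + |y - y'|) ∧
  (∀ x y, |kk x y| ≤ |x|)

/-- second moment of `Zw` -/
def S_expand : Prop := ∀ (n : ℕ) (σ : Fin n → Bool) (S : Finset (Fin n)) (u : Fin n → ℝ),
  ∫ v, (Zw σ S u v) ^ 2 = (∑ i ∈ S, ∑ j ∈ S, lab σ i * lab σ j * kk (u i) (u j)) / (n : ℝ) ^ 2

/-- energy of a finite signed measure of total mass zero -/
def S_energy : Prop := ∀ (κ : Type) (K : Finset κ) (α s : κ → ℝ), ∑ k ∈ K, α k = 0 →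
  ∫ v, (∑ k ∈ K, α k * ind (s k ≤ v)) ^ 2
    = -(1 / 2) * ∑ k ∈ K, ∑ l ∈ K, α k * α l * |s k - s l|

/-- change of variables -/
def S_chv : Prop := ∀ (κ : Type) (K : Finset κ) (α s : κ → ℝ) (c θ : ℝ) (f : ℝ → ℝ), FF c θ f →
  ∑ k ∈ K, α k = 0 →
  ∫ v, (∑ k ∈ K, α k * ind (f (s k) ≤ v)) ^ 2 ≤ θ * ∫ x, (∑ k ∈ K, α k * ind (s k ≤ x)) ^ 2

/-! ## interpolation of the inclusion probabilities -/

/-- Russo's formula -/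
def S_russo : Prop := ∀ (κ : Type) [DecidableEq κ] (T : Finset κ) (p0 p1 : κ → ℝ)
  (F : Finset κ → ℝ) (τ : ℝ),
  HasDerivAt (fun τ => EE (fun y => p0 y + τ * (p1 y - p0 y)) T F)
    (∑ y ∈ T, (p1 y - p0 y) * EE (fun y => p0 y + τ * (p1 y - p0 y)) T
      (fun N => F (insert y N) - F (N.erase y))) τ

/-- the derivative -/
def S_der : Prop := ∀ (κ : Type) [DecidableEq κ] (T : Finset κ) (p w s : κ → ℝ) (c m : ℝ),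
  (∀ y ∈ T, 0 ≤ p y) → (∀ y ∈ T, p y ≤ 1) → (∀ y ∈ T, |w y| ≤ c) → (∀ y ∈ T, |s y| ≤ 1) →
  0 ≤ c → ∑ y ∈ T, p y ≤ m →
  ∫ x, (∑ y ∈ T, s y * EE p T (fun N => ind (∑ z ∈ insert y N, w z ≤ x)
      - ind (∑ z ∈ N.erase y, w z ≤ x))) ^ 2
    ≤ 2 * (∫ x, (∑ y ∈ T, s y * st (w y) x) ^ 2) + 4 * c * m ^ 2

/-- difference of the distribution functions of two random sums -/
def S_L2 : Prop := ∀ (κ : Type) [DecidableEq κ] (T : Finset κ) (p0 p1 w s : κ → ℝ) (c m δ : ℝ),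
  (∀ y ∈ T, 0 ≤ p0 y) → (∀ y ∈ T, p0 y ≤ 1) → (∀ y ∈ T, 0 ≤ p1 y) → (∀ y ∈ T, p1 y ≤ 1) →
  (∀ y ∈ T, p1 y - p0 y = δ * s y) → (∀ y ∈ T, |w y| ≤ c) → (∀ y ∈ T, |s y| ≤ 1) →
  0 ≤ c → ∑ y ∈ T, p0 y ≤ m → ∑ y ∈ T, p1 y ≤ m →
  ∫ x, (EE p1 T (fun N => ind (∑ z ∈ N, w z ≤ x)) - EE p0 T (fun N => ind (∑ z ∈ N, w z ≤ x))) ^ 2
    ≤ δ ^ 2 * (2 * (∫ x, (∑ y ∈ T, s y * st (w y) x) ^ 2) + 4 * c * m ^ 2)

/-- the same after applying `f` -/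
def S_mm : Prop := ∀ (κ : Type) [DecidableEq κ] (T : Finset κ) (p0 p1 w s : κ → ℝ) (c m δ θ : ℝ)
  (f : ℝ → ℝ), FF c θ f →
  (∀ y ∈ T, 0 ≤ p0 y) → (∀ y ∈ T, p0 y ≤ 1) → (∀ y ∈ T, 0 ≤ p1 y) → (∀ y ∈ T, p1 y ≤ 1) →
  (∀ y ∈ T, p1 y - p0 y = δ * s y) → (∀ y ∈ T, |w y| ≤ c) → (∀ y ∈ T, |s y| ≤ 1) →
  ∑ y ∈ T, p0 y ≤ m → ∑ y ∈ T, p1 y ≤ m →
  ∫ v, ((EE p1 T (fun N => st (f (∑ z ∈ N, w z)) v)
      - EE p0 T (fun N => st (f (∑ z ∈ N, w z)) v)) / 2) ^ 2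
    ≤ θ * δ ^ 2 * ((∫ x, (∑ y ∈ T, s y * st (w y) x) ^ 2) / 2 + c * m ^ 2)

/-! ## labels and resampling -/

/-- averaging over two labels -/
def S_lab : Prop := ∀ (n : ℕ) (i j : Fin n), i ≠ j → ∀ H : (Fin n → Bool) → ℝ,
  ∑ σ : Fin n → Bool, lab σ i * lab σ j * H σ
    = ∑ σ : Fin n → Bool, (∑ x : Bool, ∑ y : Bool,
        lb x * lb y * H (Function.update (Function.update σ i x) j y)) / 4

/-- given the graph on `T`, the neighbourhoods of `i` and `j` in `T` are fresh -/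
def S_rs2 : Prop := ∀ (n : ℕ) (p : Sym2 (Fin n) → ℝ) (T : Finset (Fin n)) (i j : Fin n),
  i ≠ j → i ∉ T → j ∉ T →
  ∀ Φ : Finset (Sym2 (Fin n)) → Finset (Fin n) → Finset (Fin n) → ℝ,
  EE p (prs n) (fun A => Φ (A ∩ prsIn T) (T.filter (fun y => Adj A y i))
      (T.filter (fun y => Adj A y j)))
    = EE p (prs n) (fun A => EE (fun y => p s(y, i)) T (fun N =>
        EE (fun y => p s(y, j)) T (fun N' => Φ (A ∩ prsIn T) N N')))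

/-- the pair term -/
def S_pair : Prop := ∀ (n : ℕ) (a b m c θ : ℝ) (f : ℝ → ℝ), GG n a b m → FF c θ f →
  ∀ (T : Finset (Fin n)) (i j : Fin n), i ≠ j → i ∉ T → j ∉ T →
  ∀ wi wj : Finset (Sym2 (Fin n)) → Fin n → ℝ,
  (∀ A, ∀ y ∈ T, |wi A y| ≤ c) → (∀ A, ∀ y ∈ T, |wj A y| ≤ c) →
  (∀ A, ∀ y ∈ T, wi (A ∩ prsIn T) y = wi A y) → (∀ A, ∀ y ∈ T, wj (A ∩ prsIn T) y = wj A y) →
  avg a b (fun σ A => lab σ i * lab σ j * kk (f (∑ y ∈ T, ind (Adj A y i) * wi A y))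
      (f (∑ y ∈ T, ind (Adj A y j) * wj A y)))
    ≤ θ * (a - b) ^ 2 / 4 * (avg a b (fun σ A => ∫ v, (Zw σ T (wi A) v) ^ 2)
        + avg a b (fun σ A => ∫ v, (Zw σ T (wj A) v) ^ 2))
      + θ * ((a - b) / n) ^ 2 * m ^ 2 * c

/-! ## self-avoiding version -/

/-- `sw` depends on the pairs inside `insert x S` only -/
def S_swInter : Prop := ∀ (n : ℕ) (f : ℝ → ℝ) (g : Fin n → Fin n → ℝ)
  (A : Finset (Sym2 (Fin n))) (s : ℕ) (S W : Finset (Fin n)) (x : Fin n), insert x S ⊆ W →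
  sw f g (A ∩ prsIn W) s S x = sw f g A s S x

/-- influence of one vertex -/
def S_inf : Prop := ∀ (n : ℕ) (p : Sym2 (Fin n) → ℝ) (q m c θ : ℝ) (f : ℝ → ℝ)
  (g : Fin n → Fin n → ℝ), (∀ e, 0 ≤ p e) → (∀ e, p e ≤ q) → q ≤ 1 → n * q ≤ m → 2 ≤ θ * m →
  FF c θ f → (∀ y x, |g y x| ≤ c) →
  ∀ (s : ℕ) (S : Finset (Fin n)) (x j : Fin n), x ∉ S →
  EE p (prs n) (fun A => |sw f g A s S x - sw f g A s (S.erase j) x|) ≤ 2 * c * q * (θ * m) ^ s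

/-- the message and its self-avoiding version -/
def S_zmsg : Prop := ∀ (n : ℕ) (c θ : ℝ) (f : ℝ → ℝ) (h0 : Fin n → Fin n → ℝ)
  (A : Finset (Sym2 (Fin n))), FF c θ f →
  ∀ (s : ℕ) (U : Finset (Fin n)) (p x : Fin n), p ∈ U → x ∉ U →
  |msg f (Adj A) h0 (s + 1) x p - sw f (fun y x => f (h0 y x)) A s (univ \ insert x U) x|
    ≤ zc c θ A s U p x

/-- pairs which do not matter for `zc` -/
def S_zind : Prop := ∀ (n : ℕ) (c θ : ℝ) (A B : Finset (Sym2 (Fin n))) (s : ℕ)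
  (U : Finset (Fin n)) (p x : Fin n), p ∈ U → x ∉ U →
  (∀ e ∈ B, (∀ v ∈ e, v ∈ U) ∨ e = s(x, p)) → zc c θ (A \ B) s U p x = zc c θ A s U p x

/-- expectation of `zc` -/
def S_zee : Prop := ∀ (n : ℕ) (p : Sym2 (Fin n) → ℝ) (q m c θ : ℝ), (∀ e, 0 ≤ p e) →
  (∀ e, p e ≤ q) → q ≤ 1 → n * q ≤ m → 2 ≤ θ * m → 0 ≤ c → 0 ≤ θ →
  ∀ (s : ℕ) (U : Finset (Fin n)) (r x : Fin n), r ∈ U → x ∉ U →
  EE p (prs n) (fun A => zc c θ A s U r x) ≤ 2 * c * q * (U.card + s) * (θ * m) ^ s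

/-- the field and its self-avoiding version -/
def S_fld : Prop := ∀ (n : ℕ) (p : Sym2 (Fin n) → ℝ) (q m c θ : ℝ) (f : ℝ → ℝ)
  (h0 : Fin n → Fin n → ℝ), (∀ e, 0 ≤ p e) → (∀ e, p e ≤ q) → q ≤ 1 → n * q ≤ m → 2 ≤ θ * m →
  FF c θ f → ∀ (t : ℕ) (x : Fin n),
  EE p (prs n) (fun A => |field f (Adj A) h0 t x
      - sw f (fun y x => f (h0 y x)) A t (univ.erase x) x|) ≤ 2 * c * q * t * (θ * m) ^ t

/-! ## recursion -/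

/-- first step of the recursion -/
def S_step0 : Prop := ∀ (n : ℕ) (a b m c θ : ℝ) (f : ℝ → ℝ) (g : Fin n → Fin n → ℝ),
  GG n a b m → FF c θ f → 2 ≤ θ * m → (∀ y x, |g y x| ≤ c) → ∀ S : Finset (Fin n),
  aa a b f g 0 S ≤ c / n + 4 * θ * c * (m / n) + θ * ((a - b) / n) ^ 2 * m ^ 2 * c
    + θ * (a - b) ^ 2 / 2 * (c / n)

/-- recursion step -/
def S_step : Prop := ∀ (n : ℕ) (a b m c θ : ℝ) (f : ℝ → ℝ) (g : Fin n → Fin n → ℝ),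
  GG n a b m → FF c θ f → 2 ≤ θ * m → (∀ y x, |g y x| ≤ c) → ∀ (s : ℕ) (E : ℝ),
  (∀ T : Finset (Fin n), aa a b f g s T ≤ E) → ∀ S : Finset (Fin n),
  aa a b f g (s + 1) S ≤ c / n + 4 * θ * c * (m / n) * (θ * m) ^ (s + 1)
    + θ * ((a - b) / n) ^ 2 * m ^ 2 * c + θ * (a - b) ^ 2 / 2 * E

/-- solution of the recursion -/
def S_iter : Prop := ∀ (n : ℕ) (a b m c θ : ℝ) (f : ℝ → ℝ) (g : Fin n → Fin n → ℝ),
  GG n a b m → FF c θ f → 2 ≤ θ * m → θ * m ≤ θ * (a - b) ^ 2 / 2 → (∀ y x, |g y x| ≤ c) →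
  ∀ (s : ℕ) (S : Finset (Fin n)), aa a b f g s S
    ≤ c / n * (6 + θ * (a - b) ^ 2 * m) * (s + 1) * (θ * (a - b) ^ 2 / 2) ^ (s + 1)

/-- closeness of the two communities -/
def S_partA : Prop := ∀ (n : ℕ) (a b m c θ : ℝ) (f : ℝ → ℝ) (h0 : Fin n → Fin n → ℝ),
  GG n a b m → FF c θ f → 2 ≤ θ * m → θ * m ≤ θ * (a - b) ^ 2 / 2 → ∀ t : ℕ,
  avg a b (fun σ A => ∫ v, (Zw σ univ (fun i => f (field f (Adj A) h0 t i)) v) ^ 2)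
    ≤ c / n * (16 + 2 * θ * (a - b) ^ 2 * m) * (t + 1) * (θ * (a - b) ^ 2 / 2) ^ (t + 1)

/-- the clipped sign of the values is orthogonal to the labels -/
def S_clip : Prop := ∀ (n : ℕ) (σ : Fin n → Bool) (u : Fin n → ℝ) (η : ℝ), 0 < η →
  ((∑ i, lab σ i * max (-1) (min 1 (u i / η))) / n) ^ 2 ≤ 2 / η * ∫ v, (Zw σ univ u v) ^ 2

end

end Pool.Agent.Helper72.BPA
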